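import Pool.Agent.J6H62.AB.Kr

set_option autoImplicit false

/-!
Change of the distinguished operator.
-/

namespace Pool.Agent.J6H62.AB

open TensorProduct MvPolynomial

section alg
variable {A : Type} [Ring A] {p : ℕ}

theorem choose_neg (hp : p.Prime) (h0 : (p : A) = 0) (j : ℕ) (hj : j ≤ p - 1) :
    ((p - 1).choose j : A) = (-1) ^ j := by
  induction j with
  | zero => simp
  | succ j ih =>
    have h1 := ih (by omega)
    have h2 : p.choose (j + 1) = (p - 1).choose j + (p - 1).choose (j + 1) := by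
      have : p = (p - 1) + 1 := by have := hp.pos; omega
      conv_lhs => rw [this]
      rw [Nat.choose_succ_succ]
    have h3 : ((p.choose (j + 1) : ℕ) : A) = 0 := by
      obtain ⟨c, hc⟩ := hp.dvd_choose_self (Nat.succ_ne_zero j) (by have := hp.pos; omega)
      rw [hc, Nat.cast_mul, h0, zero_mul]
    rw [h2, Nat.cast_add, h1] at h3
    rw [pow_succ, mul_neg_one]
    exact eq_neg_of_add_eq_zero_right h3

theorem geom_char (hp : p.Prime) (h0 : (p : A) = 0) {a z : A} (h : Commute a z) :
    ∑ i ∈ Finset.range p, a ^ i * z ^ (p - 1 - i) = (a - z) ^ (p - 1) := by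
  have h' : Commute a (-z) := h.neg_right
  rw [sub_eq_add_neg, h'.add_pow]
  have : p - 1 + 1 = p := by have := hp.pos; omega
  rw [this]
  refine Finset.sum_congr rfl fun i hi => ?_
  rw [Finset.mem_range] at hi
  have e : (p - 1).choose i = (p - 1).choose (p - 1 - i) :=
    (Nat.choose_symm (by omega)).symm
  rw [e, choose_neg hp h0 _ (by omega), neg_pow z, mul_assoc, mul_assoc]
  congr 1
  rw [← mul_assoc, ((Commute.neg_one_left z).pow_pow _ _).eq, mul_assoc, ← pow_add, ← two_mul,
    pow_mul, neg_one_sq, one_pow, mul_one]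

end alg

section gexist
variable {K : Type} [Field K] {V : Type} [AddCommGroup V] [Module K V]

theorem neg_one_pow_char (p : ℕ) [hp : Fact p.Prime] [CharP K p] : ((-1 : K)) ^ (p - 1) = 1 := by
  rcases hp.out.eq_two_or_odd' with h | h
  · subst h
    have : (-1 : K) = 1 := by
      have h2 : ((2 : ℕ) : K) = 0 := CharP.cast_eq_zero K 2
      push_cast at h2
      linear_combination -h2
    rw [this, one_pow]
  · obtain ⟨k, hk⟩ := h
    rw [hk]
    simp

/-- The operator `g` with its properties. -/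
theorem exists_g (p : ℕ) [hp : Fact p.Prime] [CharP K p] (a y : Module.End K V)
    (h : Commute a y) (c : K) :
    ∃ g : Module.End K V,
      (a + c • y) ^ (p - 1) = a ^ (p - 1) + g * y ∧
      g * a = c ^ p • y ^ (p - 1) - c • (a + c • y) ^ (p - 1) ∧
      (a + c • y) * g = c ^ p • y ^ (p - 1) - c • a ^ (p - 1) ∧
      (∀ f : Module.End K V, Commute f a → Commute f y → Commute f g) ∧
      (∀ π : ℤ → Module.End K V, (∀ i, a * π i = π (i + 2) * a) →
        (∀ i, y * π i = π (i + 2) * y) → ∀ i, g * π i = π (i + 2 * ((p : ℤ) - 2)) * g) := by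
  have hp1 := hp.out.one_lt
  have h0 : ((p : ℕ) : Module.End K V) = 0 := by
    have : algebraMap K (Module.End K V) (p : K) = ((p : ℕ) : Module.End K V) := by
      rw [map_natCast]
    rw [← this, CharP.cast_eq_zero, map_zero]
  set z : Module.End K V := -(c • y) with hz
  have haz : Commute a z := (h.smul_right c).neg_right
  set G := ∑ i ∈ Finset.range (p - 1), a ^ i * z ^ (p - 1 - 1 - i) with hG
  have hyG : Commute y G := by
    refine Commute.sum_right _ _ _ fun i _ => ?_
    refine Commute.mul_right (h.symm.pow_right _) (Commute.pow_right ?_ _)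
    exact ((Commute.refl y).smul_right c).neg_right
  have haG : Commute a G := by
    refine Commute.sum_right _ _ _ fun i _ => ?_
    exact Commute.mul_right ((Commute.refl a).pow_right _) (haz.pow_right _)
  have e1 : (a - z) * G = a ^ (p - 1) - z ^ (p - 1) := haz.mul_geom_sum₂ (p - 1)
  have haz' : a - z = a + c • y := by rw [hz, sub_neg_eq_add]
  have hzp : z ^ (p - 1) = c ^ (p - 1) • y ^ (p - 1) := by
    rw [hz, ← neg_smul, smul_pow, neg_pow, neg_one_pow_char p, one_mul]
  have hcp : c * c ^ (p - 1) = c ^ p := mul_pow_sub_one hp.out.ne_zero c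
  have e2 : z * G + a ^ (p - 1) = (a - z) ^ (p - 1) := by
    rw [← geom_char hp.out h0 haz]
    have : p = (p - 1) + 1 := by omega
    conv_rhs => rw [this]
    rw [Finset.sum_range_succ]
    congr 1
    · rw [hG, Finset.mul_sum]
      refine Finset.sum_congr rfl fun i hi => ?_
      rw [Finset.mem_range] at hi
      have : p - 1 + 1 - 1 - i = (p - 1 - 1 - i) + 1 := by omega
      rw [this, pow_succ', ← mul_assoc, ← mul_assoc, (haz.pow_left i).eq]
    · simp
  have e3 : (a + c • y) * G = a ^ (p - 1) - c ^ (p - 1) • y ^ (p - 1) := by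
    rw [← haz', e1, hzp]
  have e4 : G * y = y * G := hyG.eq.symm
  have P1 : (a + c • y) ^ (p - 1) = a ^ (p - 1) + (-(c • G)) * y := by
    rw [← haz', ← e2, hz, neg_mul, neg_mul, smul_mul_assoc, smul_mul_assoc, e4]
    abel
  have P3 : (a + c • y) * (-(c • G)) = c ^ p • y ^ (p - 1) - c • a ^ (p - 1) := by
    rw [mul_neg, mul_smul_comm, e3, smul_sub, smul_smul, hcp]
    abel
  refine ⟨-(c • G), P1, ?_, P3, ?_, ?_⟩
  · have h5 : a * (-(c • G)) = (a + c • y) * (-(c • G)) - c • ((-(c • G)) * y) := by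
      rw [add_mul]
      have : (c • y) * (-(c • G)) = c • (-(c • G) * y) := by
        rw [smul_mul_assoc]
        congr 1
        rw [mul_neg, neg_mul, mul_smul_comm, smul_mul_assoc, e4]
      rw [this]
      abel
    have h6 : (-(c • G)) * a = a * (-(c • G)) := by
      rw [mul_neg, neg_mul, mul_smul_comm, smul_mul_assoc, haG.eq]
    rw [h6, h5, P3]
    have h7 : (-(c • G)) * y = (a + c • y) ^ (p - 1) - a ^ (p - 1) := by
      rw [P1]; abel
    rw [h7, smul_sub]
    abel
  · intro f hfa hfy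
    refine ((Commute.sum_right _ _ _ fun i _ => ?_).smul_right c).neg_right
    exact Commute.mul_right (hfa.pow_right _) (Commute.pow_right (hfy.smul_right c).neg_right _)
  · intro π hπa hπy i
    have pw : ∀ (f : Module.End K V), (∀ i, f * π i = π (i + 2) * f) → ∀ (n : ℕ) (i : ℤ),
        f ^ n * π i = π (i + 2 * n) * f ^ n := by
      intro f hf n
      induction n with
      | zero => intro i; simp
      | succ n ih =>
        intro i
        rw [pow_succ, mul_assoc, hf, ← mul_assoc, ih, mul_assoc]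
        congr 2
        push_cast
        ring
    have hπz : ∀ i, z * π i = π (i + 2) * z := fun i => by
      rw [hz, neg_mul, mul_neg, smul_mul_assoc, mul_smul_comm, hπy]
    rw [neg_mul, mul_neg, smul_mul_assoc, mul_smul_comm, hG, Finset.sum_mul, Finset.mul_sum]
    congr 2
    refine Finset.sum_congr rfl fun j hj => ?_
    rw [Finset.mem_range] at hj
    rw [mul_assoc, pw z hπz, ← mul_assoc, pw a hπa, mul_assoc]
    congr 2
    have : ((p - 1 - 1 - j : ℕ) : ℤ) = p - 2 - j := by omega
    rw [this]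
    ring

end gexist

section tw
variable {K : Type} [Field K] {W : Type} [AddCommGroup W] [Module K W] {m : ℕ}

/-- The two complexes are isomorphic. -/
def Tw (R : Type) [CommRing R] [Module R W] (P : ℤ → Module.End K W) (δ : ℤ)
    (β x β' x' : Fin m → Module.End K W) : Prop :=
  ∃ Ψ Φ : Module.End K (Lx W m),
    (∀ z, Φ (Ψ z) = z) ∧ (∀ z, Ψ (Φ z) = z) ∧ (∀ (r : R) z, Φ (r • z) = r • Φ z) ∧
    (∀ μ z, PL P δ m μ (Ψ z) = Ψ (PL P δ m μ z)) ∧
    (∀ z, Ψ (Dx m β x z) = Dx m β' x' (Ψ z))

theorem Tw.refl (R : Type) [CommRing R] [Module R W] (P : ℤ → Module.End K W) (δ : ℤ)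
    (β x : Fin m → Module.End K W) : Tw R P δ β x β x :=
  ⟨1, 1, fun _ => rfl, fun _ => rfl, fun _ _ => rfl, fun _ _ => rfl, fun _ => rfl⟩

theorem Tw.trans {R : Type} [CommRing R] [Module R W] {P : ℤ → Module.End K W} {δ : ℤ}
    {β x β' x' β'' x'' : Fin m → Module.End K W} (h : Tw R P δ β x β' x')
    (h' : Tw R P δ β' x' β'' x'') : Tw R P δ β x β'' x'' := by
  obtain ⟨Ψ, Φ, h1, h2, h3, h4, h5⟩ := h
  obtain ⟨Ψ', Φ', h1', h2', h3', h4', h5'⟩ := h'
  refine ⟨Ψ' * Ψ, Φ * Φ', fun z => ?_, fun z => ?_, fun r z => ?_, fun μ z => ?_, fun z => ?_⟩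
  · simp only [Module.End.mul_apply, h1', h1]
  · simp only [Module.End.mul_apply, h2', h2]
  · simp only [Module.End.mul_apply, h3', h3]
  · simp only [Module.End.mul_apply, h4', h4]
  · simp only [Module.End.mul_apply, h5', h5]

theorem dd_smul {R : Type} [CommRing R] [Module R W] (m : ℕ) (k : Fin m) (r : R) (z : Lx W m) :
    dd (K := K) m k (r • z) = r • dd (K := K) m k z := by
  induction m with
  | zero => exact k.elim0
  | succ m ih =>
    obtain ⟨a, b, rfl⟩ := exists_pr z
    refine Fin.cases ?_ (fun j => ?_) k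
    · rw [pr_smul, dd_zero_pr, dd_zero_pr, pr_smul, smul_zero]
    · rw [pr_smul, dd_succ_pr, dd_succ_pr, pr_smul, ih, ih, smul_neg]

/-- One elementary step. -/
theorem Tw.step {R : Type} [CommRing R] [Module R W] (P : ℤ → Module.End K W) (δ : ℤ)
    (β x β' x' : Fin (m + 1) → Module.End K W) (k : Fin m) (G Γ : Module.End K W) (c : K)
    (hβ0 : β' 0 = β 0 + G * x k.succ) (hβk : β' k.succ = β k.succ - Γ)
    (hβi : ∀ i, i ≠ k → β' i.succ = β i.succ)
    (hx0 : x' 0 = x 0 + c • x k.succ) (hxi : ∀ i : Fin m, x' i.succ = x i.succ)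
    (h4 : G * x 0 = Γ - c • β' 0) (h5 : x' 0 * G = Γ - c • β 0)
    (hGx : ∀ i : Fin m, Commute G (x i.succ)) (hGβ : ∀ i : Fin m, Commute G (β i.succ))
    (hGP : ∀ i, G * P i = P (i + 2 * δ) * G)
    (hGR : ∀ (r : R) w, G (r • w) = r • G w)
    (hcR : ∀ (r : R) (z : Lx W m), c • r • z = r • c • z) :
    Tw R P δ β x β' x' := by
  set D := Dx m (fun i => β i.succ) (fun i => x i.succ) with hD
  set D' := Dx m (fun i => β' i.succ) (fun i => x' i.succ) with hD'
  set E : Module.End K (Lx W m) := dd m k with hE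
  have hEE : ∀ z, E (E z) = 0 := dd_dd m k
  have hmE : ∀ (f : Module.End K W) z, E (mp f m z) = mp f m (E z) := fun f z => (mp_dd f m k z).symm
  have hDE : ∀ z, E (D z) = mp (x k.succ) m z - D (E z) := fun z => by
    rw [← Dx_dd m (fun i => β i.succ) (fun i => x i.succ) k z]
    abel
  have hD'D : ∀ z, D' z = D z - mp Γ m (E z) := fun z => by
    have e : (fun i : Fin m => x' i.succ) = fun i => x i.succ := funext hxi
    rw [hD', e, Dx_upd m (fun i => β i.succ) (fun i => β' i.succ) (fun i => x i.succ) k (-Γ)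
      (fun i hi => hβi i hi) (by rw [hβk, sub_eq_add_neg]) z, mp_map_neg, sub_eq_add_neg]
  have hGD : ∀ z, mp G m (D z) = D (mp G m z) := mp_Dx_comm G m _ _ hGx hGβ
  have hDp : ∀ a b, Dx (m + 1) β x (pr a b) = pr (D a + mp (β 0) m b) (mp (x 0) m a - D b) :=
    fun a b => rfl
  have hDp' : ∀ a b, Dx (m + 1) β' x' (pr a b) =
      pr (D' a + mp (β' 0) m b) (mp (x' 0) m a - D' b) := fun a b => rfl
  -- the maps
  let Ψ : Module.End K (Lx W (m + 1)) :=
    ((((LinearMap.fst K (Lx W m) (Lx W m)) -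
        ((mp G m).comp E).comp (LinearMap.snd K (Lx W m) (Lx W m))).prod
      ((LinearMap.snd K (Lx W m) (Lx W m)) +
        (c • E).comp (LinearMap.fst K (Lx W m) (Lx W m))) :
        (Lx W m × Lx W m) →ₗ[K] (Lx W m × Lx W m)))
  let Φ : Module.End K (Lx W (m + 1)) :=
    ((((LinearMap.fst K (Lx W m) (Lx W m)) +
        ((mp G m).comp E).comp (LinearMap.snd K (Lx W m) (Lx W m))).prod
      ((LinearMap.snd K (Lx W m) (Lx W m)) -
        (c • E).comp (LinearMap.fst K (Lx W m) (Lx W m))) :
        (Lx W m × Lx W m) →ₗ[K] (Lx W m × Lx W m)))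
  have hΨ : ∀ a b, Ψ (pr a b) = pr (a - mp G m (E b)) (b + c • E a) := fun a b => rfl
  have hΦ : ∀ a b, Φ (pr a b) = pr (a + mp G m (E b)) (b - c • E a) := fun a b => rfl
  have hGE0 : ∀ z, E (mp G m (E z)) = 0 := fun z => by rw [hmE, hEE, map_zero]
  refine ⟨Ψ, Φ, fun z => ?_, fun z => ?_, fun r z => ?_, fun μ z => ?_, fun z => ?_⟩
  · obtain ⟨a, b, rfl⟩ := exists_pr z
    rw [hΨ, hΦ, pr_inj]
    constructor
    · rw [map_add, map_smul, hEE, smul_zero, add_zero]; abel
    · rw [map_sub, hGE0, sub_zero]; abel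
  · obtain ⟨a, b, rfl⟩ := exists_pr z
    rw [hΦ, hΨ, pr_inj]
    constructor
    · rw [map_sub, map_smul, hEE, smul_zero, sub_zero]; abel
    · rw [map_add, hGE0, add_zero]; abel
  · obtain ⟨a, b, rfl⟩ := exists_pr z
    rw [pr_smul, hΦ, hΦ, pr_smul, pr_inj]
    constructor
    · rw [hE, dd_smul, mp_smul G r (hGR r), smul_add]
    · rw [hE, dd_smul, smul_sub, hcR]
  · obtain ⟨a, b, rfl⟩ := exists_pr z
    rw [hΨ, PL_pr, PL_pr, hΨ, pr_inj]
    have e1 : ∀ μ z, E (PL P δ m μ z) = PL P δ m (μ - δ) (E z) := PL_dd P δ m k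
    have e2 : ∀ μ z, mp G m (PL P δ m μ z) = PL P δ m (μ + 2 * δ) (mp G m z) := fun μ z =>
      mp_PL G P P δ (2 * δ) (fun a w => LinearMap.congr_fun (hGP a) w) m μ z
    have e3 : μ - δ - δ + 2 * δ = μ := by ring
    constructor
    · rw [map_sub, e1, e2, e3]
    · rw [map_add, map_smul, e1]
  · obtain ⟨a, b, rfl⟩ := exists_pr z
    rw [hDp, hΨ, hΨ, hDp', pr_inj]
    constructor
    · -- first component
      have k1 : mp (β' 0) m b = mp (β 0) m b + mp G m (mp (x k.succ) m b) := by
        rw [hβ0, mp_map_add, mp_mul]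
      have k2 : mp (β' 0) m (c • E a) = mp Γ m (E a) - mp G m (mp (x 0) m (E a)) := by
        rw [← mp_mul, h4, mp_map_sub, mp_map_smul, map_smul]
        abel
      rw [map_sub, hmE, hDE, map_sub, map_sub, map_sub, map_add, k1, k2, hD'D, hD'D, hGE0,
        map_zero, sub_zero, hGD]
      abel
    · have k3 : mp (x' 0) m (mp G m (E b)) = mp Γ m (E b) - c • mp (β 0) m (E b) := by
        rw [← mp_mul, h5, mp_map_sub, mp_map_smul]
      have k4 : mp (x' 0) m a = mp (x 0) m a + c • mp (x k.succ) m a := by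
        rw [hx0, mp_map_add, mp_map_smul]
      rw [map_add, hmE, hDE, map_sub, k3, k4, map_add, hD'D, hD'D, map_smul, map_smul, hEE,
        smul_zero, map_zero, sub_zero, smul_add, smul_sub]
      abel

end tw

end Pool.Agent.J6H62.AB
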