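import Mathlib

set_option autoImplicit false

/-!
Iterated doubling complexes: the type `Lx W m` has `2 ^ m` copies of `W`; `Dx` is the
square-zero operator built from two families of commuting operators.
-/

namespace Pool.Agent.J6H62.AB

/-- Iterated doubling of a type. -/
def Lx (W : Type) : ℕ → Type
  | 0 => W
  | (m + 1) => Lx W m × Lx W m

instance lxAdd (W : Type) [AddCommGroup W] : ∀ m, AddCommGroup (Lx W m)
  | 0 => inferInstanceAs (AddCommGroup W)
  | (m + 1) =>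
    letI := lxAdd W m
    inferInstanceAs (AddCommGroup (Lx W m × Lx W m))

instance lxMod (R W : Type) [CommRing R] [AddCommGroup W] [Module R W] :
    ∀ m, Module R (Lx W m)
  | 0 => inferInstanceAs (Module R W)
  | (m + 1) =>
    letI := lxMod R W m
    inferInstanceAs (Module R (Lx W m × Lx W m))

instance lxFin (R W : Type) [CommRing R] [AddCommGroup W] [Module R W] [Module.Finite R W] :
    ∀ m, Module.Finite R (Lx W m)
  | 0 => inferInstanceAs (Module.Finite R W)
  | (m + 1) =>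
    letI := lxFin R W m
    inferInstanceAs (Module.Finite R (Lx W m × Lx W m))

/-- The pair. -/
def pr {W : Type} {m : ℕ} (a b : Lx W m) : Lx W (m + 1) := (a, b)

theorem exists_pr {W : Type} {m : ℕ} (z : Lx W (m + 1)) : ∃ a b, z = pr a b := ⟨z.1, z.2, rfl⟩

theorem pr_inj {W : Type} {m : ℕ} {a b c d : Lx W m} : pr a b = pr c d ↔ a = c ∧ b = d :=
  Prod.mk_inj

section
variable {W : Type} [AddCommGroup W] {m : ℕ}

theorem pr_add (a b c d : Lx W m) : pr a b + pr c d = pr (a + c) (b + d) := rfl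
theorem pr_sub (a b c d : Lx W m) : pr a b - pr c d = pr (a - c) (b - d) := rfl
theorem pr_neg (a b : Lx W m) : -pr a b = pr (-a) (-b) := rfl
theorem pr_zero : (0 : Lx W (m + 1)) = pr 0 0 := rfl
theorem pr_smul {R : Type} [CommRing R] [Module R W] (r : R) (a b : Lx W m) :
    r • pr a b = pr (r • a) (r • b) := rfl

end

section
variable {K : Type} [Field K] {W W' W'' : Type} [AddCommGroup W] [Module K W]
  [AddCommGroup W'] [Module K W'] [AddCommGroup W''] [Module K W'']

/-- Componentwise map. -/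
def mp (φ : W →ₗ[K] W') : ∀ m, Lx W m →ₗ[K] Lx W' m
  | 0 => φ
  | (m + 1) => LinearMap.prodMap (mp φ m) (mp φ m)

theorem mp_zero' (φ : W →ₗ[K] W') (z : Lx W 0) : mp φ 0 z = φ z := rfl
theorem mp_pr (φ : W →ₗ[K] W') (m : ℕ) (a b : Lx W m) :
    mp φ (m + 1) (pr a b) = pr (mp φ m a) (mp φ m b) := rfl

theorem mp_mp (φ : W' →ₗ[K] W'') (ψ : W →ₗ[K] W') (m : ℕ) (z : Lx W m) :
    mp φ m (mp ψ m z) = mp (φ.comp ψ) m z := by
  induction m with
  | zero => rfl
  | succ m ih =>
    obtain ⟨a, b, rfl⟩ := exists_pr z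
    simp only [mp_pr, ih]

theorem mp_id (m : ℕ) (z : Lx W m) : mp (LinearMap.id : W →ₗ[K] W) m z = z := by
  induction m with
  | zero => rfl
  | succ m ih =>
    obtain ⟨a, b, rfl⟩ := exists_pr z
    simp only [mp_pr, ih]

theorem mp_one (m : ℕ) (z : Lx W m) : mp (1 : Module.End K W) m z = z := mp_id m z

theorem mp_congr {φ ψ : W →ₗ[K] W'} (h : φ = ψ) (m : ℕ) (z : Lx W m) :
    mp φ m z = mp ψ m z := by rw [h]

theorem mp_map_add (φ ψ : W →ₗ[K] W') (m : ℕ) (z : Lx W m) :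
    mp (φ + ψ) m z = mp φ m z + mp ψ m z := by
  induction m with
  | zero => rfl
  | succ m ih =>
    obtain ⟨a, b, rfl⟩ := exists_pr z
    simp only [mp_pr, ih, pr_add]

theorem mp_map_sub (φ ψ : W →ₗ[K] W') (m : ℕ) (z : Lx W m) :
    mp (φ - ψ) m z = mp φ m z - mp ψ m z := by
  induction m with
  | zero => rfl
  | succ m ih =>
    obtain ⟨a, b, rfl⟩ := exists_pr z
    simp only [mp_pr, ih, pr_sub]

theorem mp_map_smul (c : K) (ψ : W →ₗ[K] W') (m : ℕ) (z : Lx W m) :
    mp (c • ψ) m z = c • mp ψ m z := by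
  induction m with
  | zero => rfl
  | succ m ih =>
    obtain ⟨a, b, rfl⟩ := exists_pr z
    simp only [mp_pr, ih, pr_smul]

theorem mp_map_zero (m : ℕ) (z : Lx W m) :
    mp (0 : W →ₗ[K] W') m z = 0 := by
  induction m with
  | zero => rfl
  | succ m ih =>
    obtain ⟨a, b, rfl⟩ := exists_pr z
    simp only [mp_pr, ih, pr_zero]

theorem mp_map_neg (ψ : W →ₗ[K] W') (m : ℕ) (z : Lx W m) :
    mp (-ψ) m z = - mp ψ m z := by
  have := mp_map_sub 0 ψ m z
  rw [mp_map_zero, zero_sub, zero_sub] at this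
  exact this

theorem mp_mul (φ ψ : Module.End K W) (m : ℕ) (z : Lx W m) :
    mp (φ * ψ) m z = mp φ m (mp ψ m z) := (mp_mp φ ψ m z).symm

theorem mp_comm {φ ψ : Module.End K W} (h : Commute φ ψ) (m : ℕ) (z : Lx W m) :
    mp φ m (mp ψ m z) = mp ψ m (mp φ m z) := by
  rw [← mp_mul, ← mp_mul, h.eq]

theorem mp_exact {φ : W →ₗ[K] W'} {ψ : W' →ₗ[K] W''}
    (h : ∀ w, ψ w = 0 → ∃ v, φ v = w) (m : ℕ) (z : Lx W' m) (hz : mp ψ m z = 0) :
    ∃ y, mp φ m y = z := by
  induction m with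
  | zero => exact h z hz
  | succ m ih =>
    obtain ⟨a, b, rfl⟩ := exists_pr z
    rw [mp_pr, pr_zero, pr_inj] at hz
    obtain ⟨a', ha'⟩ := ih a hz.1
    obtain ⟨b', hb'⟩ := ih b hz.2
    exact ⟨pr a' b', by rw [mp_pr, ha', hb']⟩

theorem mp_div {W₁ : Type} [AddCommGroup W₁] [Module K W₁]
    {φ : W →ₗ[K] W'} {ψ : W₁ →ₗ[K] W'}
    (h : ∀ w, ∃ v, φ w = ψ v) (m : ℕ) (z : Lx W m) :
    ∃ y, mp φ m z = mp ψ m y := by
  induction m with
  | zero => exact h z
  | succ m ih =>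
    obtain ⟨a, b, rfl⟩ := exists_pr z
    obtain ⟨a', ha'⟩ := ih a
    obtain ⟨b', hb'⟩ := ih b
    exact ⟨pr a' b', by rw [mp_pr, mp_pr, ha', hb']⟩

theorem mp_surj {φ : W →ₗ[K] W'} (h : Function.Surjective φ) (m : ℕ) :
    Function.Surjective (mp φ m) := by
  intro z
  obtain ⟨y, hy⟩ := mp_div (φ := (LinearMap.id : W' →ₗ[K] W')) (ψ := φ)
    (fun w => by obtain ⟨v, hv⟩ := h w; exact ⟨v, hv.symm⟩) m z
  exact ⟨y, by rw [← hy, mp_id]⟩

theorem mp_inj {φ : W →ₗ[K] W'} (h : Function.Injective φ) (m : ℕ) :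
    Function.Injective (mp φ m) := by
  rw [← LinearMap.ker_eq_bot, LinearMap.ker_eq_bot']
  intro z hz
  obtain ⟨y, hy⟩ := mp_exact (φ := (0 : W →ₗ[K] W)) (ψ := φ)
    (fun w hw => ⟨0, by rw [LinearMap.zero_apply]; exact (h (by rw [hw, map_zero])).symm⟩) m z hz
  rw [← hy, mp_map_zero]

theorem mp_smul {R : Type} [CommRing R] [Module R W] [Module R W'] (φ : W →ₗ[K] W') (r : R)
    (h : ∀ w, φ (r • w) = r • φ w) (m : ℕ) (z : Lx W m) :
    mp φ m (r • z) = r • mp φ m z := by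
  induction m with
  | zero => exact h z
  | succ m ih =>
    obtain ⟨a, b, rfl⟩ := exists_pr z
    simp only [mp_pr, pr_smul, ih]

/-- If `φ` acts as `r •`, so does `mp φ`. -/
theorem mp_eq_smul {R : Type} [CommRing R] [Module R W] (φ : W →ₗ[K] W) (r : R)
    (h : ∀ w, φ w = r • w) (m : ℕ) (z : Lx W m) :
    mp φ m z = r • z := by
  induction m with
  | zero => exact h z
  | succ m ih =>
    obtain ⟨a, b, rfl⟩ := exists_pr z
    simp only [mp_pr, pr_smul, ih]

/-- The square-zero operator. -/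
def Dx : ∀ (m : ℕ), (Fin m → Module.End K W) → (Fin m → Module.End K W) →
    Module.End K (Lx W m)
  | 0, _, _ => 0
  | (m + 1), β, x =>
     (((Dx m (fun i => β i.succ) (fun i => x i.succ)).comp
          (LinearMap.fst K (Lx W m) (Lx W m)) +
        (mp (β 0) m).comp (LinearMap.snd K (Lx W m) (Lx W m))).prod
      ((mp (x 0) m).comp (LinearMap.fst K (Lx W m) (Lx W m)) -
        (Dx m (fun i => β i.succ) (fun i => x i.succ)).comp
          (LinearMap.snd K (Lx W m) (Lx W m))) :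
        (Lx W m × Lx W m) →ₗ[K] (Lx W m × Lx W m))

theorem Dx_zero' (β x : Fin 0 → Module.End K W) (z : Lx W 0) : Dx 0 β x z = 0 := rfl

theorem Dx_pr (m : ℕ) (β x : Fin (m + 1) → Module.End K W) (a b : Lx W m) :
    Dx (m + 1) β x (pr a b) =
      pr (Dx m (fun i => β i.succ) (fun i => x i.succ) a + mp (β 0) m b)
        (mp (x 0) m a - Dx m (fun i => β i.succ) (fun i => x i.succ) b) := rfl

theorem mp_Dx (φ : W →ₗ[K] W') (m : ℕ) (β x : Fin m → Module.End K W)
    (β' x' : Fin m → Module.End K W')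
    (hx : ∀ i w, φ (x i w) = x' i (φ w)) (hβ : ∀ i w, φ (β i w) = β' i (φ w)) (z : Lx W m) :
    mp φ m (Dx m β x z) = Dx m β' x' (mp φ m z) := by
  induction m with
  | zero => exact map_zero _
  | succ m ih =>
    obtain ⟨a, b, rfl⟩ := exists_pr z
    have h1 : φ.comp (x 0) = (x' 0).comp φ := LinearMap.ext (hx 0)
    have h2 : φ.comp (β 0) = (β' 0).comp φ := LinearMap.ext (hβ 0)
    have ih' := ih (fun i => β i.succ) (fun i => x i.succ) (fun i => β' i.succ)
      (fun i => x' i.succ) (fun i => hx i.succ) (fun i => hβ i.succ)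
    simp only [Dx_pr, mp_pr, map_add, map_sub, mp_mp, h1, h2, ih']

theorem mp_Dx_comm (φ : Module.End K W) (m : ℕ) (β x : Fin m → Module.End K W)
    (hx : ∀ i, Commute φ (x i)) (hβ : ∀ i, Commute φ (β i)) (z : Lx W m) :
    mp φ m (Dx m β x z) = Dx m β x (mp φ m z) :=
  mp_Dx φ m β x β x (fun i w => LinearMap.congr_fun (hx i).eq w)
    (fun i w => LinearMap.congr_fun (hβ i).eq w) z

theorem Dx_Dx (m : ℕ) (β x : Fin m → Module.End K W)
    (hxx : ∀ i j, Commute (x i) (x j)) (hxβ : ∀ i j, Commute (x i) (β j))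
    (hββ : ∀ i j, Commute (β i) (β j)) (h0 : ∀ i, x i * β i = 0) (z : Lx W m) :
    Dx m β x (Dx m β x z) = 0 := by
  induction m with
  | zero => rfl
  | succ m ih =>
    obtain ⟨a, b, rfl⟩ := exists_pr z
    have ih' := ih (fun i => β i.succ) (fun i => x i.succ) (fun i j => hxx _ _)
      (fun i j => hxβ _ _) (fun i j => hββ _ _) (fun i => h0 _)
    have e1 := mp_Dx_comm (β 0) m (fun i => β i.succ) (fun i => x i.succ)
      (fun i => (hxβ _ _).symm) (fun i => hββ _ _)
    have e2 := mp_Dx_comm (x 0) m (fun i => β i.succ) (fun i => x i.succ)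
      (fun i => hxx _ _) (fun i => hxβ _ _)
    have e3 : ∀ z, mp (x 0) m (mp (β 0) m z) = 0 := fun z => by
      rw [← mp_mul, h0, mp_map_zero]
    have e4 : ∀ z, mp (β 0) m (mp (x 0) m z) = 0 := fun z => by
      rw [← mp_mul, ← (hxβ 0 0).eq, h0, mp_map_zero]
    simp only [Dx_pr, map_add, map_sub, ih', e1, e2, e3, e4, pr_zero, pr_inj]
    constructor <;> abel

theorem Dx_smul {R : Type} [CommRing R] [Module R W] (r : R)
    (m : ℕ) (β x : Fin m → Module.End K W)
    (hx : ∀ i w, x i (r • w) = r • x i w) (hβ : ∀ i w, β i (r • w) = r • β i w) (z : Lx W m) :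
    Dx m β x (r • z) = r • Dx m β x z := by
  induction m with
  | zero => exact (smul_zero r).symm
  | succ m ih =>
    obtain ⟨a, b, rfl⟩ := exists_pr z
    have ih' := ih (fun i => β i.succ) (fun i => x i.succ) (fun i => hx _) (fun i => hβ _)
    simp only [Dx_pr, pr_smul, ih', mp_smul _ r (hx 0), mp_smul _ r (hβ 0), smul_add, smul_sub]

/-- Projections of the complex, from projections of `W`. -/
def PL (P : ℤ → Module.End K W) (δ : ℤ) : ∀ (m : ℕ), ℤ → Module.End K (Lx W m)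
  | 0, μ => P μ
  | (m + 1), μ => LinearMap.prodMap (PL P δ m μ) (PL P δ m (μ - δ))

theorem PL_pr (P : ℤ → Module.End K W) (δ : ℤ) (m : ℕ) (μ : ℤ) (a b : Lx W m) :
    PL P δ (m + 1) μ (pr a b) = pr (PL P δ m μ a) (PL P δ m (μ - δ) b) := rfl

theorem PL_idem (P : ℤ → Module.End K W) (δ : ℤ) (h : ∀ a, P a * P a = P a) (m : ℕ) (μ : ℤ)
    (z : Lx W m) : PL P δ m μ (PL P δ m μ z) = PL P δ m μ z := by
  induction m generalizing μ with
  | zero => exact LinearMap.congr_fun (h μ) z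
  | succ m ih =>
    obtain ⟨a, b, rfl⟩ := exists_pr z
    simp only [PL_pr, ih]

theorem PL_orth (P : ℤ → Module.End K W) (δ : ℤ) (h : ∀ a b, a ≠ b → P a * P b = 0) (m : ℕ)
    (μ ν : ℤ) (hμ : μ ≠ ν) (z : Lx W m) : PL P δ m μ (PL P δ m ν z) = 0 := by
  induction m generalizing μ ν with
  | zero => exact LinearMap.congr_fun (h μ ν hμ) z
  | succ m ih =>
    obtain ⟨a, b, rfl⟩ := exists_pr z
    simp only [PL_pr, ih μ ν hμ, ih (μ - δ) (ν - δ) (by omega), pr_zero]

theorem mp_PL (φ : W →ₗ[K] W') (P : ℤ → Module.End K W) (P' : ℤ → Module.End K W') (δ κ : ℤ)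
    (h : ∀ a w, φ (P a w) = P' (a + κ) (φ w)) (m : ℕ) (μ : ℤ) (z : Lx W m) :
    mp φ m (PL P δ m μ z) = PL P' δ m (μ + κ) (mp φ m z) := by
  induction m generalizing μ with
  | zero => exact h μ z
  | succ m ih =>
    obtain ⟨a, b, rfl⟩ := exists_pr z
    have e : μ - δ + κ = μ + κ - δ := by ring
    simp only [PL_pr, mp_pr, ih, e]

theorem Dx_PL (P : ℤ → Module.End K W) (δ γ : ℤ) (m : ℕ) (β x : Fin m → Module.End K W)
    (hx : ∀ i a w, x i (P a w) = P (a + γ - δ) (x i w))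
    (hβ : ∀ i a w, β i (P a w) = P (a + γ + δ) (β i w)) (μ : ℤ) (z : Lx W m) :
    Dx m β x (PL P δ m μ z) = PL P δ m (μ + γ) (Dx m β x z) := by
  induction m generalizing μ with
  | zero => rw [Dx_zero', Dx_zero', map_zero]
  | succ m ih =>
    obtain ⟨a, b, rfl⟩ := exists_pr z
    have ih' := ih (fun i => β i.succ) (fun i => x i.succ) (fun i => hx _) (fun i => hβ _)
    have e1 := mp_PL (x 0) P P δ (γ - δ) (fun a w => by rw [hx]; ring_nf) m
    have e2 := mp_PL (β 0) P P δ (γ + δ) (fun a w => by rw [hβ]; ring_nf) m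
    have e3 : ∀ μ : ℤ, μ - δ + (γ + δ) = μ + γ := fun μ => by ring
    have e4 : ∀ μ : ℤ, μ - δ + γ = μ + γ - δ := fun μ => by ring
    have e5 : ∀ μ : ℤ, μ + (γ - δ) = μ + γ - δ := fun μ => by ring
    simp only [PL_pr, Dx_pr, ih', e1, e2, e3, e4, e5, map_add, map_sub]

theorem PL_PL (P Q : ℤ → Module.End K W) (δ ε : ℤ) (h : ∀ a b, Commute (P a) (Q b)) (m : ℕ)
    (μ ν : ℤ) (z : Lx W m) :
    PL P δ m μ (PL Q ε m ν z) = PL Q ε m ν (PL P δ m μ z) := by
  induction m generalizing μ ν with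
  | zero => exact LinearMap.congr_fun (h μ ν).eq z
  | succ m ih =>
    obtain ⟨a, b, rfl⟩ := exists_pr z
    simp only [PL_pr, ih]

/-- Contraction operators. -/
def dd : ∀ (m : ℕ), Fin m → Module.End K (Lx W m)
  | 0, _ => 0
  | (m + 1), k =>
    Fin.cases (motive := fun _ => Module.End K (Lx W (m + 1)))
      (((LinearMap.snd K (Lx W m) (Lx W m)).prod 0 :
        (Lx W m × Lx W m) →ₗ[K] (Lx W m × Lx W m)))
      (fun j => (LinearMap.prodMap (dd m j) (-(dd m j)) :
        (Lx W m × Lx W m) →ₗ[K] (Lx W m × Lx W m))) k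

theorem dd_zero_pr (m : ℕ) (a b : Lx W m) : dd (K := K) (m + 1) 0 (pr a b) = pr b 0 := rfl
theorem dd_succ_pr (m : ℕ) (j : Fin m) (a b : Lx W m) :
    dd (K := K) (m + 1) j.succ (pr a b) = pr (dd (K := K) m j a) (-(dd (K := K) m j b)) := rfl

theorem dd_dd (m : ℕ) (k : Fin m) (z : Lx W m) : dd (K := K) m k (dd (K := K) m k z) = 0 := by
  induction m with
  | zero => exact k.elim0
  | succ m ih =>
    obtain ⟨a, b, rfl⟩ := exists_pr z
    refine Fin.cases ?_ (fun j => ?_) k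
    · rw [dd_zero_pr, dd_zero_pr, pr_zero]
    · rw [dd_succ_pr, dd_succ_pr, ih, map_neg, ih, neg_zero, neg_zero, pr_zero]

theorem mp_dd (φ : W →ₗ[K] W') (m : ℕ) (k : Fin m) (z : Lx W m) :
    mp φ m (dd (K := K) m k z) = dd (K := K) m k (mp φ m z) := by
  induction m with
  | zero => exact k.elim0
  | succ m ih =>
    obtain ⟨a, b, rfl⟩ := exists_pr z
    refine Fin.cases ?_ (fun j => ?_) k
    · rw [dd_zero_pr, mp_pr, mp_pr, dd_zero_pr, map_zero]
    · rw [dd_succ_pr, mp_pr, mp_pr, dd_succ_pr, ih, map_neg, ih]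

theorem Dx_dd (m : ℕ) (β x : Fin m → Module.End K W) (k : Fin m) (z : Lx W m) :
    Dx m β x (dd (K := K) m k z) + dd (K := K) m k (Dx m β x z) = mp (x k) m z := by
  induction m with
  | zero => exact k.elim0
  | succ m ih =>
    obtain ⟨a, b, rfl⟩ := exists_pr z
    refine Fin.cases ?_ (fun j => ?_) k
    · rw [dd_zero_pr, Dx_pr, Dx_pr, dd_zero_pr, mp_pr, pr_add, pr_inj]
      simp only [map_zero]
      constructor <;> abel
    · have ih' := ih (fun i => β i.succ) (fun i => x i.succ) j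
      have e1 := ih' a
      have e2 := ih' b
      rw [dd_succ_pr, Dx_pr, Dx_pr, dd_succ_pr, mp_pr, pr_add, pr_inj]
      simp only [map_add, map_sub, map_neg, mp_dd, ← e1, ← e2]
      constructor <;> abel

theorem Dx_upd (m : ℕ) (β β' x : Fin m → Module.End K W) (k : Fin m) (γ : Module.End K W)
    (h1 : ∀ i, i ≠ k → β' i = β i) (h2 : β' k = β k + γ) (z : Lx W m) :
    Dx m β' x z = Dx m β x z + mp γ m (dd (K := K) m k z) := by
  induction m with
  | zero => exact k.elim0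
  | succ m ih =>
    obtain ⟨a, b, rfl⟩ := exists_pr z
    revert h1 h2
    refine Fin.cases (fun h1 h2 => ?_) (fun j h1 h2 => ?_) k
    · have e : (fun i : Fin m => β' i.succ) = fun i => β i.succ :=
        funext fun i => h1 _ (Fin.succ_ne_zero i)
      rw [dd_zero_pr, Dx_pr, Dx_pr, mp_pr, pr_add, pr_inj, e, h2, mp_map_add, map_zero]
      constructor <;> abel
    · have ih' := ih (fun i => β i.succ) (fun i => β' i.succ) (fun i => x i.succ) j
        (fun i hi => h1 _ (fun h => hi (Fin.succ_injective _ h))) h2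
      rw [dd_succ_pr, Dx_pr, Dx_pr, mp_pr, pr_add, pr_inj, h1 0 (Fin.succ_ne_zero j).symm]
      simp only [ih', map_neg]
      constructor <;> abel

theorem PL_dd (P : ℤ → Module.End K W) (δ : ℤ) (m : ℕ) (k : Fin m) (μ : ℤ) (z : Lx W m) :
    dd (K := K) m k (PL P δ m μ z) = PL P δ m (μ - δ) (dd (K := K) m k z) := by
  induction m generalizing μ with
  | zero => exact k.elim0
  | succ m ih =>
    obtain ⟨a, b, rfl⟩ := exists_pr z
    refine Fin.cases ?_ (fun j => ?_) k
    · rw [dd_zero_pr, PL_pr, dd_zero_pr, PL_pr, map_zero]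
    · rw [dd_succ_pr, PL_pr, dd_succ_pr, PL_pr, ih, ih, map_neg]

/-- Constants. -/
def cst : ∀ (m : ℕ), W →ₗ[K] Lx W m
  | 0 => (LinearMap.id : W →ₗ[K] W)
  | (m + 1) => ((cst m).prod 0 : W →ₗ[K] (Lx W m × Lx W m))

/-- Bottom component. -/
def bot : ∀ (m : ℕ), Lx W m →ₗ[K] W
  | 0 => (LinearMap.id : W →ₗ[K] W)
  | (m + 1) => ((bot m).comp (LinearMap.fst K (Lx W m) (Lx W m)) :
      (Lx W m × Lx W m) →ₗ[K] W)

theorem cst_succ (m : ℕ) (w : W) : cst (K := K) (m + 1) w = pr (cst (K := K) m w) 0 := rfl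
theorem cst_zero' (w : W) : cst (K := K) 0 w = w := rfl
theorem bot_pr (m : ℕ) (a b : Lx W m) : bot (K := K) (m + 1) (pr a b) = bot (K := K) m a := rfl
theorem bot_zero' (w : Lx W 0) : bot (K := K) 0 w = w := rfl

theorem bot_cst (m : ℕ) (w : W) : bot (K := K) m (cst (K := K) m w) = w := by
  induction m with
  | zero => rfl
  | succ m ih => rw [cst_succ, bot_pr, ih]

theorem mp_cst (φ : W →ₗ[K] W') (m : ℕ) (w : W) :
    mp φ m (cst (K := K) m w) = cst (K := K) m (φ w) := by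
  induction m with
  | zero => rfl
  | succ m ih => rw [cst_succ, mp_pr, ih, map_zero, cst_succ]

theorem mp_bot (φ : W →ₗ[K] W') (m : ℕ) (z : Lx W m) :
    bot (K := K) m (mp φ m z) = φ (bot (K := K) m z) := by
  induction m with
  | zero => rfl
  | succ m ih =>
    obtain ⟨a, b, rfl⟩ := exists_pr z
    rw [mp_pr, bot_pr, bot_pr, ih]

theorem PL_cst (P : ℤ → Module.End K W) (δ : ℤ) (m : ℕ) (μ : ℤ) (w : W) :
    PL P δ m μ (cst (K := K) m w) = cst (K := K) m (P μ w) := by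
  induction m generalizing μ with
  | zero => rfl
  | succ m ih => rw [cst_succ, PL_pr, ih, map_zero, cst_succ]

theorem Dx_cst (m : ℕ) (β x : Fin m → Module.End K W) (w : W) (h : ∀ i, x i w = 0) :
    Dx m β x (cst (K := K) m w) = 0 := by
  induction m with
  | zero => rfl
  | succ m ih =>
    rw [cst_succ, Dx_pr, ih _ _ (fun i => h _), map_zero, map_zero, mp_cst, h 0, map_zero,
      pr_zero, add_zero, sub_zero]

/-- For `β = 0` the bottom component of `D z` vanishes. -/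
theorem bot_Dx (m : ℕ) (x : Fin m → Module.End K W) (z : Lx W m) :
    bot (K := K) m (Dx m (fun _ => 0) x z) = 0 := by
  induction m with
  | zero => rfl
  | succ m ih =>
    obtain ⟨a, b, rfl⟩ := exists_pr z
    rw [Dx_pr, bot_pr, mp_map_zero, add_zero, ih]

theorem Dx_ker_bot (m : ℕ) (x : Fin m → Module.End K W) (z : Lx W m)
    (h : Dx m (fun _ => 0) x z = 0) (i : Fin m) : x i (bot (K := K) m z) = 0 := by
  induction m with
  | zero => exact i.elim0
  | succ m ih =>
    obtain ⟨a, b, rfl⟩ := exists_pr z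
    rw [Dx_pr, pr_zero, pr_inj, mp_map_zero, add_zero] at h
    rw [bot_pr]
    refine Fin.cases ?_ (fun j => ih (fun i => x i.succ) a h.1 j) i
    have := congrArg (bot (K := K) m) h.2
    rw [map_sub, bot_Dx, sub_zero, mp_bot, map_zero] at this
    exact this

end

end Pool.Agent.J6H62.AB
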