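import Pool.Agent.J6H62.AB.Top

set_option autoImplicit false

/-!
Generic coordinates, the coefficient map, and the change of basis.
-/

namespace Pool.Agent.J6H62.AB

open MvPolynomial Module

section gen
variable {K : Type} [Field K]

theorem exists_gen [Infinite K] {ι : Type} (J : Finset ι) (n : ℕ) :
    ∀ (V : Type) [AddCommGroup V] [Module K V] [FiniteDimensional K V] (e : ι → V),
      finrank K V = n → ∃ φ : V ≃ₗ[K] (Fin n → K), Gen n (fun j => φ (e j)) J := by
  classical
  induction n with
  | zero =>
    intro V _ _ _ e hn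
    exact ⟨LinearEquiv.ofFinrankEq V (Fin 0 → K) (by rw [hn, finrank_fin_fun]), trivial⟩
  | succ n ih =>
    intro V _ _ _ e hn
    have htop : (⊥ : Submodule K V) ≠ ⊤ := by
      intro h
      have h1 : finrank K (⊥ : Submodule K V) = finrank K (⊤ : Submodule K V) := by rw [h]
      rw [finrank_bot, finrank_top, hn] at h1
      omega
    set S : Finset (Submodule K V) :=
      (J.powerset.image (fun I : Finset ι => Submodule.span K (e '' (I : Set ι)))).filter
        (fun p => p ≠ ⊤) with hS
    have hnot : (⊤ : Submodule K V) ∉ S := fun h => (Finset.mem_filter.1 h).2 rfl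
    have hne := Subspace.biUnion_ne_univ_of_top_notMem hnot
    obtain ⟨v, hv⟩ := (Set.ne_univ_iff_exists_notMem _).1 hne
    have hv' : ∀ I : Finset ι, I ⊆ J → Submodule.span K (e '' (I : Set ι)) ≠ ⊤ →
        v ∉ Submodule.span K (e '' (I : Set ι)) := by
      intro I hI hI' hmem
      apply hv
      refine Set.mem_biUnion (x := Submodule.span K (e '' (I : Set ι))) ?_ hmem
      exact Finset.mem_coe.2 (Finset.mem_filter.2
        ⟨Finset.mem_image.2 ⟨I, Finset.mem_powerset.2 hI, rfl⟩, hI'⟩)
    have hv0 : v ≠ 0 := by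
      intro h
      have h1 := hv' ∅ (Finset.empty_subset J) (by
        rw [Finset.coe_empty, Set.image_empty, Submodule.span_empty]
        exact htop)
      apply h1
      rw [h]
      exact zero_mem _
    obtain ⟨f0, hf0⟩ := Module.Projective.exists_dual_ne_zero K hv0
    set f : V →ₗ[K] K := (f0 v)⁻¹ • f0 with hf
    have hfv : f v = 1 := by
      rw [hf, LinearMap.smul_apply, smul_eq_mul, inv_mul_cancel₀ hf0]
    set Q := V ⧸ (Submodule.span K {v}) with hQ
    have hQn : finrank K Q = n := by
      have h1 := Submodule.finrank_quotient_add_finrank (Submodule.span K {v})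
      rw [finrank_span_singleton hv0, hn] at h1
      exact Nat.succ_injective h1
    obtain ⟨φ', hφ'⟩ := ih Q (fun j => (Submodule.span K {v}).mkQ (e j)) hQn
    let Φ : V →ₗ[K] (Fin (n + 1) → K) := LinearMap.pi fun i =>
      Fin.cases (motive := fun _ => V →ₗ[K] K) f
        (fun i => (LinearMap.proj i).comp (φ'.toLinearMap.comp (Submodule.span K {v}).mkQ)) i
    have hΦ0 : ∀ u, Φ u 0 = f u := fun u => rfl
    have hΦs : ∀ u (i : Fin n), Φ u i.succ = φ' ((Submodule.span K {v}).mkQ u) i :=
      fun u i => rfl
    have hinj : Function.Injective Φ := by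
      rw [← LinearMap.ker_eq_bot, LinearMap.ker_eq_bot']
      intro u hu
      have h1 : φ' ((Submodule.span K {v}).mkQ u) = 0 := by
        funext i
        rw [← hΦs, hu]
        rfl
      rw [LinearEquiv.map_eq_zero_iff, ← LinearMap.mem_ker, Submodule.ker_mkQ,
        Submodule.mem_span_singleton] at h1
      obtain ⟨a, rfl⟩ := h1
      have h2 := hΦ0 (a • v)
      rw [hu, map_smul, hfv, smul_eq_mul, mul_one] at h2
      rw [← h2]
      exact zero_smul _ _
    have hdim : finrank K V = finrank K (Fin (n + 1) → K) := by rw [hn, finrank_fin_fun]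
    refine ⟨Φ.linearEquivOfInjective hinj hdim, ?_, ?_⟩
    · intro I hI hI' hmem
      have himg : (fun j => (Φ.linearEquivOfInjective hinj hdim) (e j)) '' (I : Set ι) =
          Φ '' (e '' (I : Set ι)) := by
        rw [Set.image_image]
        rfl
      rw [himg, Submodule.span_image] at hI' hmem
      have hΦv : Φ v = Pi.single 0 1 := by
        funext i
        refine Fin.cases ?_ (fun i => ?_) i
        · rw [hΦ0, hfv, Pi.single_eq_same]
        · rw [hΦs]
          have : (Submodule.span K {v}).mkQ v = 0 := by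
            rw [← LinearMap.mem_ker, Submodule.ker_mkQ]
            exact Submodule.mem_span_singleton_self v
          rw [this, map_zero, Pi.single_eq_of_ne (Fin.succ_ne_zero i)]
          rfl
      rw [← hΦv] at hmem
      obtain ⟨w, hw, hw'⟩ := hmem
      have : w = v := hinj hw'
      rw [this] at hw
      refine hv' I hI ?_ hw
      intro htop'
      apply hI'
      rw [htop', Submodule.map_top, LinearMap.range_eq_top]
      exact (Φ.linearEquivOfInjective hinj hdim).surjective
    · exact hφ'

end gen

section theta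
variable {K : Type} [Field K] {ι : Type} [DecidableEq ι]

/-- Indicator exponent. -/
noncomputable def ind (s : Finset ι) : ι →₀ ℕ := Finsupp.indicator s (fun _ _ => 1)

theorem ind_apply (s : Finset ι) (j : ι) : ind s j = if j ∈ s then 1 else 0 := by
  rw [ind, Finsupp.indicator_apply]
  split_ifs <;> rfl

/-- Squarefree coefficients. -/
noncomputable def Th : MvPolynomial ι K →ₗ[K] (Finset ι → K) where
  toFun P s := coeff (ind s) P
  map_add' P Q := by funext s; simp
  map_smul' c P := by funext s; simp

theorem Th_apply (P : MvPolynomial ι K) (s : Finset ι) : Th P s = coeff (ind s) P := rfl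

theorem Th_X (j : ι) (P : MvPolynomial ι K) : Th (X j * P) = ta j (Th P) := by
  funext s
  rw [Th_apply, ta_apply, coeff_X_mul']
  have h1 : (j ∈ (ind s).support) ↔ j ∈ s := by
    rw [Finsupp.mem_support_iff, ind_apply]
    split_ifs with h <;> simp [h]
  simp only [h1]
  by_cases h : j ∈ s
  · rw [if_pos h, if_pos h, Th_apply]
    congr 1
    ext k
    rw [Finsupp.coe_tsub, Pi.sub_apply, ind_apply, ind_apply, Finsupp.single_apply]
    by_cases hk : j = k
    · subst hk; simp [h]
    · have hk' : k ≠ j := fun h => hk h.symm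
      simp [hk, hk', Finset.mem_erase]
  · rw [if_neg h, if_neg h]

/-- Linear forms. -/
noncomputable def ell [Fintype ι] {m : ℕ} (e : ι → Fin m → K) (i : Fin m) : MvPolynomial ι K :=
  ∑ j, C (e j i) * X j

theorem Th_ell [Fintype ι] {m : ℕ} (e : ι → Fin m → K) (i : Fin m) (P : MvPolynomial ι K) :
    Th (ell e i * P) = (∑ j, e j i • ta (K := K) j) (Th P) := by
  rw [ell, Finset.sum_mul, map_sum, LinearMap.sum_apply]
  refine Finset.sum_congr rfl fun j _ => ?_
  rw [mul_assoc, ← smul_eq_C_mul, map_smul, Th_X]
  rfl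

theorem Th_ell_pow [Fintype ι] {m : ℕ} (e : ι → Fin m → K) (i : Fin m) (n : ℕ)
    (P : MvPolynomial ι K) :
    Th (ell e i ^ n * P) = ((∑ j, e j i • ta (K := K) j) ^ n) (Th P) := by
  induction n generalizing P with
  | zero => rw [pow_zero, one_mul]; rfl
  | succ n ih =>
    rw [pow_succ, mul_assoc, ih, Th_ell, pow_succ, Module.End.mul_apply]

theorem Th_prod [Fintype ι] (p : ℕ) (m : ℕ) (e : ι → Fin m → K) :
    Th (∏ i, ell e i ^ (p - 1)) = tp p m (fun i => ∑ j, e j i • ta (K := K) j) (Th 1) := by
  induction m with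
  | zero => simp [tp]
  | succ m ih =>
    rw [Fin.prod_univ_succ, Th_ell_pow]
    have h1 := ih (fun j i => e j i.succ)
    rw [tp, Module.End.mul_apply, ← h1]
    rfl

theorem Th_one : Th (K := K) (ι := ι) 1 ≠ 0 := by
  intro h
  have h1 := congrFun h ∅
  rw [Th_apply, Pi.zero_apply] at h1
  have h2 : ind (∅ : Finset ι) = 0 := by
    ext j
    rw [ind_apply]
    simp
  rw [h2, coeff_zero_one] at h1
  exact one_ne_zero h1

theorem Th_one_level : pa (K := K) 0 (Th (ι := ι) 1) = Th 1 := by
  funext s
  rw [pa_apply, Th_apply]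
  split_ifs with h
  · rfl
  · symm
    rw [coeff_one, if_neg]
    intro h0
    apply h
    have : s = ∅ := by
      rw [Finset.eq_empty_iff_forall_notMem]
      intro j hj
      have h1 := DFunLike.congr_fun h0 j
      rw [ind_apply, if_pos hj] at h1
      simp at h1
    rw [this]
    simp

/-- Change of basis. -/
theorem base_change [Fintype ι] (p : ℕ) [hp : Fact p.Prime] [CharP K p] (n : ℕ)
    (e : ι → Fin n → K) (φ : (Fin n → K) →ₗ[K] (Fin n → K))
    (h : Th (∏ i, ell (fun j => φ (e j)) i ^ (p - 1)) ≠ 0) :
    Th (∏ i, ell e i ^ (p - 1)) ≠ 0 := by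
  intro hcon
  apply h
  set A : Fin n → Fin n → K := fun i k => φ (Pi.single k 1) i with hA
  have hφ : ∀ u i, φ u i = ∑ k, A i k * u k := by
    intro u i
    conv_lhs => rw [← Finset.univ_sum_single u, map_sum, Finset.sum_apply]
    refine Finset.sum_congr rfl fun k _ => ?_
    have : (Pi.single k (u k) : Fin n → K) = u k • Pi.single k 1 := by
      rw [← Pi.single_smul, smul_eq_mul, mul_one]
    rw [this, map_smul, Pi.smul_apply, smul_eq_mul, mul_comm]
  set f : MvPolynomial (Fin n) K := ∏ i, (∑ k, C (A i k) * X k) ^ (p - 1) with hf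
  have hfh : f.IsHomogeneous (∑ _i : Fin n, 1 * (p - 1)) := by
    refine IsHomogeneous.prod _ _ _ fun i _ => ?_
    refine IsHomogeneous.pow ?_ _
    refine IsHomogeneous.sum _ _ _ fun k _ => ?_
    exact isHomogeneous_C_mul_X _ _
  have h1 : ∏ i, ell (fun j => φ (e j)) i ^ (p - 1) = aeval (ell e) f := by
    rw [hf, map_prod]
    refine Finset.prod_congr rfl fun i _ => ?_
    rw [map_pow, map_sum]
    congr 1
    rw [ell]
    simp only [map_mul, aeval_X, aeval_C, algebraMap_eq, hφ, map_sum, ell, Finset.sum_mul,
      Finset.mul_sum]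
    rw [Finset.sum_comm]
    refine Finset.sum_congr rfl fun k _ => Finset.sum_congr rfl fun j _ => ?_
    ring
  rw [h1, aeval_def, eval₂_eq', map_sum]
  refine Finset.sum_eq_zero fun d hd => ?_
  have hdeg : d.degree = ∑ _i : Fin n, 1 * (p - 1) := by
    have := hfh (mem_support_iff.1 hd)
    rwa [Finsupp.degree_eq_weight_one]
  rw [algebraMap_eq, ← smul_eq_C_mul, map_smul]
  suffices hs : Th (∏ k, ell e k ^ d k) = 0 by rw [hs, smul_zero]
  by_cases hall : ∀ k, d k ≤ p - 1
  · have heq : ∀ k, d k = p - 1 := by
      rw [Finsupp.degree_eq_sum] at hdeg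
      have h2 := (Finset.sum_eq_sum_iff_of_le (s := Finset.univ) (f := fun k => d k)
        (g := fun _ : Fin n => 1 * (p - 1)) (fun k _ => by rw [one_mul]; exact hall k)).1 hdeg
      intro k
      rw [h2 k (Finset.mem_univ k), one_mul]
    simp only [heq]
    exact hcon
  · push Not at hall
    obtain ⟨k, hk⟩ := hall
    have hk' : p ≤ d k := by omega
    rw [← Finset.mul_prod_erase Finset.univ _ (Finset.mem_univ k)]
    have : ell e k ^ d k = ell e k ^ p * ell e k ^ (d k - p) := by
      rw [← pow_add]; congr 1; omega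
    rw [this, mul_assoc, Th_ell_pow]
    have h3 := (Am p n e).xp k
    change (∑ j, e j k • ta (K := K) j) ^ p = 0 at h3
    rw [h3]
    rfl

end theta

end Pool.Agent.J6H62.AB
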