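import Pool.Agent.J6H62.AB.Cx

set_option autoImplicit false

/-!
Graded modules over truncated polynomial rings, subquotients, changes of coordinates.
-/

namespace Pool.Agent.J6H62.AB

open TensorProduct

/-- A finite dimensional graded space with commuting operators of degree two and of
`p`-th power zero. -/
structure GMod (K : Type) [Field K] (p m : ℕ) where
  /-- the underlying space -/
  V : Type
  [acg : AddCommGroup V]
  [mod : Module K V]
  [fin : Module.Finite K V]
  /-- the operators -/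
  x : Fin m → Module.End K V
  /-- the projections to the graded parts -/
  π : ℤ → Module.End K V
  xx : ∀ i j, Commute (x i) (x j)
  xp : ∀ i, x i ^ p = 0
  ππ : ∀ a, π a * π a = π a
  xπ : ∀ i a, x i * π a = π (a + 2) * x i

attribute [instance] GMod.acg GMod.mod GMod.fin

section nil
variable {K : Type} [Field K] {V : Type} [AddCommGroup V] [Module K V]

theorem nil_add (p : ℕ) [hp : Fact p.Prime] [CharP K p] {a b : Module.End K V} (h : Commute a b)
    (ha : a ^ p = 0) (hb : b ^ p = 0) : (a + b) ^ p = 0 := by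
  have h0 : ((p : ℕ) : Module.End K V) = 0 := by
    have : algebraMap K (Module.End K V) (p : K) = ((p : ℕ) : Module.End K V) := by
      rw [map_natCast]
    rw [← this, CharP.cast_eq_zero, map_zero]
  rw [h.add_pow_prime_eq hp.out, ha, hb, h0]
  simp

theorem nil_smul (p : ℕ) (c : K) {a : Module.End K V} (ha : a ^ p = 0) : (c • a) ^ p = 0 := by
  rw [smul_pow, ha, smul_zero]

theorem comm_lin {m : ℕ} (x : Fin m → Module.End K V)
    (c : Fin m → K) (s : Finset (Fin m)) (y : Module.End K V) (hy : ∀ i, Commute y (x i)) :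
    Commute y (∑ i ∈ s, c i • x i) :=
  Commute.sum_right _ _ _ fun i _ => (hy i).smul_right _

theorem nil_lin (p : ℕ) [hp : Fact p.Prime] [CharP K p] {m : ℕ} (x : Fin m → Module.End K V)
    (hxx : ∀ i j, Commute (x i) (x j)) (hxp : ∀ i, x i ^ p = 0) (c : Fin m → K)
    (s : Finset (Fin m)) : (∑ i ∈ s, c i • x i) ^ p = 0 := by
  classical
  induction s using Finset.induction_on with
  | empty => rw [Finset.sum_empty, zero_pow hp.out.ne_zero]
  | insert i s hi ih =>
    rw [Finset.sum_insert hi]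
    refine nil_add p ?_ (nil_smul p _ (hxp i)) ih
    exact (comm_lin x c s (x i) (hxx i)).smul_left _

end nil

namespace GMod
variable {K : Type} [Field K] {p m : ℕ}

/-- Forget the operator number zero. -/
@[reducible] def tl (M : GMod K p (m + 1)) : GMod K p m where
  V := M.V
  x := fun i => M.x i.succ
  π := M.π
  xx := fun _ _ => M.xx _ _
  xp := fun _ => M.xp _
  ππ := M.ππ
  xπ := fun _ _ => M.xπ _ _

/-- The new operator number zero. -/
def chi (M : GMod K p (m + 1)) (c : Fin m → K) (s : Finset (Fin m)) : Module.End K M.V :=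
  M.x 0 + ∑ i ∈ s, c i • M.x i.succ

theorem chi_comm (M : GMod K p (m + 1)) (c : Fin m → K) (s : Finset (Fin m))
    (i : Fin (m + 1)) : Commute (M.chi c s) (M.x i) := by
  refine (Commute.add_right (M.xx i 0) ?_).symm
  exact comm_lin (fun i => M.x i.succ) c s (M.x i) (fun j => M.xx _ _)

theorem chi_nil [Fact p.Prime] [CharP K p] (M : GMod K p (m + 1)) (c : Fin m → K)
    (s : Finset (Fin m)) : M.chi c s ^ p = 0 := by
  refine nil_add p ?_ (M.xp 0) (nil_lin p (fun i => M.x i.succ) (fun i j => M.xx _ _)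
    (fun i => M.xp _) c s)
  exact comm_lin (fun i => M.x i.succ) c s (M.x 0) (fun j => M.xx _ _)

theorem chi_π (M : GMod K p (m + 1)) (c : Fin m → K) (s : Finset (Fin m)) (a : ℤ) :
    M.chi c s * M.π a = M.π (a + 2) * M.chi c s := by
  simp only [chi, add_mul, mul_add, Finset.sum_mul, Finset.mul_sum, M.xπ,
    smul_mul_assoc, mul_smul_comm]

/-- Change of the operator number zero. -/
@[reducible] def chg [Fact p.Prime] [CharP K p] (M : GMod K p (m + 1)) (c : Fin m → K)
    (s : Finset (Fin m)) : GMod K p (m + 1) where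
  V := M.V
  x := Fin.cons (M.chi c s) (fun i => M.x i.succ)
  π := M.π
  xx := fun i j => by
    refine Fin.cases ?_ (fun i => ?_) i <;> refine Fin.cases ?_ (fun j => ?_) j
    · exact Commute.refl _
    · exact M.chi_comm c s _
    · exact (M.chi_comm c s _).symm
    · exact M.xx _ _
  xp := fun i => by
    refine Fin.cases ?_ (fun i => ?_) i
    · exact M.chi_nil c s
    · exact M.xp _
  ππ := M.ππ
  xπ := fun i a => by
    refine Fin.cases ?_ (fun i => ?_) i
    · exact M.chi_π c s a
    · exact M.xπ _ _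

end GMod

section sq
variable {K : Type} [Field K] {V : Type} [AddCommGroup V] [Module K V]

/-- Operator induced on a subquotient. -/
def sq (A B : Submodule K V) (f : Module.End K V) (hA : ∀ v ∈ A, f v ∈ A)
    (hB : ∀ v ∈ B, f v ∈ B) : Module.End K (↥A ⧸ B.comap A.subtype) :=
  Submodule.mapQ _ _ (f.restrict hA) (fun v hv => hB _ hv)

theorem sq_mk (A B : Submodule K V) (f : Module.End K V) (hA : ∀ v ∈ A, f v ∈ A)
    (hB : ∀ v ∈ B, f v ∈ B) (v : A) :
    sq A B f hA hB ((B.comap A.subtype).mkQ v) =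
      (B.comap A.subtype).mkQ (f.restrict hA v) := rfl

theorem sq_ext (A B : Submodule K V) (F G : Module.End K (↥A ⧸ B.comap A.subtype))
    (h : ∀ v, F ((B.comap A.subtype).mkQ v) = G ((B.comap A.subtype).mkQ v)) : F = G := by
  refine LinearMap.ext fun q => ?_
  obtain ⟨v, rfl⟩ := Submodule.mkQ_surjective _ q
  exact h v

theorem sq_comm (A B : Submodule K V) (f g : Module.End K V) (hA : ∀ v ∈ A, f v ∈ A)
    (hB : ∀ v ∈ B, f v ∈ B) (hA' : ∀ v ∈ A, g v ∈ A)
    (hB' : ∀ v ∈ B, g v ∈ B) (h : Commute f g) :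
    Commute (sq A B f hA hB) (sq A B g hA' hB') := by
  refine sq_ext A B _ _ fun v => ?_
  simp only [Module.End.mul_apply, sq_mk]
  congr 1
  exact Subtype.ext (LinearMap.congr_fun h.eq v)

theorem sq_pow (A B : Submodule K V) (f : Module.End K V) (hA : ∀ v ∈ A, f v ∈ A)
    (hB : ∀ v ∈ B, f v ∈ B) (n : ℕ) (v : A) :
    ((sq A B f hA hB) ^ n) ((B.comap A.subtype).mkQ v) =
      (B.comap A.subtype).mkQ (((f.restrict hA) ^ n) v) := by
  induction n generalizing v with
  | zero => rfl
  | succ n ih => rw [pow_succ, pow_succ, Module.End.mul_apply, Module.End.mul_apply, sq_mk, ih]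

theorem restrict_pow (A : Submodule K V) (f : Module.End K V) (hA : ∀ v ∈ A, f v ∈ A)
    (n : ℕ) (v : A) : (((f.restrict hA) ^ n) v : V) = (f ^ n) v := by
  induction n generalizing v with
  | zero => rfl
  | succ n ih =>
    rw [pow_succ, pow_succ, Module.End.mul_apply, Module.End.mul_apply, ih]
    rfl

end sq

/-- Hypotheses for subquotients `ker f / range g`. -/
structure FG {K : Type} [Field K] {p m : ℕ} (M : GMod K p m) (f g : Module.End K M.V) :
    Prop where
  fg : f * g = 0
  fx : ∀ i, Commute f (M.x i)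
  gx : ∀ i, Commute g (M.x i)
  fπ : ∀ a, ∃ a', f * M.π a = M.π a' * f
  gπ : ∀ a, ∃ a', M.π a * g = g * M.π a'

namespace FG
variable {K : Type} [Field K] {p m : ℕ} {M : GMod K p m} {f g : Module.End K M.V}

theorem xA (h : FG M f g) (i : Fin m) : ∀ v ∈ LinearMap.ker f, M.x i v ∈ LinearMap.ker f := by
  intro v hv
  rw [LinearMap.mem_ker] at hv ⊢
  have := LinearMap.congr_fun (h.fx i).eq v
  rw [Module.End.mul_apply, Module.End.mul_apply, hv, map_zero] at this
  exact this

theorem xB (h : FG M f g) (i : Fin m) :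
    ∀ v ∈ LinearMap.range g, M.x i v ∈ LinearMap.range g := by
  rintro v ⟨w, rfl⟩
  have := LinearMap.congr_fun (h.gx i).eq w
  exact ⟨M.x i w, this⟩

theorem πA (h : FG M f g) (a : ℤ) : ∀ v ∈ LinearMap.ker f, M.π a v ∈ LinearMap.ker f := by
  intro v hv
  obtain ⟨a', ha'⟩ := h.fπ a
  rw [LinearMap.mem_ker] at hv ⊢
  have := LinearMap.congr_fun ha' v
  rw [Module.End.mul_apply, Module.End.mul_apply, hv, map_zero] at this
  exact this

theorem πB (h : FG M f g) (a : ℤ) :
    ∀ v ∈ LinearMap.range g, M.π a v ∈ LinearMap.range g := by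
  rintro v ⟨w, rfl⟩
  obtain ⟨a', ha'⟩ := h.gπ a
  have := LinearMap.congr_fun ha' w
  exact ⟨M.π a' w, this.symm⟩

end FG

/-- The subquotient. -/
@[reducible] def GMod.subq {K : Type} [Field K] {p m : ℕ} (M : GMod K p m)
    (f g : Module.End K M.V) (h : FG M f g) : GMod K p m where
  V := ↥(LinearMap.ker f) ⧸ (LinearMap.range g).comap (LinearMap.ker f).subtype
  x := fun i => sq (LinearMap.ker f) (LinearMap.range g) (M.x i) (h.xA i) (h.xB i)
  π := fun a => sq (LinearMap.ker f) (LinearMap.range g) (M.π a) (h.πA a) (h.πB a)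
  xx := fun i j => sq_comm _ _ _ _ _ _ _ _ (M.xx i j)
  xp := fun i => by
    refine sq_ext _ _ _ _ fun v => ?_
    rw [sq_pow, LinearMap.zero_apply]
    have : ((M.x i).restrict (h.xA i) ^ p) v = 0 := by
      refine Subtype.ext ?_
      rw [restrict_pow, M.xp]
      rfl
    rw [this, map_zero]
  ππ := fun a => by
    refine sq_ext _ _ _ _ fun v => ?_
    simp only [Module.End.mul_apply, sq_mk]
    congr 1
    exact Subtype.ext (LinearMap.congr_fun (M.ππ a) v)
  xπ := fun i a => by
    refine sq_ext _ _ _ _ fun v => ?_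
    simp only [Module.End.mul_apply, sq_mk]
    congr 1
    exact Subtype.ext (LinearMap.congr_fun (M.xπ i a) v)

namespace GMod
variable {K : Type} [Field K] {p m : ℕ}

theorem x_pow_π (M : GMod K p m) (i : Fin m) (n : ℕ) (a : ℤ) :
    M.x i ^ n * M.π a = M.π (a + 2 * n) * M.x i ^ n := by
  induction n generalizing a with
  | zero => simp
  | succ n ih =>
    rw [pow_succ, mul_assoc, M.xπ, ← mul_assoc, ih, mul_assoc]
    congr 2
    push_cast
    ring

theorem fgEv [hp : Fact p.Prime] (M : GMod K p (m + 1)) :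
    FG M.tl (M.x 0) (M.x 0 ^ (p - 1)) where
  fg := by
    rw [mul_pow_sub_one hp.out.ne_zero]
    exact M.xp 0
  fx := fun i => M.xx _ _
  gx := fun i => (M.xx _ _).pow_left _
  fπ := fun a => ⟨a + 2, M.xπ 0 a⟩
  gπ := fun a => ⟨a - 2 * (p - 1 : ℕ), by
    change M.π a * _ = _ * M.π _
    rw [x_pow_π]
    congr 2
    ring⟩

theorem fgOd [hp : Fact p.Prime] (M : GMod K p (m + 1)) :
    FG M.tl (M.x 0 ^ (p - 1)) (M.x 0) where
  fg := by
    rw [pow_sub_one_mul hp.out.ne_zero]
    exact M.xp 0
  fx := fun i => (M.xx _ _).pow_left _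
  gx := fun i => M.xx _ _
  fπ := fun a => ⟨a + 2 * (p - 1 : ℕ), x_pow_π M 0 _ _⟩
  gπ := fun a => ⟨a - 2, by
    change M.π a * _ = _ * M.π _
    rw [M.xπ]
    congr 2
    ring⟩

/-- `ker x₀ / range x₀ ^ (p - 1)`. -/
@[reducible] def Hev [Fact p.Prime] (M : GMod K p (m + 1)) : GMod K p m :=
  M.tl.subq (M.x 0) (M.x 0 ^ (p - 1)) M.fgEv

/-- `ker x₀ ^ (p - 1) / range x₀`. -/
@[reducible] def Hod [Fact p.Prime] (M : GMod K p (m + 1)) : GMod K p m :=
  M.tl.subq (M.x 0 ^ (p - 1)) (M.x 0) M.fgOd

end GMod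

end Pool.Agent.J6H62.AB
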