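import Pool.Agent.J6H62.AB.Rk

set_option autoImplicit false

/-!
From dimension counts to the inductive hypothesis.
-/

namespace Pool.Agent.J6H62.AB

open Module

section
variable {K : Type} [Field K]

/-- Generic coordinates. -/
def Gen {ι : Type} : ∀ (m : ℕ), (ι → Fin m → K) → Finset ι → Prop
  | 0, _, _ => True
  | (m + 1), e, J =>
    (∀ I : Finset ι, I ⊆ J → Submodule.span K (e '' (I : Set ι)) ≠ ⊤ →
      (Pi.single 0 1 : Fin (m + 1) → K) ∉ Submodule.span K (e '' (I : Set ι))) ∧
    Gen m (fun j i => e j i.succ) J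

theorem Gen.mono {ι : Type} (m : ℕ) (e : ι → Fin m → K) (J J' : Finset ι) (h : Gen m e J)
    (hJ : J' ⊆ J) : Gen m e J' := by
  induction m with
  | zero => trivial
  | succ m ih => exact ⟨fun I hI => h.1 I (hI.trans hJ), ih _ h.2⟩

/-- Forget the first coordinate. -/
def tail' (K : Type) [Field K] (m : ℕ) : (Fin (m + 1) → K) →ₗ[K] (Fin m → K) where
  toFun u := fun i => u i.succ
  map_add' _ _ := rfl
  map_smul' _ _ := rfl

theorem tail'_surj (m : ℕ) : Function.Surjective (tail' K m) := fun u =>
  ⟨Fin.cons 0 u, by funext i; simp [tail']⟩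

open Classical in
/-- The number of vectors of the family outside `X`. -/
noncomputable def nout {ι : Type} {m : ℕ} (e : ι → Fin m → K) (J : Finset ι)
    (X : Submodule K (Fin m → K)) : ℕ := (J.filter (fun j => e j ∉ X)).card

theorem nout_top {ι : Type} {m : ℕ} (e : ι → Fin m → K) (J : Finset ι) :
    nout e J ⊤ = 0 := by
  classical
  rw [nout, Finset.card_eq_zero, Finset.filter_eq_empty_iff]
  intro j _ h
  exact h trivial

theorem redV {ι : Type} {m : ℕ} (e : ι → Fin (m + 1) → K) (J : Finset ι)
    (hG : Gen (m + 1) e J) (X' : Submodule K (Fin m → K)) (hX' : X' ≠ ⊤) :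
    ∃ X : Submodule K (Fin (m + 1) → K), X ≠ ⊤ ∧ finrank K X ≤ finrank K X' ∧
      nout e J X ≤ nout (fun j i => e j i.succ) J X' := by
  classical
  set I := J.filter (fun j => (fun i => e j i.succ) ∈ X') with hI
  set X := Submodule.span K (e '' (I : Set ι)) with hX
  have hle : X ≤ X'.comap (tail' K m) := by
    rw [hX, Submodule.span_le]
    rintro _ ⟨j, hj, rfl⟩
    exact (Finset.mem_filter.1 hj).2
  have hne : X ≠ ⊤ := by
    intro h
    apply hX'
    rw [h, top_le_iff] at hle
    rw [eq_top_iff]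
    intro u _
    obtain ⟨w, rfl⟩ := tail'_surj m u
    have : w ∈ X'.comap (tail' K m) := by rw [hle]; trivial
    exact this
  have hv := hG.1 I (Finset.filter_subset _ _) hne
  refine ⟨X, hne, ?_, ?_⟩
  · let F : X →ₗ[K] X' := (tail' K m).restrict (fun u hu => hle hu)
    have hF : Function.Injective F := by
      rw [← LinearMap.ker_eq_bot, LinearMap.ker_eq_bot']
      rintro ⟨u, hu⟩ h0
      have h1 : tail' K m u = 0 := congrArg Subtype.val h0
      by_contra hne0
      apply hv
      have hu0 : u = u 0 • (Pi.single 0 1 : Fin (m + 1) → K) := by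
        funext i
        refine Fin.cases ?_ (fun i => ?_) i
        · simp
        · have : u i.succ = 0 := congrFun h1 i
          simp [this]
      have hu00 : u 0 ≠ 0 := by
        intro h
        rw [h, zero_smul] at hu0
        exact hne0 (Subtype.ext hu0)
      have : (Pi.single 0 1 : Fin (m + 1) → K) = (u 0)⁻¹ • u := by
        conv_rhs => rw [hu0]
        simp [hu00]
      rw [this]
      exact Submodule.smul_mem _ _ hu
    exact LinearMap.finrank_le_finrank_of_injective hF
  · rw [nout, nout]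
    refine Finset.card_le_card fun j hj => ?_
    rw [Finset.mem_filter] at hj ⊢
    refine ⟨hj.1, fun h => hj.2 ?_⟩
    exact Submodule.subset_span ⟨j, by
      rw [hI]
      exact Finset.mem_coe.2 (Finset.mem_filter.2 ⟨hj.1, h⟩), rfl⟩

theorem redH {ι : Type} {m : ℕ} (e : ι → Fin (m + 1) → K) (J J₀ J₁ : Finset ι) (c : Fin m → K)
    (hJ : ∀ j ∈ J, j ∈ J₀ ∨ j ∈ J₁) (h₀ : ∀ j ∈ J₀, ec e c j 0 = 0)
    (X' : Submodule K (Fin m → K)) :
    ∃ X : Submodule K (Fin (m + 1) → K), X ≠ ⊤ ∧ finrank K X ≤ finrank K X' ∧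
      nout e J X ≤ J₁.card + nout (fun j i => e j i.succ) J₀ X' := by
  classical
  let φ : (Fin (m + 1) → K) →ₗ[K] K :=
    LinearMap.proj 0 + ∑ i : Fin m, c i • LinearMap.proj i.succ
  have hφ : ∀ u, φ u = u 0 + ∑ i : Fin m, c i * u i.succ := by
    intro u
    simp [φ]
  set X : Submodule K (Fin (m + 1) → K) := LinearMap.ker φ ⊓ X'.comap (tail' K m) with hX
  refine ⟨X, ?_, ?_, ?_⟩
  · intro h
    have h1 : (Pi.single 0 1 : Fin (m + 1) → K) ∈ X := by rw [h]; trivial
    have h2 : φ (Pi.single 0 1) = 0 := h1.1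
    rw [hφ] at h2
    simp at h2
  · let F : X →ₗ[K] X' := (tail' K m).restrict (fun u hu => hu.2)
    have hF : Function.Injective F := by
      rw [← LinearMap.ker_eq_bot, LinearMap.ker_eq_bot']
      rintro ⟨u, hu⟩ h0
      have h1 : tail' K m u = 0 := congrArg Subtype.val h0
      have h2 : φ u = 0 := hu.1
      rw [hφ] at h2
      have h3 : ∀ i : Fin m, u i.succ = 0 := fun i => congrFun h1 i
      have h4 : u 0 = 0 := by
        simpa [h3] using h2
      refine Subtype.ext (funext fun i => ?_)
      refine Fin.cases ?_ (fun i => ?_) i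
      · exact h4
      · exact h3 i
    exact LinearMap.finrank_le_finrank_of_injective hF
  · rw [nout, nout]
    refine (Finset.card_le_card (?_ : _ ⊆ J₁ ∪ J₀.filter
      (fun j => (fun i => e j i.succ) ∉ X'))).trans (Finset.card_union_le _ _)
    intro j hj
    rw [Finset.mem_filter] at hj
    rw [Finset.mem_union, Finset.mem_filter]
    rcases hJ j hj.1 with h | h
    · right
      refine ⟨h, fun h' => hj.2 ⟨?_, h'⟩⟩
      change φ (e j) = 0
      rw [hφ]
      exact h₀ j h
    · left
      exact h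

theorem gg_of {p : ℕ} [hp : Fact p.Prime] [CharP K p] {ι : Type} (m : ℕ) :
    ∀ (M : GMod K p m) (J : Finset ι) (e : ι → Fin m → K) (s μ : ℤ)
      (t σ : ι → Module.End K M.V), EX M J e s t σ → Gen m e J →
      (∀ X : Submodule K (Fin m → K), X ≠ ⊤ →
        μ - s < 2 * ((p : ℤ) - 1) * finrank K X + nout e J X) →
      GG m false μ M ∧ (μ - s < 2 * ((p : ℤ) - 1) * m → GG m true μ M) := by
  classical
  have hq : (0 : ℤ) ≤ 2 * ((p : ℤ) - 1) := by
    have := hp.out.one_le
    omega
  have hp2 : (2 : ℤ) ≤ p := by exact_mod_cast hp.out.two_le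
  induction m with
  | zero =>
    intro M J e s μ t σ hE _ _
    refine ⟨trivial, fun h => ?_⟩
    change M.π μ = 0
    refine LinearMap.ext fun v => ?_
    exact hE.lev μ (by push_cast at h; linarith) (M.π μ v) (LinearMap.congr_fun (M.ππ μ) v)
  | succ m ih =>
    intro M J e s μ t σ hE hG hX
    have tailc : ∀ ν ≤ μ, ∀ X' : Submodule K (Fin m → K), X' ≠ ⊤ →
        ν - s < 2 * ((p : ℤ) - 1) * finrank K X' + nout (fun j i => e j i.succ) J X' := by
      intro ν hν X' hX'
      obtain ⟨X, h1, h2, h3⟩ := redV e J hG X' hX'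
      have h4 := hX X h1
      have h5 : 2 * ((p : ℤ) - 1) * finrank K X ≤ 2 * ((p : ℤ) - 1) * finrank K X' :=
        mul_le_mul_of_nonneg_left (by exact_mod_cast h2) hq
      have h6 : (nout e J X : ℤ) ≤ nout (fun j i => e j i.succ) J X' := by exact_mod_cast h3
      linarith
    have base : (∀ c, GG m true μ (M.chg c Finset.univ).Hev ∧
        GG m true (μ - ((p : ℤ) - 2)) (M.chg c Finset.univ).Hod) ∧
        GG m false (μ - p) M.tl ∧ GG m false (μ - 2 * p + 2) M.tl := by
      refine ⟨fun c => ?_, ?_, ?_⟩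
      · set J₀ := J.filter (fun j => ec e c j 0 = 0) with hJ₀
        set J₁ := J.filter (fun j => ec e c j 0 ≠ 0) with hJ₁
        have hEc := hE.chg c
        have hJ01 : ∀ j ∈ J, j ∈ J₀ ∨ j ∈ J₁ := by
          intro j hj
          by_cases h : ec e c j 0 = 0
          · exact Or.inl (Finset.mem_filter.2 ⟨hj, h⟩)
          · exact Or.inr (Finset.mem_filter.2 ⟨hj, h⟩)
        obtain ⟨⟨t₁, σ₁, E₁⟩, ⟨t₂, σ₂, E₂⟩⟩ := hEc.hev J₀ J₁ (Finset.filter_subset _ _)
          (Finset.filter_subset _ _) (fun j hj => (Finset.mem_filter.1 hj).2)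
          (fun j hj => (Finset.mem_filter.1 hj).2)
        have hG₀ : Gen m (fun j i => e j i.succ) J₀ :=
          Gen.mono m _ J J₀ hG.2 (Finset.filter_subset _ _)
        have cond : ∀ X' : Submodule K (Fin m → K),
            μ - (s + J₁.card) < 2 * ((p : ℤ) - 1) * finrank K X' +
              nout (fun j i => e j i.succ) J₀ X' := by
          intro X'
          obtain ⟨X, h1, h2, h3⟩ := redH e J J₀ J₁ c hJ01
            (fun j hj => (Finset.mem_filter.1 hj).2) X'
          have h4 := hX X h1
          have h5 : 2 * ((p : ℤ) - 1) * finrank K X ≤ 2 * ((p : ℤ) - 1) * finrank K X' :=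
            mul_le_mul_of_nonneg_left (by exact_mod_cast h2) hq
          have h6 : (nout e J X : ℤ) ≤ J₁.card + nout (fun j i => e j i.succ) J₀ X' := by
            exact_mod_cast h3
          linarith
        have condT : μ - (s + J₁.card) < 2 * ((p : ℤ) - 1) * m := by
          have h7 := cond ⊤
          rw [nout_top, finrank_top, finrank_fin_fun] at h7
          push_cast at h7
          linarith
        constructor
        · exact (ih _ J₀ (fun j i => e j i.succ) (s + J₁.card) μ t₁ σ₁ E₁ hG₀
            (fun X' _ => cond X')).2 condT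
        · refine (ih _ J₀ (fun j i => e j i.succ) (s + J₁.card - ((p : ℤ) - 2))
            (μ - ((p : ℤ) - 2)) t₂ σ₂ E₂ hG₀ (fun X' _ => ?_)).2 ?_
          · have := cond X'
            linarith
          · linarith
      · exact (ih M.tl J (fun j i => e j i.succ) s (μ - p) t σ hE.tl hG.2
          (tailc _ (by linarith))).1
      · exact (ih M.tl J (fun j i => e j i.succ) s (μ - 2 * p + 2) t σ hE.tl hG.2
          (tailc _ (by linarith))).1
    refine ⟨base, fun hT => ⟨base, ?_⟩⟩
    refine (ih M.tl J (fun j i => e j i.succ) s (μ - 2 * p + 2) t σ hE.tl hG.2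
      (tailc _ (by linarith))).2 ?_
    push_cast at hT
    linarith

end

end Pool.Agent.J6H62.AB
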