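import Pool.Agent.J6H62.AB.Sup

set_option autoImplicit false

/-!
The inductive vanishing theorem.
-/

namespace Pool.Agent.J6H62.AB

open TensorProduct MvPolynomial

section tors
variable {K : Type} [Field K]

theorem mulL_eq_smul {R : Type} [CommRing R] [Algebra K R] {V : Type} [AddCommGroup V]
    [Module K V] (a : R) (w : R ⊗[K] V) :
    TensorProduct.map (LinearMap.mulLeft K a) (1 : Module.End K V) w = a • w := by
  induction w using TensorProduct.induction_on with
  | zero => simp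
  | add a b ha hb => rw [smul_add, map_add, ha, hb]
  | tmul b c =>
    rw [TensorProduct.smul_tmul', TensorProduct.map_tmul, LinearMap.mulLeft_apply, smul_eq_mul]
    rfl

theorem lx_tors {R : Type} [CommRing R] [IsDomain R] [Algebra K R] {V : Type} [AddCommGroup V]
    [Module K V] (m : ℕ) (a : R) (ha : a ≠ 0) (z : Lx (R ⊗[K] V) m) (hz : a • z = 0) :
    z = 0 := by
  have hinj : Function.Injective (LinearMap.mulLeft K a) := fun x y h =>
    mul_left_cancel₀ ha h
  have h1 : Function.Injective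
      (TensorProduct.map (LinearMap.mulLeft K a) (1 : Module.End K V)) :=
    Module.Flat.rTensor_preserves_injective_linearMap (M := V) (LinearMap.mulLeft K a) hinj
  have h2 := mp_inj h1 m
  apply h2
  rw [map_zero, mp_eq_smul _ a (mulL_eq_smul a), hz]

end tors

section rho
variable {K : Type} [Field K] {m : ℕ}

/-- Specialise the variable number zero. -/
noncomputable def rho (m : ℕ) (lam : K) : Sp K (m + 1) →ₐ[K] Sp K m :=
  aeval (Fin.cons (C lam) X : Fin (m + 1) → Sp K m)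

/-- The section. -/
noncomputable def iota (K : Type) [Field K] (m : ℕ) : Sp K m →ₐ[K] Sp K (m + 1) :=
  aeval (fun i => X i.succ)

theorem rho_iota (lam : K) : (rho m lam).comp (iota K m) = AlgHom.id K (Sp K m) := by
  refine MvPolynomial.algHom_ext fun i => ?_
  simp [rho, iota]

theorem rho_X (lam : K) (i : Fin (m + 1)) :
    rho m lam (X i) = (Fin.cons (C lam) X : Fin (m + 1) → Sp K m) i := by
  simp [rho]

theorem div_rho (lam : K) (s : Sp K (m + 1)) :
    ∃ q, s - iota K m (rho m lam s) = (X 0 - C lam) * q := by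
  induction s using MvPolynomial.induction_on with
  | C a => exact ⟨0, by simp [rho, iota]⟩
  | add a b ha hb =>
    obtain ⟨q, hq⟩ := ha
    obtain ⟨q', hq'⟩ := hb
    exact ⟨q + q', by rw [mul_add, ← hq, ← hq', map_add, map_add]; ring⟩
  | mul_X s i hs =>
    obtain ⟨q, hq⟩ := hs
    have hs' : s = iota K m (rho m lam s) + (X 0 - C lam) * q := by rw [← hq]; ring
    refine Fin.cases ?_ (fun i => ?_) i
    · refine ⟨q * X 0 + iota K m (rho m lam s), ?_⟩
      rw [map_mul, map_mul, rho_X, Fin.cons_zero]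
      have : iota K m (C lam) = C lam := by simp [iota]
      rw [this]
      linear_combination (X 0) * hq
    · refine ⟨q * X i.succ, ?_⟩
      rw [map_mul, map_mul, rho_X, Fin.cons_succ]
      have : iota K m (X i) = X i.succ := by simp [iota]
      rw [this]
      linear_combination (X i.succ) * hq

theorem tdiv {V : Type} [AddCommGroup V] [Module K V] (lam : K) (w : Sp K (m + 1) ⊗[K] V) :
    ∃ v : Sp K (m + 1) ⊗[K] V,
      ((LinearMap.id : Sp K (m + 1) ⊗[K] V →ₗ[K] Sp K (m + 1) ⊗[K] V) -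
        (TensorProduct.map (iota K m).toLinearMap (LinearMap.id : V →ₗ[K] V)).comp
          (TensorProduct.map (rho m lam).toLinearMap (LinearMap.id : V →ₗ[K] V))) w =
      TensorProduct.map (LinearMap.mulLeft K (X 0 - C lam)) (1 : Module.End K V) v := by
  induction w using TensorProduct.induction_on with
  | zero => exact ⟨0, by simp⟩
  | add a b ha hb =>
    obtain ⟨v, hv⟩ := ha
    obtain ⟨v', hv'⟩ := hb
    exact ⟨v + v', by rw [map_add, map_add, hv, hv']⟩
  | tmul s v =>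
    obtain ⟨q, hq⟩ := div_rho lam s
    refine ⟨q ⊗ₜ v, ?_⟩
    rw [TensorProduct.map_tmul, LinearMap.mulLeft_apply, ← hq, TensorProduct.sub_tmul]
    rfl

/-- Division by `X 0 - C lam`. -/
theorem ldiv {V : Type} [AddCommGroup V] [Module K V] (lam : K) (n : ℕ)
    (z : Lx (Sp K (m + 1) ⊗[K] V) n)
    (hz : mp (TensorProduct.map (rho m lam).toLinearMap (LinearMap.id : V →ₗ[K] V)) n z = 0) :
    ∃ y, z = (X 0 - C lam : Sp K (m + 1)) • y := by
  obtain ⟨y, hy⟩ := mp_div (tdiv (m := m) (V := V) lam) n z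
  refine ⟨y, ?_⟩
  rw [mp_map_sub, mp_id, ← mp_mp, hz, map_zero, sub_zero,
    mp_eq_smul _ _ (mulL_eq_smul (X 0 - C lam : Sp K (m + 1)))] at hy
  exact hy

theorem X0_ne (lam : K) : (X 0 - C lam : Sp K (m + 1)) ≠ 0 := by
  intro h
  have := congrArg (MvPolynomial.aeval (fun _ => lam + 1 : Fin (m + 1) → K)) h
  simp at this

end rho

section nak
variable {K : Type} [Field K] {p m : ℕ}

/-- Cocycles of level `μ`. -/
noncomputable def Zl {R : Type} [CommRing R] [Algebra K R] (M : GMod K p m) (b : Fin m → R)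
    (μ : ℤ) : Submodule R (Lx (R ⊗[K] M.V) m) where
  carrier := {z | UD M b z = 0 ∧ Lv R M μ z = z}
  add_mem' := by
    rintro a a' ⟨h1, h2⟩ ⟨h3, h4⟩
    exact ⟨by rw [map_add, h1, h3, add_zero], by rw [map_add, h2, h4]⟩
  zero_mem' := ⟨map_zero _, map_zero _⟩
  smul_mem' := by
    rintro r a ⟨h1, h2⟩
    exact ⟨by rw [UD_smul, h1, smul_zero], by rw [Lv_smul, h2]⟩

theorem red_step [hp : Fact p.Prime] [CharP K p] [IsAlgClosed K] (M : GMod K p (m + 1)) (lam : K)
    (hlam : lam ≠ 0) (μ : ℤ)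
    (hev : ∀ c, ZZ (M.chg c Finset.univ).Hev μ)
    (hod : ∀ c, ZZ (M.chg c Finset.univ).Hod (μ - ((p : ℤ) - 2)))
    (z : Lx (Sp K (m + 1) ⊗[K] M.V) (m + 1))
    (hz : UD M X z = 0) (hμ : Lv (Sp K (m + 1)) M μ z = z) :
    ∃ y z', UD M X z' = 0 ∧ Lv (Sp K (m + 1)) M μ z' = z' ∧
      z = UD M X y + (X 0 - C lam : Sp K (m + 1)) • z' := by
  set T := mp (TensorProduct.map (rho m lam).toLinearMap (LinearMap.id : M.V →ₗ[K] M.V)) (m + 1)
    with hT
  have hTD : ∀ w, T (UD M X w) = UD M (Fin.cons (C lam) X : Fin (m + 1) → Sp K m) (T w) :=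
    mp_UD_ring M (rho m lam) X _ (rho_X lam)
  have hTL : ∀ w, T (Lv (Sp K (m + 1)) M μ w) = Lv (Sp K m) M μ (T w) :=
    mp_Lv_ring M (rho m lam) μ
  obtain ⟨y0, hy0⟩ := Az M lam hlam μ hev hod (T z) (by rw [← hTD, hz, map_zero])
    (by rw [← hTL, hμ])
  set y1 := mp (TensorProduct.map (iota K m).toLinearMap (LinearMap.id : M.V →ₗ[K] M.V))
    (m + 1) y0 with hy1
  have hTy : T y1 = y0 := mp_map_ring_comp (iota K m) (rho m lam) (m + 1) (rho_iota lam) y0
  obtain ⟨z'', hz''⟩ := ldiv lam (m + 1) (z - UD M X y1) (by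
    rw [← hT, map_sub, hTD, hTy, hy0, sub_self])
  have hD : UD M X z'' = 0 := by
    refine lx_tors (K := K) (m + 1) _ (X0_ne lam) _ ?_
    rw [← UD_smul, ← hz'', map_sub, UD_UD, hz, sub_zero]
  refine ⟨Lv _ M (μ - p) y1, Lv _ M μ z'', ?_, Lv_idem M μ _, ?_⟩
  · rw [UD_Lv, hD, map_zero]
  · rw [UD_Lv, sub_add_cancel, ← Lv_smul, ← hz'', map_sub, hμ]
    abel

theorem X0pow [hp : Fact p.Prime] [CharP K p] [IsAlgClosed K] (M : GMod K p (m + 1)) (μ : ℤ)
    (hev : ∀ c, ZZ (M.chg c Finset.univ).Hev μ)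
    (hod : ∀ c, ZZ (M.chg c Finset.univ).Hod (μ - ((p : ℤ) - 2)))
    (z : Lx (Sp K (m + 1) ⊗[K] M.V) (m + 1))
    (hz : UD M X z = 0) (hμ : Lv (Sp K (m + 1)) M μ z = z) :
    ∃ (k : ℕ) (y : Lx (Sp K (m + 1) ⊗[K] M.V) (m + 1)),
      (X 0 : Sp K (m + 1)) ^ k • z = UD M X y := by
  set S := Sp K (m + 1) with hS
  set J := Jd M (X : Fin (m + 1) → S) z with hJ
  have key : (X 0 : S) ∈ J.radical := by
    rw [← MvPolynomial.vanishingIdeal_zeroLocus_eq_radical (K := K) J, mem_vanishingIdeal_iff]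
    intro P hP
    rw [mem_zeroLocus_iff] at hP
    by_contra hne
    rw [aeval_X] at hne
    set lam := P 0 with hlam
    set B := Bd M (X : Fin (m + 1) → S) with hB
    set N := (Zl M (X : Fin (m + 1) → S) μ).map B.mkQ with hN
    have hfg : N.FG := (IsNoetherian.noetherian (Zl M (X : Fin (m + 1) → S) μ)).map _
    have hle : N ≤ (Ideal.span {(X 0 - C lam : S)}) • N := by
      rintro _ ⟨w, hw, rfl⟩
      obtain ⟨y, z', h1, h2, h3⟩ := red_step M lam hne μ hev hod w hw.1 hw.2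
      have h4 : B.mkQ w = (X 0 - C lam : S) • B.mkQ z' := by
        rw [← map_smul, Submodule.mkQ_apply, Submodule.mkQ_apply, Submodule.Quotient.eq]
        exact ⟨y, by conv_lhs => rw [h3]
                     abel⟩
      rw [h4]
      exact Submodule.smul_mem_smul (Ideal.mem_span_singleton_self _) ⟨z', ⟨h1, h2⟩, rfl⟩
    obtain ⟨r, hr1, hr2⟩ :=
      Submodule.exists_sub_one_mem_and_smul_eq_zero_of_fg_of_le_smul _ N hfg hle
    have h5 : r ∈ J := by
      have h6 := hr2 (B.mkQ z) ⟨z, ⟨hz, hμ⟩, rfl⟩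
      rw [← map_smul, ← LinearMap.mem_ker, Submodule.ker_mkQ] at h6
      exact h6
    have h7 := hP r h5
    obtain ⟨t, ht⟩ := Ideal.mem_span_singleton.1 hr1
    have h8 := congrArg (MvPolynomial.aeval P : S →ₐ[K] K) ht
    rw [map_sub, h7, map_mul, map_sub, aeval_X, aeval_C, map_one] at h8
    simp [hlam] at h8
  obtain ⟨k, y, hy⟩ := key
  exact ⟨k, y, hy⟩

end nak

end Pool.Agent.J6H62.AB
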