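import Pool.Agent.J6H62.AB.Un

set_option autoImplicit false

/-!
Leading terms and the intersection theorem.
-/

namespace Pool.Agent.J6H62.AB

open TensorProduct MvPolynomial

section hc
variable (K : Type) [Field K] (m : ℕ)

/-- Polynomials. -/
abbrev Sp : Type := MvPolynomial (Fin m) K

/-- The homogeneous component, where variables have weight two. -/
noncomputable def hc (a : ℤ) : Module.End K (Sp K m) :=
  weightedHomogeneousComponent (fun _ => (2 : ℤ)) a

variable {K m}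

theorem coeff_hc (a : ℤ) (s : Sp K m) (d : Fin m →₀ ℕ) :
    coeff d (hc K m a s) = if 2 * (d.degree : ℤ) = a then coeff d s else 0 := by
  classical
  rw [hc, coeff_weightedHomogeneousComponent]
  have : (Finsupp.weight (fun _ => (2 : ℤ))) d = 2 * (d.degree : ℤ) := by
    rw [Finsupp.weight_apply, Finsupp.sum, Finsupp.degree_apply, Nat.cast_sum, Finset.mul_sum]
    refine Finset.sum_congr rfl fun i _ => ?_
    simp [mul_comm]
  rw [this]

theorem hc_orth (a b : ℤ) (h : a ≠ b) : hc K m a * hc K m b = 0 := by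
  refine LinearMap.ext fun s => ?_
  ext d
  rw [Module.End.mul_apply, coeff_hc, coeff_hc, LinearMap.zero_apply, coeff_zero]
  split_ifs with h1 h2
  · exact absurd (h1.symm.trans h2) h
  · rfl
  · rfl

theorem hc_idem (a : ℤ) : hc K m a * hc K m a = hc K m a := by
  refine LinearMap.ext fun s => ?_
  ext d
  rw [Module.End.mul_apply, coeff_hc, coeff_hc]
  split_ifs <;> rfl

theorem hc_neg (a : ℤ) (h : a < 0) : hc K m a = 0 := by
  refine LinearMap.ext fun s => ?_
  ext d
  rw [coeff_hc, LinearMap.zero_apply, coeff_zero, if_neg (by omega)]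

theorem hc_X (a : ℤ) (i : Fin m) (s : Sp K m) :
    hc K m (a + 2) (X i * s) = X i * hc K m a s := by
  classical
  ext d
  rw [coeff_hc, coeff_X_mul', coeff_X_mul', coeff_hc]
  by_cases hi : i ∈ d.support
  · rw [if_pos hi, if_pos hi]
    have h1 : Finsupp.single i 1 ≤ d := by
      rw [Finsupp.single_le_iff]
      exact Nat.one_le_iff_ne_zero.2 (Finsupp.mem_support_iff.1 hi)
    have h2 : (d - Finsupp.single i 1).degree + 1 = d.degree := by
      conv_rhs => rw [← tsub_add_cancel_of_le h1]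
      rw [map_add, Finsupp.degree_single]
    have h3 : (2 * (d.degree : ℤ) = a + 2) ↔
        (2 * ((d - Finsupp.single i 1).degree : ℤ) = a) := by
      omega
    simp only [h3]
  · rw [if_neg hi, if_neg hi, ite_self]

theorem hc_trunc (k : ℕ) (s : Sp K m) :
    s - ∑ n ∈ Finset.range k, hc K m (2 * (n : ℤ)) s ∈ idealOfVars (Fin m) K ^ k := by
  rw [mem_pow_idealOfVars_iff']
  intro d hd
  rw [coeff_sub, coeff_sum]
  simp only [coeff_hc]
  rw [Finset.sum_eq_single d.degree]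
  · simp
  · intro n _ hn
    rw [if_neg]
    intro h
    apply hn
    omega
  · intro h
    exact absurd (Finset.mem_range.2 hd) h

end hc

section
variable {K : Type} [Field K]

/-- The `a`-degree projections of `S ⊗ V`. -/
noncomputable def tG (m : ℕ) (V : Type) [AddCommGroup V] [Module K V] (a : ℤ) :
    Module.End K (Sp K m ⊗[K] V) :=
  TensorProduct.map (hc K m a) (1 : Module.End K V)

theorem tG_orth (m : ℕ) (V : Type) [AddCommGroup V] [Module K V] (a b : ℤ) (h : a ≠ b) :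
    tG (K := K) m V a * tG m V b = 0 := by
  rw [tG, tG, ← TensorProduct.map_mul, hc_orth a b h, TensorProduct.map_zero_left]

theorem tG_idem (m : ℕ) (V : Type) [AddCommGroup V] [Module K V] (a : ℤ) :
    tG (K := K) m V a * tG m V a = tG m V a := by
  rw [tG, ← TensorProduct.map_mul, hc_idem a, one_mul]

theorem tG_neg (m : ℕ) (V : Type) [AddCommGroup V] [Module K V] (a : ℤ) (h : a < 0) :
    tG (K := K) m V a = 0 := by
  rw [tG, hc_neg a h, TensorProduct.map_zero_left]

theorem PL_neg {W : Type} [AddCommGroup W] [Module K W] (P : ℤ → Module.End K W)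
    (hP : ∀ a < 0, P a = 0) (m : ℕ) (a : ℤ) (ha : a < 0) (z : Lx W m) :
    PL P 1 m a z = 0 := by
  induction m generalizing a with
  | zero => exact LinearMap.congr_fun (hP a ha) z
  | succ m ih =>
    obtain ⟨f, g, rfl⟩ := exists_pr z
    rw [PL_pr, ih a ha, ih (a - 1) (by omega), pr_zero]

theorem tG_trunc (m : ℕ) (V : Type) [AddCommGroup V] [Module K V] (k : ℕ)
    (w : Sp K m ⊗[K] V) :
    w - ∑ n ∈ Finset.range k, tG m V (2 * (n : ℤ)) w ∈
      (idealOfVars (Fin m) K ^ k • ⊤ : Submodule (Sp K m) (Sp K m ⊗[K] V)) := by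
  induction w using TensorProduct.induction_on with
  | zero => simp
  | add a b ha hb =>
    have := Submodule.add_mem _ ha hb
    convert this using 1
    simp only [map_add, Finset.sum_add_distrib]
    abel
  | tmul s v =>
    have e : s ⊗ₜ[K] v - ∑ n ∈ Finset.range k, tG m V (2 * (n : ℤ)) (s ⊗ₜ[K] v) =
        (s - ∑ n ∈ Finset.range k, hc K m (2 * (n : ℤ)) s) • ((1 : Sp K m) ⊗ₜ[K] v) := by
      rw [TensorProduct.smul_tmul', smul_eq_mul, mul_one, TensorProduct.sub_tmul,
        TensorProduct.sum_tmul]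
      simp only [tG, TensorProduct.map_tmul, Module.End.one_apply]
    rw [e]
    exact Submodule.smul_mem_smul (hc_trunc k s) Submodule.mem_top

theorem pr_mem {R W : Type} [CommRing R] [AddCommGroup W] [Module R W] {m : ℕ} (I : Ideal R)
    (f g : Lx W m) (hf : f ∈ (I • ⊤ : Submodule R (Lx W m)))
    (hg : g ∈ (I • ⊤ : Submodule R (Lx W m))) :
    pr f g ∈ (I • ⊤ : Submodule R (Lx W (m + 1))) := by
  have key : ∀ (F : Lx W m →ₗ[R] Lx W (m + 1)) (h : Lx W m),
      h ∈ (I • ⊤ : Submodule R (Lx W m)) → F h ∈ (I • ⊤ : Submodule R (Lx W (m + 1))) := by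
    intro F h hh
    have h1 : F h ∈ Submodule.map F (I • ⊤ : Submodule R (Lx W m)) := ⟨h, hh, rfl⟩
    rw [Submodule.map_smul''] at h1
    exact Submodule.smul_mono le_rfl le_top h1
  let F1 : Lx W m →ₗ[R] Lx W (m + 1) := (LinearMap.inl R (Lx W m) (Lx W m))
  let F2 : Lx W m →ₗ[R] Lx W (m + 1) := (LinearMap.inr R (Lx W m) (Lx W m))
  have e : pr f g = F1 f + F2 g := by
    change pr f g = pr f 0 + pr 0 g
    rw [pr_add, add_zero, zero_add]
  rw [e]
  exact Submodule.add_mem _ (key F1 f hf) (key F2 g hg)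

theorem gr_small (n : ℕ) (V : Type) [AddCommGroup V] [Module K V] (k m : ℕ)
    (f : Lx (Sp K n ⊗[K] V) m)
    (h : ∀ a : ℤ, a < 2 * k + m → PL (tG n V) 1 m a f = 0) :
    f ∈ (idealOfVars (Fin n) K ^ k • ⊤ : Submodule (Sp K n) (Lx (Sp K n ⊗[K] V) m)) := by
  induction m with
  | zero =>
    have h1 := tG_trunc n V k f
    have h2 : ∑ i ∈ Finset.range k, tG n V (2 * (i : ℤ)) f = 0 := by
      refine Finset.sum_eq_zero fun i hi => ?_
      rw [Finset.mem_range] at hi
      exact h (2 * i) (by push_cast; omega)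
    rw [h2, sub_zero] at h1
    exact h1
  | succ m ih =>
    obtain ⟨f0, f1, rfl⟩ := exists_pr f
    refine pr_mem _ _ _ (ih f0 fun a ha => ?_) (ih f1 fun a ha => ?_)
    · have := h a (by push_cast; omega)
      rw [PL_pr, pr_zero, pr_inj] at this
      exact this.1
    · have := h (a + 1) (by push_cast; omega)
      rw [PL_pr, pr_zero, pr_inj, add_sub_cancel_right] at this
      exact this.2

end

section claim
variable {K : Type} [Field K] {p m : ℕ}

/-- The `a`-degree projections. -/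
noncomputable def Gr (M : GMod K p m) (a : ℤ) : Module.End K (Lx (Sp K m ⊗[K] M.V) m) :=
  PL (tG m M.V) 1 m a

theorem Gr_orth (M : GMod K p m) (a b : ℤ) (h : a ≠ b) (z : Lx (Sp K m ⊗[K] M.V) m) :
    Gr M a (Gr M b z) = 0 := PL_orth _ _ (tG_orth m M.V) m a b h z

theorem Gr_idem (M : GMod K p m) (a : ℤ) (z : Lx (Sp K m ⊗[K] M.V) m) :
    Gr M a (Gr M a z) = Gr M a z := PL_idem _ _ (tG_idem m M.V) m a z

theorem Gr_neg (M : GMod K p m) (a : ℤ) (h : a < 0) (z : Lx (Sp K m ⊗[K] M.V) m) :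
    Gr M a z = 0 := PL_neg _ (tG_neg m M.V) m a h z

theorem UD_Gr (M : GMod K p m) (a : ℤ) (z : Lx (Sp K m ⊗[K] M.V) m) :
    UD M X (Gr M a z) = Gr M (a + 1) (UD M X z) := by
  refine Dx_PL _ _ _ m _ _ (fun i a w => ?_) (fun i a w => ?_) a z
  · rw [add_sub_cancel_right]
    exact LinearMap.congr_fun (map_comm (Commute.one_left _) (Commute.one_right _)).eq w
  · have e : a + 1 + 1 = a + 2 := by ring
    rw [e]
    induction w using TensorProduct.induction_on with
    | zero => simp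
    | add a b ha hb => rw [map_add, map_add, ha, hb, map_add, map_add]
    | tmul s v =>
      simp only [tB, tG, TensorProduct.map_tmul, LinearMap.mulLeft_apply, Module.End.one_apply,
        hc_X]

theorem Gr_map (M : GMod K p m) (f : Module.End K M.V) (a : ℤ) (z : Lx (Sp K m ⊗[K] M.V) m) :
    mp (TensorProduct.map (1 : Module.End K (Sp K m)) f) m (Gr M a z) =
      Gr M a (mp (TensorProduct.map (1 : Module.End K (Sp K m)) f) m z) := by
  have := mp_PL (TensorProduct.map (1 : Module.End K (Sp K m)) f) (tG m M.V) (tG m M.V) 1 0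
    (fun a w => ?_) m a z
  · rw [add_zero] at this
    exact this
  · rw [add_zero]
    exact LinearMap.congr_fun (map_comm (Commute.one_left _) (Commute.one_right _)).eq w

theorem Gr_Lv (M : GMod K p m) (a μ : ℤ) (z : Lx (Sp K m ⊗[K] M.V) m) :
    Lv (Sp K m) M μ (Gr M a z) = Gr M a (Lv (Sp K m) M μ z) :=
  PL_PL _ _ _ _ (fun _ _ => map_comm (Commute.one_left _) (Commute.one_right _)) m μ a z

theorem UD_cons {R : Type} [CommRing R] [Algebra K R] (M : GMod K p (m + 1)) (b₀ : R)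
    (b : Fin m → R) (f₀ f₁ : Lx (R ⊗[K] M.V) m) :
    UD M (Fin.cons b₀ b : Fin (m + 1) → R) (pr f₀ f₁) =
      pr (UD M.tl b f₀ +
          mp (TensorProduct.map (LinearMap.mulLeft K b₀) (M.x 0 ^ (p - 1))) m f₁)
        (mp (TensorProduct.map (1 : Module.End K R) (M.x 0)) m f₀ - UD M.tl b f₁) := rfl

theorem Lv_pr {R : Type} [CommRing R] [Algebra K R] (M : GMod K p (m + 1)) (μ : ℤ)
    (f₀ f₁ : Lx (R ⊗[K] M.V) m) :
    Lv R M μ (pr f₀ f₁) = pr (Lv R M.tl μ f₀) (Lv R M.tl (μ - ((p : ℤ) - 2)) f₁) := rfl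

/-- Vanishing statement in level `μ`. -/
def ZZ (N : GMod K p m) (μ : ℤ) : Prop :=
  ∀ z : Lx (Sp K m ⊗[K] N.V) m, UD N X z = 0 → Lv (Sp K m) N μ z = z → ∃ y, z = UD N X y

theorem mulC_eq (lam : K) : LinearMap.mulLeft K (C lam : Sp K m) = lam • 1 := by
  refine LinearMap.ext fun s => ?_
  rw [LinearMap.mulLeft_apply, ← smul_eq_C_mul]
  rfl

theorem claimP [hp : Fact p.Prime] (M : GMod K p (m + 1)) (lam : K) (hlam : lam ≠ 0) (μ : ℤ)
    (hev : ZZ M.Hev μ) (hod : ZZ M.Hod (μ - ((p : ℤ) - 2)))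
    (z : Lx (Sp K m ⊗[K] M.V) (m + 1))
    (hz : UD M (Fin.cons (C lam) X : Fin (m + 1) → Sp K m) z = 0)
    (hμ : Lv (Sp K m) M μ z = z) (k : ℕ) :
    ∃ (y : Lx (Sp K m ⊗[K] M.V) (m + 1)) (f₀ f₁ : Lx (Sp K m ⊗[K] M.V) m),
      z = UD M (Fin.cons (C lam) X : Fin (m + 1) → Sp K m) y + pr f₀ f₁ ∧
      UD M (Fin.cons (C lam) X : Fin (m + 1) → Sp K m) (pr f₀ f₁) = 0 ∧
      Lv (Sp K m) M μ (pr f₀ f₁) = pr f₀ f₁ ∧
      ∀ a : ℤ, a < k → Gr M.tl a f₀ = 0 ∧ Gr M.tl a f₁ = 0 := by
  induction k with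
  | zero =>
    obtain ⟨f₀, f₁, rfl⟩ := exists_pr z
    refine ⟨0, f₀, f₁, by rw [map_zero, zero_add], hz, hμ, fun a ha => ?_⟩
    exact ⟨Gr_neg _ a (by simpa using ha) _, Gr_neg _ a (by simpa using ha) _⟩
  | succ k ih =>
    obtain ⟨y, f₀, f₁, hy, hc, hl, hg⟩ := ih
    set N := M.tl with hN
    -- abbreviations
    set χ : Module.End K (Lx (Sp K m ⊗[K] M.V) m) :=
      mp (TensorProduct.map (1 : Module.End K (Sp K m)) (M.x 0)) m with hχ
    set g : Module.End K (Lx (Sp K m ⊗[K] M.V) m) :=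
      mp (TensorProduct.map (1 : Module.End K (Sp K m)) (M.x 0 ^ (p - 1))) m with hgdef
    have hmul : ∀ f, mp (TensorProduct.map (LinearMap.mulLeft K (C lam : Sp K m))
        (M.x 0 ^ (p - 1))) m f = lam • g f := fun f => by
      rw [mulC_eq, TensorProduct.map_smul_left, mp_map_smul]
    have hUD : ∀ a b : Lx (Sp K m ⊗[K] M.V) m,
        UD M (Fin.cons (C lam) X : Fin (m + 1) → Sp K m) (pr a b) =
        pr (UD N X a + lam • g b) (χ a - UD N X b) := fun a b => by
      rw [UD_cons, hmul]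
    have hχG : ∀ a f, χ (Gr N a f) = Gr N a (χ f) := fun a f => Gr_map N (M.x 0) a f
    have hgG : ∀ a f, g (Gr N a f) = Gr N a (g f) := fun a f => Gr_map N (M.x 0 ^ (p - 1)) a f
    have hDG : ∀ a f, UD N X (Gr N a f) = Gr N (a + 1) (UD N X f) := UD_Gr N
    rw [hUD, pr_zero, pr_inj] at hc
    obtain ⟨E1, E2⟩ := hc
    have E1' : UD N X f₀ = -(lam • g f₁) := eq_neg_of_add_eq_zero_left E1
    have E2' : UD N X f₁ = χ f₀ := (sub_eq_zero.1 E2).symm
    rw [Lv_pr, pr_inj] at hl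
    obtain ⟨L1, L2⟩ := hl
    have k1 := hg ((k : ℤ) - 1) (by omega)
    have ek : (k : ℤ) - 1 + 1 = k := by ring
    -- the leading terms
    have A1 : χ (Gr N k f₀) = 0 := by
      rw [hχG, ← E2']
      have := hDG ((k : ℤ) - 1) f₁
      rw [ek] at this
      rw [← this, k1.2, map_zero]
    have A2 : g (Gr N k f₁) = 0 := by
      have h1 : lam • g (Gr N k f₁) = 0 := by
        rw [hgG, ← map_smul, ← neg_eq_iff_eq_neg.2 E1', map_neg]
        have := hDG ((k : ℤ) - 1) f₀
        rw [ek] at this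
        rw [← this, k1.1, map_zero, neg_zero]
      exact (smul_eq_zero.1 h1).resolve_left hlam
    have A3 : UD N X (Gr N k f₀) = g (-(lam • Gr N (k + 1) f₁)) := by
      rw [hDG, E1', map_neg, map_neg, map_smul, map_smul, hgG]
    have A4 : UD N X (Gr N k f₁) = χ (Gr N (k + 1) f₀) := by
      rw [hDG, E2', hχG]
    obtain ⟨u₁, u₂, B1, B2⟩ := push N (M.x 0) (M.x 0 ^ (p - 1)) M.fgEv X μ hev
      (Gr N k f₀) _ A1 A3 (by rw [Gr_Lv, L1])
    obtain ⟨v₁, v₂, B3, B4⟩ := push N (M.x 0 ^ (p - 1)) (M.x 0) M.fgOd X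
      (μ - ((p : ℤ) - 2)) hod (Gr N k f₁) _ A2 A4 (by rw [Gr_Lv, L2])
    -- homogenise
    set U₁ := Gr N ((k : ℤ) - 1) u₁ with hU1
    set U₂ := Gr N k u₂ with hU2
    set V₁ := Gr N ((k : ℤ) - 1) v₁ with hV1
    set V₂ := Gr N k v₂ with hV2
    have C1 : χ U₁ = 0 := by rw [hU1, hχG]; exact (congrArg _ B1).trans (map_zero _)
    have C3 : g V₁ = 0 := by rw [hV1, hgG]; exact (congrArg _ B3).trans (map_zero _)
    have C2 : Gr N k f₀ = UD N X U₁ + g U₂ := by
      have h1 := congrArg (Gr N k) B2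
      rw [Gr_idem, map_add] at h1
      have h2 := hDG ((k : ℤ) - 1) u₁
      rw [ek] at h2
      rw [h1, hU1, hU2, hgG, h2]
    have C4 : Gr N k f₁ = UD N X V₁ + χ V₂ := by
      have h1 := congrArg (Gr N k) B4
      rw [Gr_idem, map_add] at h1
      have h2 := hDG ((k : ℤ) - 1) v₁
      rw [ek] at h2
      rw [h1, hV1, hV2, hχG, h2]
    have Dw : UD M (Fin.cons (C lam) X : Fin (m + 1) → Sp K m)
        (pr (U₁ + V₂) (lam⁻¹ • U₂ - V₁)) =
        pr (Gr N k f₀ + UD N X V₂) (Gr N k f₁ - lam⁻¹ • UD N X U₂) := by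
      rw [hUD, pr_inj]
      constructor
      · rw [map_sub, map_smul, smul_sub, smul_smul, mul_inv_cancel₀ hlam, one_smul, C3,
          smul_zero, sub_zero, C2, map_add]
        abel
      · rw [map_sub, map_smul, map_add, C1, C4]
        abel
    refine ⟨y + Lv (Sp K m) M (μ - p) (pr (U₁ + V₂) (lam⁻¹ • U₂ - V₁)),
      Lv (Sp K m) N μ (f₀ - (Gr N k f₀ + UD N X V₂)),
      Lv (Sp K m) N (μ - ((p : ℤ) - 2)) (f₁ - (Gr N k f₁ - lam⁻¹ • UD N X U₂)), ?_, ?_, ?_, ?_⟩
    · rw [← Lv_pr, map_add, UD_Lv, Dw, sub_add_cancel, hy, ← pr_sub, map_sub, Lv_pr (f₀ := f₀),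
        L1, L2]
      abel
    · have e1 : μ = μ - p + p := by ring
      rw [← Lv_pr, ← pr_sub, ← Dw]
      have h3 := UD_Lv M (Fin.cons (C lam) X : Fin (m + 1) → Sp K m) μ
      rw [h3, map_sub, UD_UD, sub_zero, hUD, E1, E2, ← pr_zero, map_zero]
    · rw [← Lv_pr, Lv_idem]
    · intro a ha
      have ha' : a < (k : ℤ) ∨ a = k := by push_cast at ha; omega
      have e1 : Gr N a (f₀ - (Gr N k f₀ + UD N X V₂)) = 0 := by
        have h1 : Gr N a (UD N X V₂) = 0 := by
          have := hDG (a - 1) V₂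
          rw [sub_add_cancel] at this
          rw [← this, hV2, Gr_orth _ _ _ (by omega), map_zero]
        rw [map_sub, map_add, h1, add_zero]
        rcases ha' with h | h
        · rw [(hg a h).1, Gr_orth _ _ _ (by omega), sub_zero]
        · rw [h, Gr_idem, sub_self]
      have e2 : Gr N a (f₁ - (Gr N k f₁ - lam⁻¹ • UD N X U₂)) = 0 := by
        have h1 : Gr N a (UD N X U₂) = 0 := by
          have := hDG (a - 1) U₂
          rw [sub_add_cancel] at this
          rw [← this, hU2, Gr_orth _ _ _ (by omega), map_zero]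
        rw [map_sub, map_sub, map_smul, h1, smul_zero, sub_zero]
        rcases ha' with h | h
        · rw [(hg a h).2, Gr_orth _ _ _ (by omega), sub_zero]
        · rw [h, Gr_idem, sub_self]
      rw [← Gr_Lv, ← Gr_Lv, e1, e2, map_zero, map_zero]
      exact ⟨rfl, rfl⟩

end claim

end Pool.Agent.J6H62.AB
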