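import Pool.Agent.J6H62.AB.Fn

set_option autoImplicit false

/-!
The sum of `2 (p - 1)` cubes is everything.
-/

namespace Pool.Agent.J6H62.AB

open MvPolynomial Module

section lead
variable {F : Type} [Field F] {ι : Type}

/-- `a` is the leading form of `f` in degree `N`. -/
def Qd (N : ℕ) (f a : MvPolynomial ι F) : Prop :=
  a.IsHomogeneous N ∧ ∀ d : ι →₀ ℕ, N ≤ d.degree → coeff d f = coeff d a

theorem Qd.mul {N N' : ℕ} {f a f' a' : MvPolynomial ι F} (h : Qd N f a) (h' : Qd N' f' a') :
    Qd (N + N') (f * f') (a * a') := by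
  classical
  refine ⟨h.1.mul h'.1, fun d hd => ?_⟩
  rw [coeff_mul, coeff_mul]
  refine Finset.sum_congr rfl fun x hx => ?_
  rw [Finset.HasAntidiagonal.mem_antidiagonal] at hx
  have hx' : x.1.degree + x.2.degree = d.degree := by rw [← hx, map_add]
  rcases lt_trichotomy x.1.degree N with h1 | h1 | h1
  · have h2 : N' < x.2.degree := by omega
    rw [h'.2 _ h2.le, h'.1.coeff_eq_zero (by omega), mul_zero, mul_zero]
  · have h2 : N' ≤ x.2.degree := by omega
    rw [h.2 _ h1.ge, h'.2 _ h2]
  · rw [h.2 _ h1.le, h.1.coeff_eq_zero (by omega), zero_mul, zero_mul]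

theorem Qd.one : Qd 0 (1 : MvPolynomial ι F) 1 := ⟨isHomogeneous_one _ _, fun _ _ => rfl⟩

theorem Qd.pow {N : ℕ} {f a : MvPolynomial ι F} (h : Qd N f a) (k : ℕ) :
    Qd (N * k) (f ^ k) (a ^ k) := by
  induction k with
  | zero => simpa using Qd.one
  | succ k ih =>
    rw [pow_succ, pow_succ, Nat.mul_succ]
    exact ih.mul h

theorem Qd.prod {κ : Type} (s : Finset κ) (N : ℕ) (f a : κ → MvPolynomial ι F)
    (h : ∀ k ∈ s, Qd N (f k) (a k)) : Qd (s.card * N) (∏ k ∈ s, f k) (∏ k ∈ s, a k) := by
  classical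
  induction s using Finset.induction_on with
  | empty => simpa using Qd.one
  | insert k s hk ih =>
    rw [Finset.prod_insert hk, Finset.prod_insert hk, Finset.card_insert_of_notMem hk,
      Nat.succ_mul, add_comm]
    exact (h k (Finset.mem_insert_self k s)).mul
      (ih fun j hj => h j (Finset.mem_insert_of_mem hj))

end lead

section dens
variable {p : ℕ} [hp : Fact p.Prime] {K : Type} [Field K] [Algebra (ZMod p) K]

theorem card_in {n : ℕ} (w : Fin n → Fin n → K) (hw : LinearIndependent K w)
    (X : Submodule K (Fin n → K)) [DecidablePred fun i => w i ∈ X] :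
    (Finset.univ.filter (fun i => w i ∈ X)).card ≤ finrank K X := by
  have h1 : LinearIndependent K (fun i : {i // w i ∈ X} => w i) :=
    hw.comp _ Subtype.val_injective
  have h2 : LinearIndependent K (fun i : {i // w i ∈ X} => (⟨w i, i.2⟩ : X)) :=
    LinearIndependent.of_comp X.subtype h1
  have h3 := h2.fintype_card_le_finrank
  rwa [Fintype.card_subtype] at h3

theorem indep_map {n : ℕ} (T : (Fin n → ZMod p) ≃ₗ[ZMod p] (Fin n → ZMod p)) :
    LinearIndependent K (fun (i : Fin n) (k : Fin n) =>
      algebraMap (ZMod p) K (T (Pi.single i 1) k)) := by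
  let B : Matrix (Fin n) (Fin n) (ZMod p) := fun i k => T (Pi.single i 1) k
  have hB : B.row = T.toLinearMap ∘ (Pi.basisFun (ZMod p) (Fin n)) := by
    funext i k
    simp [B, Matrix.row]
  have h1 : LinearIndependent (ZMod p) B.row := by
    rw [hB]
    exact (Pi.basisFun (ZMod p) (Fin n)).linearIndependent.map'
      T.toLinearMap (LinearEquiv.ker T)
  have h3 : IsUnit B := Matrix.linearIndependent_rows_iff_isUnit.1 h1
  have h4 : IsUnit (B.map (algebraMap (ZMod p) K)) :=
    h3.map (algebraMap (ZMod p) K).mapMatrix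
  exact Matrix.linearIndependent_rows_iff_isUnit.2 h4

theorem dens {C n : ℕ} (T : Fin C → ((Fin n → ZMod p) ≃ₗ[ZMod p] (Fin n → ZMod p)))
    (φ : (Fin n → K) ≃ₗ[K] (Fin n → K)) (X : Submodule K (Fin n → K)) :
    (C : ℤ) * n ≤ (C : ℤ) * finrank K X +
      nout (fun (j : Fin C × Fin n) => φ (fun k => algebraMap (ZMod p) K
        (T j.1 (Pi.single j.2 1) k))) Finset.univ X := by
  classical
  set w : Fin C × Fin n → Fin n → K := fun j => φ (fun k => algebraMap (ZMod p) K
        (T j.1 (Pi.single j.2 1) k)) with hw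
  have h1 : ∀ a : Fin C, n ≤ finrank K X +
      (Finset.univ.filter (fun i => w (a, i) ∉ X)).card := by
    intro a
    have h2 : LinearIndependent K (fun i => w (a, i)) :=
      (indep_map (K := K) (T a)).map' φ.toLinearMap (LinearEquiv.ker φ)
    have h3 := card_in _ h2 X
    have h4 := Finset.card_filter_add_card_filter_not (s := (Finset.univ : Finset (Fin n)))
      (fun i => w (a, i) ∈ X)
    rw [Finset.card_univ, Fintype.card_fin] at h4
    omega
  have h5 : nout w Finset.univ X =
      ∑ a : Fin C, (Finset.univ.filter (fun i => w (a, i) ∉ X)).card := by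
    rw [nout, Finset.card_filter, Fintype.sum_prod_type]
    refine Finset.sum_congr rfl fun a _ => ?_
    rw [Finset.card_filter]
  rw [h5]
  have h6 : ∑ _a : Fin C, n ≤ ∑ a : Fin C, (finrank K X +
      (Finset.univ.filter (fun i => w (a, i) ∉ X)).card) := Finset.sum_le_sum fun a _ => h1 a
  rw [Finset.sum_add_distrib, Finset.sum_const, Finset.sum_const, Finset.card_univ,
    Fintype.card_fin, smul_eq_mul, smul_eq_mul] at h6
  exact_mod_cast h6

end dens

/-- The sum of `2 (p - 1)` cubes is everything. -/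
theorem cubes (p : ℕ) [hp : Fact p.Prime] (n : ℕ)
    (T : Fin (2 * (p - 1)) → ((Fin n → ZMod p) ≃ₗ[ZMod p] (Fin n → ZMod p)))
    (y : Fin n → ZMod p) :
    ∃ x : Fin (2 * (p - 1)) → Fin n → ZMod p,
      (∀ j i, x j i = 0 ∨ x j i = 1) ∧ ∑ j, T j (x j) = y := by
  classical
  set K := AlgebraicClosure (ZMod p) with hK
  set ι := Fin (2 * (p - 1)) × Fin n with hι
  set e : ι → Fin n → ZMod p := fun j => T j.1 (Pi.single j.2 1) with he
  set eK : ι → Fin n → K := fun j k => algebraMap (ZMod p) K (e j k) with heK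
  have : CharP K p := charP_of_injective_algebraMap (algebraMap (ZMod p) K).injective p
  have : Infinite K := IsAlgClosed.instInfinite
  -- nonvanishing
  obtain ⟨φ, hφ⟩ := exists_gen (K := K) (Finset.univ : Finset ι) n (Fin n → K) eK
    (finrank_fin_fun K)
  have hne : Th (∏ i, ell (fun j => φ.toLinearMap (eK j)) i ^ (p - 1)) ≠ 0 := by
    rw [Th_prod]
    refine top_ne n (Am p n fun j => φ (eK j)) Finset.univ _ ta sa (model_ex p n _) hφ ?_ _
      Th_one Th_one_level
    intro X
    have h1 := dens (K := K) T φ X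
    have h2 : ((2 * (p - 1) : ℕ) : ℤ) = 2 * ((p : ℤ) - 1) := by
      push_cast [hp.out.one_le]
      ring
    rw [h2] at h1
    exact h1
  have hne' := base_change p n eK φ.toLinearMap hne
  obtain ⟨s, hs⟩ := Function.ne_iff.1 hne'
  rw [Th_apply, Pi.zero_apply] at hs
  -- descend to the prime field
  have hmap : ∀ i, ell eK i = MvPolynomial.map (algebraMap (ZMod p) K) (ell e i) := by
    intro i
    rw [ell, ell, map_sum]
    refine Finset.sum_congr rfl fun j _ => ?_
    rw [map_mul, map_C, map_X]
  have hs' : coeff (ind s) (∏ i, ell e i ^ (p - 1)) ≠ 0 := by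
    intro h
    apply hs
    have : (∏ i, ell eK i ^ (p - 1)) =
        MvPolynomial.map (algebraMap (ZMod p) K) (∏ i, ell e i ^ (p - 1)) := by
      rw [map_prod]
      refine Finset.prod_congr rfl fun i _ => ?_
      rw [map_pow, hmap]
    rw [this, coeff_map, h, map_zero]
  -- the polynomial
  set P : MvPolynomial ι (ZMod p) := ∏ i : Fin n, (1 - (ell e i - C (y i)) ^ (p - 1)) with hP
  have hp2 := hp.out.two_le
  have hQ : Qd ((Finset.univ : Finset (Fin n)).card * (p - 1)) P
      (∏ i : Fin n, (-(ell e i ^ (p - 1)))) := by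
    refine Qd.prod _ _ _ _ fun i _ => ?_
    have hell : (ell e i).IsHomogeneous 1 := by
      refine IsHomogeneous.sum _ _ _ fun j _ => ?_
      exact isHomogeneous_C_mul_X _ _
    have h1 : Qd 1 (ell e i - C (y i)) (ell e i) := by
      refine ⟨hell, fun d hd => ?_⟩
      rw [coeff_sub, coeff_C, if_neg, sub_zero]
      intro h0
      rw [← h0, map_zero] at hd
      omega
    have h2 := h1.pow (p - 1)
    rw [one_mul] at h2
    refine ⟨h2.1.neg, fun d hd => ?_⟩
    rw [coeff_sub, h2.2 d hd, coeff_neg, coeff_one, if_neg, zero_sub]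
    intro h0
    rw [← h0, map_zero] at hd
    omega
  have hcoef : coeff (ind s) (∏ i : Fin n, (-(ell e i ^ (p - 1)))) ≠ 0 := by
    rw [Finset.prod_neg, ← C_1, ← C_neg, ← C_pow, coeff_C_mul]
    exact mul_ne_zero (pow_ne_zero _ (neg_ne_zero.2 one_ne_zero)) hs'
  have hdeg : (ind s).degree = (Finset.univ : Finset (Fin n)).card * (p - 1) := by
    by_contra h
    exact hcoef (hQ.1.coeff_eq_zero h)
  have hPc : coeff (ind s) P ≠ 0 := by
    rw [hQ.2 _ hdeg.ge]
    exact hcoef
  have htd : P.totalDegree = (ind s).degree := by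
    refine le_antisymm ?_ ?_
    · rw [hdeg]
      refine Finset.sup_le fun d hd => ?_
      change d.degree ≤ _
      by_contra hlt
      push Not at hlt
      rw [MvPolynomial.mem_support_iff, hQ.2 _ hlt.le, hQ.1.coeff_eq_zero (by omega)] at hd
      exact hd rfl
    · exact le_totalDegree (MvPolynomial.mem_support_iff.2 hPc)
  obtain ⟨x, hx1, hx2⟩ := combinatorial_nullstellensatz_exists_eval_nonzero P (ind s) hPc htd
    (fun _ => {0, 1}) (fun j => by
      rw [ind_apply, Finset.card_pair (zero_ne_one)]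
      split_ifs <;> omega)
  refine ⟨fun a i => x (a, i), fun a i => ?_, ?_⟩
  · have := hx1 (a, i)
    rw [Finset.mem_insert, Finset.mem_singleton] at this
    exact this
  · funext k
    rw [hP, map_prod, Finset.prod_ne_zero_iff] at hx2
    have h1 := hx2 k (Finset.mem_univ k)
    rw [map_sub, map_one, map_pow, map_sub, eval_C] at h1
    have h2 : eval x (ell e k) - y k = 0 := by
      by_contra h
      rw [ZMod.pow_card_sub_one_eq_one h, sub_self] at h1
      exact h1 rfl
    have h3 : eval x (ell e k) = ∑ j : ι, e j k * x j := by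
      rw [ell, map_sum]
      refine Finset.sum_congr rfl fun j _ => ?_
      rw [map_mul, eval_C, eval_X]
    rw [← sub_eq_zero.1 h2, h3, Fintype.sum_prod_type, Finset.sum_apply]
    refine Finset.sum_congr rfl fun a _ => ?_
    change T a (fun i => x (a, i)) k = _
    conv_lhs => rw [← Finset.univ_sum_single (fun i => x (a, i)), map_sum, Finset.sum_apply]
    refine Finset.sum_congr rfl fun i _ => ?_
    have : (Pi.single i (x (a, i)) : Fin n → ZMod p) = x (a, i) • Pi.single i 1 := by
      rw [← Pi.single_smul, smul_eq_mul, mul_one]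
    rw [this, map_smul, Pi.smul_apply, smul_eq_mul, mul_comm]

end Pool.Agent.J6H62.AB
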