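import Pool.Agent.J6H62.AB.Vn

set_option autoImplicit false

/-!
Rank one computations and extensions.
-/

namespace Pool.Agent.J6H62.AB

section rank
variable {K : Type} [Field K] {V : Type} [AddCommGroup V] [Module K V]

/-- A pair of operators exhibiting `V` as a double. -/
structure TS (π : ℤ → Module.End K V) (t σ : Module.End K V) : Prop where
  tt : t * t = 0
  ss : σ * σ = 0
  st : σ * t + t * σ = 1
  tπ : ∀ a, t * π a = π (a + 2) * t
  sπ : ∀ a, σ * π a = π (a - 2) * σ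

/-- Vanishing of rank one cohomology in low levels. -/
def R1 (p : ℕ) (π : ℤ → Module.End K V) (s : ℤ) (d : ℕ) (U : Submodule K V)
    (w : Module.End K V) : Prop :=
  ∀ x ∈ U, ∀ (l : ℤ) (a : ℕ), a ≤ p → π l x = x → (w ^ a) x = 0 → l - s + a - 1 < d →
    ∃ y ∈ U, x = (w ^ (p - a)) y

theorem pw_add {w t : Module.End K V} (h : Commute w t) (htt : t * t = 0) (c : K) (n : ℕ) :
    (w + c • t) ^ n = w ^ n + ((n : K) * c) • (t * w ^ (n - 1)) := by
  induction n with
  | zero => simp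
  | succ n ih =>
    rcases Nat.eq_zero_or_pos n with hn | hn
    · subst hn; simp
    · obtain ⟨k, rfl⟩ : ∃ k, n = k + 1 := ⟨n - 1, by omega⟩
      have h1 : t * w ^ k * t = 0 := by
        rw [mul_assoc, (h.pow_left k).eq, ← mul_assoc, htt, zero_mul]
      rw [pow_succ, ih, Nat.add_sub_cancel, Nat.add_sub_cancel, add_mul, mul_add, mul_add,
        ← pow_succ, mul_smul_comm, (h.pow_left (k + 1)).eq, smul_mul_assoc, smul_mul_assoc,
        mul_smul_comm, h1, smul_zero, smul_zero, add_zero, mul_assoc, ← pow_succ, add_assoc,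
        ← add_smul]
      congr 2
      push_cast
      ring

theorem R1_step (p : ℕ) [hp : Fact p.Prime] [CharP K p] (π : ℤ → Module.End K V) (s : ℤ) (d : ℕ)
    (U : Submodule K V) (w t σ : Module.End K V) (c : K) (hc : c ≠ 0) (hTS : TS π t σ)
    (hwt : Commute w t) (hwσ : Commute w σ) (hwπ : ∀ a, w * π a = π (a + 2) * w)
    (hUt : ∀ x ∈ U, t x ∈ U) (hUσ : ∀ x ∈ U, σ x ∈ U) (hUw : ∀ x ∈ U, w x ∈ U)
    (hR : R1 p π s d (U ⊓ LinearMap.ker σ) w) :
    R1 p π s (d + 1) U (w + c • t) := by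
  intro x hx l a ha hl h0 hd
  rcases Nat.eq_zero_or_pos a with ha0 | ha0
  · subst ha0
    have hx0 : x = 0 := h0
    exact ⟨0, zero_mem _, by rw [hx0, map_zero]⟩
  rcases Nat.eq_or_lt_of_le ha with hap | hap
  · exact ⟨x, hx, by rw [hap, Nat.sub_self, pow_zero]; rfl⟩
  have apσ : ∀ (n : ℕ) v, σ v = 0 → σ ((w ^ n) v) = 0 := by
    intro n v hv
    have h1 := LinearMap.congr_fun (hwσ.pow_left n).eq v
    rw [Module.End.mul_apply, Module.End.mul_apply, hv, map_zero] at h1
    exact h1.symm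
  have apt : ∀ (n : ℕ) v, t ((w ^ n) v) = (w ^ n) (t v) := by
    intro n v
    exact (LinearMap.congr_fun (hwt.pow_left n).eq v).symm
  have hσσ : ∀ v, σ (σ v) = 0 := fun v => LinearMap.congr_fun hTS.ss v
  have htt : ∀ v, t (t v) = 0 := fun v => LinearMap.congr_fun hTS.tt v
  have hst : ∀ v, σ (t v) + t (σ v) = v := fun v => LinearMap.congr_fun hTS.st v
  have hst' : ∀ v, σ v = 0 → σ (t v) = v := fun v hv => by
    have := hst v
    rwa [hv, map_zero, add_zero] at this
  set x1 := σ x with hx1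
  set x0 := σ (t x) with hx0
  have hx01 : x = x0 + t x1 := (hst x).symm
  have m1 : x1 ∈ U ⊓ LinearMap.ker σ := ⟨hUσ _ hx, hσσ x⟩
  have m0 : x0 ∈ U ⊓ LinearMap.ker σ := ⟨hUσ _ (hUt _ hx), hσσ _⟩
  have pwv : ∀ (n : ℕ) (u v : V), ((w + c • t) ^ n) (u + t v) =
      (w ^ n) u + t (((n : K) * c) • (w ^ (n - 1)) u + (w ^ n) v) := by
    intro n u v
    rw [pw_add hwt hTS.tt, map_add, LinearMap.add_apply, LinearMap.add_apply,
      LinearMap.smul_apply, LinearMap.smul_apply, Module.End.mul_apply, Module.End.mul_apply,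
      apt, apt, htt, map_zero, smul_zero, add_zero, map_add, map_smul, apt, apt]
    abel
  have h1 : (w ^ a) x0 + t (((a : K) * c) • (w ^ (a - 1)) x0 + (w ^ a) x1) = 0 := by
    rw [← pwv, ← hx01, h0]
  have A2 : ((a : K) * c) • (w ^ (a - 1)) x0 + (w ^ a) x1 = 0 := by
    have h2 := congrArg σ h1
    rw [map_add, apσ a x0 m0.2, zero_add, map_zero, hst'] at h2
    · exact h2
    · rw [map_add, map_smul, apσ _ _ m0.2, apσ _ _ m1.2, smul_zero, add_zero]
  have A1 : (w ^ a) x0 = 0 := by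
    rw [A2, map_zero, add_zero] at h1
    exact h1
  have hac : (a : K) * c ≠ 0 := by
    refine mul_ne_zero ?_ hc
    intro h
    rw [CharP.cast_eq_zero_iff K p] at h
    exact absurd (Nat.le_of_dvd ha0 h) (by omega)
  have B1 : (w ^ (a + 1)) x1 = 0 := by
    have h3 : (w ^ a) x1 = -(((a : K) * c) • (w ^ (a - 1)) x0) :=
      eq_neg_of_add_eq_zero_right A2
    rw [pow_succ', Module.End.mul_apply, h3, map_neg, map_smul, ← Module.End.mul_apply,
      mul_pow_sub_one (by omega), A1, smul_zero, neg_zero]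
  have lx1 : π (l - 2) x1 = x1 := by
    have := LinearMap.congr_fun (hTS.sπ l) x
    rw [Module.End.mul_apply, Module.End.mul_apply, hl] at this
    exact this.symm
  have lx0 : π l x0 = x0 := by
    have h4 := LinearMap.congr_fun (hTS.tπ l) x
    rw [Module.End.mul_apply, Module.End.mul_apply, hl] at h4
    have h5 := LinearMap.congr_fun (hTS.sπ (l + 2)) (t x)
    rw [Module.End.mul_apply, Module.End.mul_apply, ← h4, add_sub_cancel_right] at h5
    exact h5.symm
  obtain ⟨z1, mz1, hz1⟩ := hR x1 m1 (l - 2) (a + 1) (by omega) lx1 B1 (by push_cast; omega)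
  have hwx1 : w x1 ∈ U ⊓ LinearMap.ker σ :=
    ⟨hUw _ m1.1, by
      have := apσ 1 x1 m1.2
      rw [pow_one] at this
      exact this⟩
  have m2 : ((a : K) * c) • x0 + w x1 ∈ U ⊓ LinearMap.ker σ :=
    Submodule.add_mem _ (Submodule.smul_mem _ _ m0) hwx1
  have lw : π l (w x1) = w x1 := by
    have h6 := LinearMap.congr_fun (hwπ (l - 2)) x1
    rw [Module.End.mul_apply, Module.End.mul_apply, lx1, sub_add_cancel] at h6
    exact h6.symm
  obtain ⟨z0, mz0, hz0⟩ := hR _ m2 l (a - 1) (by omega)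
    (by rw [map_add, map_smul, lx0, lw])
    (by
      rw [map_add, map_smul, ← Module.End.mul_apply (w ^ (a - 1)) w, pow_sub_one_mul (by omega)]
      exact A2)
    (by push_cast [Nat.one_le_iff_ne_zero.2 ha0.ne']; omega)
  have e1 : p - (a - 1) = p - a + 1 := by omega
  have e2 : p - (a + 1) = p - a - 1 := by omega
  rw [e1] at hz0
  rw [e2] at hz1
  set y0 := ((a : K) * c)⁻¹ • (w z0 - z1) with hy0
  have my0 : y0 ∈ U := Submodule.smul_mem _ _ (Submodule.sub_mem _ (hUw _ mz0.1) mz1.1)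
  have hy0' : ((a : K) * c) • y0 = w z0 - z1 := by
    rw [hy0, smul_smul, mul_inv_cancel₀ hac, one_smul]
  have Y0 : (w ^ (p - a)) y0 = x0 := by
    rw [hy0, map_smul, map_sub]
    have h7 : (w ^ (p - a)) (w z0) = ((a : K) * c) • x0 + w x1 := by
      rw [hz0, ← Module.End.mul_apply, ← pow_succ]
    have h8 : (w ^ (p - a)) z1 = w x1 := by
      rw [hz1, ← Module.End.mul_apply, mul_pow_sub_one (by omega)]
    rw [h7, h8, add_sub_cancel_right, smul_smul, inv_mul_cancel₀ hac, one_smul]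
  refine ⟨y0 + t z0, Submodule.add_mem _ my0 (hUt _ mz0.1), ?_⟩
  rw [pwv, Y0]
  have hcast : ((p - a : ℕ) : K) = -(a : K) := by
    rw [Nat.cast_sub ha, CharP.cast_eq_zero, zero_sub]
  have h9 : (((p - a : ℕ) : K) * c) • (w ^ (p - a - 1)) y0 + (w ^ (p - a)) z0 = x1 := by
    rw [hcast, neg_mul, neg_smul, ← map_smul, hy0', map_sub, ← hz1,
      ← Module.End.mul_apply (w ^ (p - a - 1)) w, pow_sub_one_mul (by omega)]
    abel
  rw [h9]
  exact hx01

theorem R1_all (p : ℕ) [hp : Fact p.Prime] [CharP K p] (π : ℤ → Module.End K V) (s : ℤ)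
    {ι : Type} [DecidableEq ι] (t σ : ι → Module.End K V) (c : ι → K) (J : Finset ι) :
    ∀ (U : Submodule K V) (w : Module.End K V),
      (∀ j ∈ J, c j ≠ 0) → (∀ j ∈ J, TS π (t j) (σ j)) →
      (∀ j ∈ J, ∀ k ∈ J, Commute (t j) (t k)) →
      (∀ j ∈ J, ∀ k ∈ J, j ≠ k → Commute (t j) (σ k)) →
      (∀ j ∈ J, ∀ k ∈ J, j ≠ k → Commute (σ j) (σ k)) →
      (∀ j ∈ J, Commute w (t j)) →
      (∀ j ∈ J, w * σ j - σ j * w = c j • (t j * σ j - σ j * t j)) →
      (∀ a, w * π a = π (a + 2) * w) →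
      (∀ j ∈ J, ∀ x ∈ U, t j x ∈ U) → (∀ j ∈ J, ∀ x ∈ U, σ j x ∈ U) →
      (∀ x ∈ U, w x ∈ U) → (∀ l < s, ∀ v, π l v = v → v = 0) →
      R1 p π s J.card U w := by
  induction J using Finset.induction_on with
  | empty =>
    intro U w _ _ _ _ _ _ _ _ _ _ _ hlev x hx l a ha hl h0 hd
    by_cases hls : l < s
    · exact ⟨0, zero_mem _, by rw [hlev l hls x hl, map_zero]⟩
    · have ha0 : a = 0 := by
        rw [Finset.card_empty] at hd
        push_cast at hd
        omega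
      subst ha0
      have : x = 0 := h0
      exact ⟨0, zero_mem _, by rw [this, map_zero]⟩
  | insert j J hj ih =>
    intro U w hc hTS htt htσ hσσ hwt hwσ hwπ hUt hUσ hUw hlev
    have hjm := Finset.mem_insert_self j J
    have hTSj := hTS j hjm
    set w' := w - c j • t j with hw'
    have hww : w = w' + c j • t j := by rw [hw']; abel
    have hw't : ∀ k ∈ insert j J, Commute w' (t k) := fun k hk =>
      (hwt k hk).sub_left ((htt j hjm k hk).smul_left _)
    have hw'σ : Commute w' (σ j) := by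
      have h1 := hwσ j hjm
      change w' * σ j = σ j * w'
      rw [hw', sub_mul, mul_sub, smul_mul_assoc, mul_smul_comm]
      rw [smul_sub] at h1
      rw [sub_eq_sub_iff_add_eq_add]
      rw [sub_eq_sub_iff_add_eq_add] at h1
      exact h1.trans (add_comm _ _)
    have hw'π : ∀ a, w' * π a = π (a + 2) * w' := fun a => by
      rw [hw', sub_mul, mul_sub, smul_mul_assoc, mul_smul_comm, hwπ, hTSj.tπ]
    have hUw' : ∀ x ∈ U, w' x ∈ U := fun x hx => by
      rw [hw', LinearMap.sub_apply, LinearMap.smul_apply]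
      exact Submodule.sub_mem _ (hUw x hx) (Submodule.smul_mem _ _ (hUt j hjm x hx))
    have kerst : ∀ f : Module.End K V, Commute f (σ j) → ∀ x ∈ LinearMap.ker (σ j),
        f x ∈ LinearMap.ker (σ j) := by
      intro f hf x hx
      rw [LinearMap.mem_ker] at hx ⊢
      have h1 := LinearMap.congr_fun hf.eq x
      rw [Module.End.mul_apply, Module.End.mul_apply, hx, map_zero] at h1
      exact h1.symm
    have hne : ∀ k ∈ J, k ≠ j := fun k hk h => hj (h ▸ hk)
    rw [hww, Finset.card_insert_of_notMem hj]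
    refine R1_step p π s J.card U w' (t j) (σ j) (c j) (hc j hjm) hTSj (hw't j hjm) hw'σ hw'π
      (hUt j hjm) (hUσ j hjm) hUw' ?_
    refine ih (U ⊓ LinearMap.ker (σ j)) w' (fun k hk => hc k (Finset.mem_insert_of_mem hk))
      (fun k hk => hTS k (Finset.mem_insert_of_mem hk))
      (fun k hk l hl => htt k (Finset.mem_insert_of_mem hk) l (Finset.mem_insert_of_mem hl))
      (fun k hk l hl => htσ k (Finset.mem_insert_of_mem hk) l (Finset.mem_insert_of_mem hl))
      (fun k hk l hl => hσσ k (Finset.mem_insert_of_mem hk) l (Finset.mem_insert_of_mem hl))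
      (fun k hk => hw't k (Finset.mem_insert_of_mem hk)) ?_ hw'π ?_ ?_ ?_ hlev
    · intro k hk
      have h1 := hwσ k (Finset.mem_insert_of_mem hk)
      have h2 := (htσ j hjm k (Finset.mem_insert_of_mem hk) (hne k hk).symm).eq
      rw [hw', sub_mul, mul_sub, smul_mul_assoc, mul_smul_comm, h2, ← h1]
      abel
    · intro k hk x hx
      exact ⟨hUt k (Finset.mem_insert_of_mem hk) x hx.1,
        kerst _ (htσ k (Finset.mem_insert_of_mem hk) j hjm (hne k hk)) x hx.2⟩
    · intro k hk x hx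
      exact ⟨hUσ k (Finset.mem_insert_of_mem hk) x hx.1,
        kerst _ (hσσ k (Finset.mem_insert_of_mem hk) j hjm (hne k hk)) x hx.2⟩
    · intro x hx
      exact ⟨hUw' x hx.1, kerst _ hw'σ x hx.2⟩

end rank

section ext
variable {K : Type} [Field K] {p m : ℕ}

/-- Iterated extension structure. -/
structure EX {ι : Type} (M : GMod K p m) (J : Finset ι) (e : ι → Fin m → K) (s : ℤ)
    (t σ : ι → Module.End K M.V) : Prop where
  ts : ∀ j ∈ J, TS M.π (t j) (σ j)
  tt : ∀ j ∈ J, ∀ k ∈ J, Commute (t j) (t k)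
  tσ : ∀ j ∈ J, ∀ k ∈ J, j ≠ k → Commute (t j) (σ k)
  σσ : ∀ j ∈ J, ∀ k ∈ J, j ≠ k → Commute (σ j) (σ k)
  xt : ∀ i, ∀ j ∈ J, Commute (M.x i) (t j)
  xσ : ∀ i, ∀ j ∈ J, M.x i * σ j - σ j * M.x i = e j i • (t j * σ j - σ j * t j)
  lev : ∀ l < s, ∀ v, M.π l v = v → v = 0

theorem EX.tl {ι : Type} {M : GMod K p (m + 1)} {J : Finset ι} {e : ι → Fin (m + 1) → K}
    {s : ℤ} {t σ : ι → Module.End K M.V} (h : EX M J e s t σ) :
    EX M.tl J (fun j i => e j i.succ) s t σ where
  ts := h.ts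
  tt := h.tt
  tσ := h.tσ
  σσ := h.σσ
  xt := fun i => h.xt i.succ
  xσ := fun i => h.xσ i.succ
  lev := h.lev

theorem EX.mono {ι : Type} {M : GMod K p m} {J J' : Finset ι} {e : ι → Fin m → K}
    {s : ℤ} {t σ : ι → Module.End K M.V} (h : EX M J e s t σ) (hJ : J' ⊆ J) :
    EX M J' e s t σ where
  ts := fun j hj => h.ts j (hJ hj)
  tt := fun j hj k hk => h.tt j (hJ hj) k (hJ hk)
  tσ := fun j hj k hk => h.tσ j (hJ hj) k (hJ hk)
  σσ := fun j hj k hk => h.σσ j (hJ hj) k (hJ hk)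
  xt := fun i j hj => h.xt i j (hJ hj)
  xσ := fun i j hj => h.xσ i j (hJ hj)
  lev := h.lev

/-- The vectors in the new coordinates. -/
def ec {ι : Type} (e : ι → Fin (m + 1) → K) (c : Fin m → K) (j : ι) : Fin (m + 1) → K :=
  Fin.cons (e j 0 + ∑ i, c i * e j i.succ) (fun i => e j i.succ)

theorem EX.chg [Fact p.Prime] [CharP K p] {ι : Type} {M : GMod K p (m + 1)} {J : Finset ι}
    {e : ι → Fin (m + 1) → K} {s : ℤ} {t σ : ι → Module.End K M.V} (h : EX M J e s t σ)
    (c : Fin m → K) : EX (M.chg c Finset.univ) J (ec e c) s t σ where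
  ts := h.ts
  tt := h.tt
  tσ := h.tσ
  σσ := h.σσ
  xt := fun i j hj => by
    refine Fin.cases ?_ (fun i => ?_) i
    · change Commute (M.x 0 + ∑ i ∈ Finset.univ, c i • M.x i.succ) (t j)
      refine Commute.add_left (h.xt 0 j hj) ?_
      exact Commute.sum_left _ _ _ fun i _ => (h.xt i.succ j hj).smul_left _
    · exact h.xt i.succ j hj
  xσ := fun i j hj => by
    refine Fin.cases ?_ (fun i => ?_) i
    · change (M.x 0 + ∑ i ∈ Finset.univ, c i • M.x i.succ) * σ j -
        σ j * (M.x 0 + ∑ i ∈ Finset.univ, c i • M.x i.succ) =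
        (e j 0 + ∑ i, c i * e j i.succ) • (t j * σ j - σ j * t j)
      rw [add_mul, mul_add, Finset.sum_mul, Finset.mul_sum, add_smul, Finset.sum_smul,
        ← h.xσ 0 j hj, add_sub_add_comm, ← Finset.sum_sub_distrib]
      congr 1
      refine Finset.sum_congr rfl fun i _ => ?_
      rw [smul_mul_assoc, mul_smul_comm, ← smul_sub, h.xσ i.succ j hj, smul_smul]
    · exact h.xσ i.succ j hj
  lev := h.lev

theorem sq_mul {V : Type} [AddCommGroup V] [Module K V] (A B : Submodule K V)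
    (f g : Module.End K V) (hA : ∀ v ∈ A, f v ∈ A) (hB : ∀ v ∈ B, f v ∈ B)
    (hA' : ∀ v ∈ A, g v ∈ A) (hB' : ∀ v ∈ B, g v ∈ B)
    (hA'' : ∀ v ∈ A, (f * g) v ∈ A) (hB'' : ∀ v ∈ B, (f * g) v ∈ B) :
    sq A B f hA hB * sq A B g hA' hB' = sq A B (f * g) hA'' hB'' := by
  refine sq_ext A B _ _ fun v => ?_
  rfl

/-- Extensions pass to subquotients. -/
theorem EX.subq {ι : Type} {N : GMod K p m} {J : Finset ι}
    {e : ι → Fin m → K} {s s' : ℤ} {t σ : ι → Module.End K N.V} (h : EX N J e s t σ)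
    (f g : Module.End K N.V) (hfg : FG N f g)
    (hft : ∀ j ∈ J, Commute f (t j)) (hfσ : ∀ j ∈ J, Commute f (σ j))
    (hgt : ∀ j ∈ J, Commute g (t j)) (hgσ : ∀ j ∈ J, Commute g (σ j))
    (hlev : ∀ l < s', ∀ v, f v = 0 → N.π l v = v → ∃ y, v = g y) :
    ∃ t' σ' : ι → Module.End K (N.subq f g hfg).V, EX (N.subq f g hfg) J e s' t' σ' := by
  classical
  have kA : ∀ F : Module.End K N.V, Commute f F → ∀ v ∈ LinearMap.ker f,
      F v ∈ LinearMap.ker f := by
    intro F hF v hv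
    rw [LinearMap.mem_ker] at hv ⊢
    have h1 := LinearMap.congr_fun hF.eq v
    rw [Module.End.mul_apply, Module.End.mul_apply, hv, map_zero] at h1
    exact h1
  have kB : ∀ F : Module.End K N.V, Commute g F → ∀ v ∈ LinearMap.range g,
      F v ∈ LinearMap.range g := by
    rintro F hF v ⟨w, rfl⟩
    exact ⟨F w, LinearMap.congr_fun hF.eq w⟩
  let t' : ι → Module.End K (N.subq f g hfg).V := fun j =>
    if hj : j ∈ J then sq (LinearMap.ker f) (LinearMap.range g) (t j) (kA _ (hft j hj))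
      (kB _ (hgt j hj)) else 0
  let σ' : ι → Module.End K (N.subq f g hfg).V := fun j =>
    if hj : j ∈ J then sq (LinearMap.ker f) (LinearMap.range g) (σ j) (kA _ (hfσ j hj))
      (kB _ (hgσ j hj)) else 0
  have ht' : ∀ j (hj : j ∈ J), t' j = sq (LinearMap.ker f) (LinearMap.range g) (t j)
      (kA _ (hft j hj)) (kB _ (hgt j hj)) := fun j hj => dif_pos hj
  have hσ' : ∀ j (hj : j ∈ J), σ' j = sq (LinearMap.ker f) (LinearMap.range g) (σ j)
      (kA _ (hfσ j hj)) (kB _ (hgσ j hj)) := fun j hj => dif_pos hj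
  refine ⟨t', σ', ?_, ?_, ?_, ?_, ?_, ?_, ?_⟩
  · intro j hj
    have H := h.ts j hj
    rw [ht' j hj, hσ' j hj]
    refine ⟨?_, ?_, ?_, fun a => ?_, fun a => ?_⟩
    · refine sq_ext _ _ _ _ fun v => ?_
      simp only [Module.End.mul_apply, sq_mk]
      rw [LinearMap.zero_apply, ← map_zero (Submodule.mkQ _)]
      congr 1
      exact Subtype.ext (LinearMap.congr_fun H.tt v)
    · refine sq_ext _ _ _ _ fun v => ?_
      simp only [Module.End.mul_apply, sq_mk]
      rw [LinearMap.zero_apply, ← map_zero (Submodule.mkQ _)]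
      congr 1
      exact Subtype.ext (LinearMap.congr_fun H.ss v)
    · refine sq_ext _ _ _ _ fun v => ?_
      simp only [LinearMap.add_apply, Module.End.mul_apply, sq_mk, Module.End.one_apply]
      rw [← map_add]
      congr 1
      exact Subtype.ext (LinearMap.congr_fun H.st v)
    · refine sq_ext _ _ _ _ fun v => ?_
      simp only [Module.End.mul_apply, sq_mk]
      congr 1
      exact Subtype.ext (LinearMap.congr_fun (H.tπ a) v)
    · refine sq_ext _ _ _ _ fun v => ?_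
      simp only [Module.End.mul_apply, sq_mk]
      congr 1
      exact Subtype.ext (LinearMap.congr_fun (H.sπ a) v)
  · intro j hj k hk
    rw [ht' j hj, ht' k hk]
    exact sq_comm _ _ _ _ _ _ _ _ (h.tt j hj k hk)
  · intro j hj k hk hjk
    rw [ht' j hj, hσ' k hk]
    exact sq_comm _ _ _ _ _ _ _ _ (h.tσ j hj k hk hjk)
  · intro j hj k hk hjk
    rw [hσ' j hj, hσ' k hk]
    exact sq_comm _ _ _ _ _ _ _ _ (h.σσ j hj k hk hjk)
  · intro i j hj
    rw [ht' j hj]
    exact sq_comm _ _ _ _ (hfg.xA i) (hfg.xB i) _ _ (h.xt i j hj)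
  · intro i j hj
    rw [ht' j hj, hσ' j hj]
    refine sq_ext _ _ _ _ fun v => ?_
    simp only [LinearMap.sub_apply, LinearMap.smul_apply, Module.End.mul_apply, sq_mk]
    rw [← map_sub, ← map_sub, ← map_smul]
    congr 1
    exact Subtype.ext (LinearMap.congr_fun (h.xσ i j hj) v)
  · intro l hl q hq
    obtain ⟨v, rfl⟩ := Submodule.mkQ_surjective _ q
    rw [sq_mk] at hq
    rw [← hq, ← LinearMap.mem_ker, Submodule.ker_mkQ]
    obtain ⟨y, hy⟩ := hlev l hl (N.π l v) (hfg.πA l v v.2) (LinearMap.congr_fun (N.ππ l) v)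
    exact ⟨y, hy.symm⟩

theorem EX.hev [hp : Fact p.Prime] [CharP K p] {ι : Type} {M : GMod K p (m + 1)}
    {J : Finset ι} {e : ι → Fin (m + 1) → K} {s : ℤ} {t σ : ι → Module.End K M.V}
    (h : EX M J e s t σ) (J₀ J₁ : Finset ι) (h₀ : J₀ ⊆ J) (h₁ : J₁ ⊆ J)
    (he₀ : ∀ j ∈ J₀, e j 0 = 0) (he₁ : ∀ j ∈ J₁, e j 0 ≠ 0) :
    (∃ t' σ', EX M.Hev J₀ (fun j i => e j i.succ) (s + J₁.card) t' σ') ∧
    (∃ t' σ', EX M.Hod J₀ (fun j i => e j i.succ) (s + J₁.card - ((p : ℤ) - 2)) t' σ') := by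
  classical
  have hR : R1 p M.π s J₁.card ⊤ (M.x 0) :=
    R1_all p M.π s t σ (fun j => e j 0) J₁ ⊤ (M.x 0) he₁
      (fun j hj => h.ts j (h₁ hj)) (fun j hj k hk => h.tt j (h₁ hj) k (h₁ hk))
      (fun j hj k hk => h.tσ j (h₁ hj) k (h₁ hk)) (fun j hj k hk => h.σσ j (h₁ hj) k (h₁ hk))
      (fun j hj => h.xt 0 j (h₁ hj)) (fun j hj => h.xσ 0 j (h₁ hj)) (M.xπ 0)
      (fun _ _ _ _ => trivial) (fun _ _ _ _ => trivial) (fun _ _ => trivial) h.lev
  have hct : ∀ j ∈ J₀, Commute (M.x 0) (t j) := fun j hj => h.xt 0 j (h₀ hj)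
  have hcσ : ∀ j ∈ J₀, Commute (M.x 0) (σ j) := fun j hj => by
    have h1 := h.xσ 0 j (h₀ hj)
    rw [he₀ j hj, zero_smul] at h1
    exact sub_eq_zero.1 h1
  have hp2 := hp.out.two_le
  constructor
  · refine EX.subq (h.tl.mono h₀) (M.x 0) (M.x 0 ^ (p - 1)) M.fgEv hct hcσ
      (fun j hj => (hct j hj).pow_left _) (fun j hj => (hcσ j hj).pow_left _) ?_
    intro l hl v hv hl'
    obtain ⟨y, -, hy⟩ := hR v trivial l 1 (by omega) hl' (by rw [pow_one]; exact hv)
      (by push_cast; omega)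
    exact ⟨y, hy⟩
  · refine EX.subq (h.tl.mono h₀) (M.x 0 ^ (p - 1)) (M.x 0) M.fgOd
      (fun j hj => (hct j hj).pow_left _) (fun j hj => (hcσ j hj).pow_left _) hct hcσ ?_
    intro l hl v hv hl'
    obtain ⟨y, -, hy⟩ := hR v trivial l (p - 1) (by omega) hl' hv
      (by push_cast [hp.out.one_le]; omega)
    have e1 : p - (p - 1) = 1 := by omega
    rw [e1, pow_one] at hy
    exact ⟨y, hy⟩

end ext

end Pool.Agent.J6H62.AB
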