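import Pool.Agent.J6H62.AB.Bc

set_option autoImplicit false

/-!
Support of the cohomology.
-/

namespace Pool.Agent.J6H62.AB

open TensorProduct MvPolynomial

section
variable {K : Type} [Field K] {p m : ℕ}

theorem map_smul_gen {R : Type} [CommRing R] [Algebra K R] {V : Type} [AddCommGroup V]
    [Module K V] (a : R) (g : Module.End K V) (r : R) (w : R ⊗[K] V) :
    TensorProduct.map (LinearMap.mulLeft K a) g (r • w) =
      r • TensorProduct.map (LinearMap.mulLeft K a) g w := by
  induction w using TensorProduct.induction_on with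
  | zero => simp
  | add a b ha hb => rw [smul_add, map_add, ha, hb, map_add, smul_add]
  | tmul b c =>
    rw [TensorProduct.smul_tmul', TensorProduct.map_tmul, TensorProduct.map_tmul,
      TensorProduct.smul_tmul', LinearMap.mulLeft_apply, LinearMap.mulLeft_apply, smul_eq_mul,
      smul_eq_mul]
    congr 1
    ring

theorem tmap_sub_left {R V : Type} [AddCommGroup R] [Module K R] [AddCommGroup V]
    [Module K V] (f f' : Module.End K R) (g : Module.End K V) :
    TensorProduct.map (f - f') g = TensorProduct.map f g - TensorProduct.map f' g := by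
  refine TensorProduct.ext' fun a b => ?_
  simp only [TensorProduct.map_tmul, LinearMap.sub_apply, TensorProduct.sub_tmul]

theorem tmap_sub_right {R V : Type} [AddCommGroup R] [Module K R] [AddCommGroup V]
    [Module K V] (f : Module.End K R) (g g' : Module.End K V) :
    TensorProduct.map f (g - g') = TensorProduct.map f g - TensorProduct.map f g' := by
  refine TensorProduct.ext' fun a b => ?_
  simp only [TensorProduct.map_tmul, LinearMap.sub_apply, TensorProduct.tmul_sub]

theorem lx_smul_comm {R : Type} [CommRing R] [Algebra K R] {V : Type} [AddCommGroup V]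
    [Module K V] (m : ℕ) (c : K) (r : R) (z : Lx (R ⊗[K] V) m) : c • r • z = r • c • z := by
  have h : ∀ z : Lx (R ⊗[K] V) m, c • z = mp (c • (1 : Module.End K (R ⊗[K] V))) m z := by
    intro z
    rw [mp_map_smul, mp_one]
  rw [h, h, mp_smul _ r]
  intro w
  exact smul_comm c r w

/-- The new parameters. -/
noncomputable def bs {m : ℕ} (lam : K) (c : Fin m → K) (p : ℕ) (b : Fin m → Sp K m)
    (s : Finset (Fin m)) (i : Fin m) : Sp K m :=
  if i ∈ s then b i - C (lam * c i ^ p) else b i

theorem mulLeft_C_smul {m : ℕ} (a b : K) :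
    LinearMap.mulLeft K (C (a * b) : Sp K m) = b • LinearMap.mulLeft K (C a : Sp K m) := by
  refine LinearMap.ext fun s => ?_
  rw [LinearMap.smul_apply, LinearMap.mulLeft_apply, LinearMap.mulLeft_apply, ← smul_eq_C_mul,
    ← smul_eq_C_mul, smul_smul, mul_comm]

theorem mulLeft_sub' {R : Type} [CommRing R] [Algebra K R] (a b : R) :
    LinearMap.mulLeft K (a - b) = LinearMap.mulLeft K a - LinearMap.mulLeft K b := by
  refine LinearMap.ext fun s => ?_
  simp only [LinearMap.sub_apply, LinearMap.mulLeft_apply, sub_mul]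

theorem bc_all [hp : Fact p.Prime] [CharP K p] (M : GMod K p (m + 1)) (lam : K) (c : Fin m → K)
    (b : Fin m → Sp K m) (s : Finset (Fin m)) :
    Tw (Sp K m) (tP (Sp K m) M) ((p : ℤ) - 2)
      (tB M (Fin.cons (C lam) b : Fin (m + 1) → Sp K m)) (tX (Sp K m) M)
      (tB (M.chg c s) (Fin.cons (C lam) (bs lam c p b s) : Fin (m + 1) → Sp K m))
      (tX (Sp K m) (M.chg c s)) := by
  classical
  induction s using Finset.induction_on with
  | empty =>
    have e1 : tB M (Fin.cons (C lam) b : Fin (m + 1) → Sp K m) =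
        tB (M.chg c ∅) (Fin.cons (C lam) (bs lam c p b ∅) : Fin (m + 1) → Sp K m) := by
      funext i
      refine Fin.cases ?_ (fun i => ?_) i
      · simp [tB, GMod.chg, GMod.chi]
      · simp [tB, GMod.chg, bs]
    have e2 : tX (Sp K m) M = tX (Sp K m) (M.chg c ∅) := by
      funext i
      refine Fin.cases ?_ (fun i => ?_) i
      · simp [tX, GMod.chg, GMod.chi]
      · simp [tX, GMod.chg]
    rw [e1, e2]
    exact Tw.refl _ _ _ _ _
  | insert k s hk ih =>
    refine ih.trans ?_
    obtain ⟨g, g1, g2, g3, g4, g5⟩ := exists_g p (M.chi c s) (M.x k.succ) (M.chi_comm c s _) (c k)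
    have hchi : M.chi c (insert k s) = M.chi c s + c k • M.x k.succ := by
      rw [GMod.chi, GMod.chi, Finset.sum_insert hk]
      abel
    refine Tw.step _ _ _ _ _ _ k
      (TensorProduct.map (LinearMap.mulLeft K (C lam : Sp K m)) g)
      (TensorProduct.map (LinearMap.mulLeft K (C lam : Sp K m))
        (c k ^ p • M.x k.succ ^ (p - 1))) (c k) ?_ ?_ ?_ ?_ ?_ ?_ ?_ ?_ ?_ ?_ ?_ ?_
    · change TensorProduct.map (LinearMap.mulLeft K (C lam : Sp K m))
          ((M.chi c (insert k s)) ^ (p - 1)) =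
        TensorProduct.map (LinearMap.mulLeft K (C lam : Sp K m)) ((M.chi c s) ^ (p - 1)) +
        TensorProduct.map (LinearMap.mulLeft K (C lam : Sp K m)) g *
          TensorProduct.map (1 : Module.End K (Sp K m)) (M.x k.succ)
      rw [← TensorProduct.map_mul, mul_one, ← TensorProduct.map_add_right, hchi, g1]
    · change TensorProduct.map (LinearMap.mulLeft K (bs lam c p b (insert k s) k))
          (M.x k.succ ^ (p - 1)) =
        TensorProduct.map (LinearMap.mulLeft K (bs lam c p b s k)) (M.x k.succ ^ (p - 1)) -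
        TensorProduct.map (LinearMap.mulLeft K (C lam : Sp K m))
          (c k ^ p • M.x k.succ ^ (p - 1))
      rw [bs, bs, if_pos (Finset.mem_insert_self k s), if_neg hk, mulLeft_sub',
        mulLeft_C_smul, TensorProduct.map_smul_right, ← TensorProduct.map_smul_left,
        tmap_sub_left]
    · intro i hi
      change TensorProduct.map (LinearMap.mulLeft K (bs lam c p b (insert k s) i))
          (M.x i.succ ^ (p - 1)) =
        TensorProduct.map (LinearMap.mulLeft K (bs lam c p b s i)) (M.x i.succ ^ (p - 1))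
      have : bs lam c p b (insert k s) i = bs lam c p b s i := by
        rw [bs, bs]
        simp only [Finset.mem_insert, hi, false_or]
      rw [this]
    · change TensorProduct.map (1 : Module.End K (Sp K m)) (M.chi c (insert k s)) =
        TensorProduct.map (1 : Module.End K (Sp K m)) (M.chi c s) +
        c k • TensorProduct.map (1 : Module.End K (Sp K m)) (M.x k.succ)
      rw [hchi, TensorProduct.map_add_right, TensorProduct.map_smul_right]
    · intro i
      rfl
    · change TensorProduct.map (LinearMap.mulLeft K (C lam : Sp K m)) g *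
          TensorProduct.map (1 : Module.End K (Sp K m)) (M.chi c s) =
        TensorProduct.map (LinearMap.mulLeft K (C lam : Sp K m))
          (c k ^ p • M.x k.succ ^ (p - 1)) -
        c k • TensorProduct.map (LinearMap.mulLeft K (C lam : Sp K m))
          ((M.chi c (insert k s)) ^ (p - 1))
      rw [← TensorProduct.map_mul, mul_one, g2, hchi, tmap_sub_right,
        TensorProduct.map_smul_right (c k)]
    · change TensorProduct.map (1 : Module.End K (Sp K m)) (M.chi c (insert k s)) *
          TensorProduct.map (LinearMap.mulLeft K (C lam : Sp K m)) g =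
        TensorProduct.map (LinearMap.mulLeft K (C lam : Sp K m))
          (c k ^ p • M.x k.succ ^ (p - 1)) -
        c k • TensorProduct.map (LinearMap.mulLeft K (C lam : Sp K m))
          ((M.chi c s) ^ (p - 1))
      rw [← TensorProduct.map_mul, one_mul, hchi, g3, tmap_sub_right,
        TensorProduct.map_smul_right (c k)]
    · intro i
      exact map_comm (Commute.one_right _)
        (g4 _ (M.chi_comm c s _).symm (M.xx _ _)).symm
    · intro i
      exact map_comm (mulLeft_comm _ _)
        ((g4 _ ((M.chi_comm c s i.succ).symm) (M.xx _ _)).symm.pow_right _)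
    · intro i
      have := g5 M.π (M.chi_π c s) (M.xπ _) i
      change TensorProduct.map (LinearMap.mulLeft K (C lam : Sp K m)) g *
          TensorProduct.map (1 : Module.End K (Sp K m)) (M.π i) =
        TensorProduct.map (1 : Module.End K (Sp K m)) (M.π _) *
          TensorProduct.map (LinearMap.mulLeft K (C lam : Sp K m)) g
      rw [← TensorProduct.map_mul, ← TensorProduct.map_mul, this, one_mul, mul_one]
    · intro r w
      exact map_smul_gen _ _ r w
    · intro r z
      exact lx_smul_comm m _ r z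

end

section krull
variable {K : Type} [Field K] {p m : ℕ}

/-- The range as a submodule over the polynomial ring. -/
noncomputable def Bd {R : Type} [CommRing R] [Algebra K R] (M : GMod K p m) (b : Fin m → R) :
    Submodule R (Lx (R ⊗[K] M.V) m) where
  carrier := {z | ∃ y, z = UD M b y}
  add_mem' := by
    rintro _ _ ⟨y, rfl⟩ ⟨y', rfl⟩
    exact ⟨y + y', (map_add _ _ _).symm⟩
  zero_mem' := ⟨0, (map_zero _).symm⟩
  smul_mem' := by
    rintro r _ ⟨y, rfl⟩
    exact ⟨r • y, (UD_smul M b r y).symm⟩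

theorem krull [hp : Fact p.Prime] (M : GMod K p (m + 1)) (lam : K) (hlam : lam ≠ 0) (μ : ℤ)
    (hev : ZZ M.Hev μ) (hod : ZZ M.Hod (μ - ((p : ℤ) - 2)))
    (z : Lx (Sp K m ⊗[K] M.V) (m + 1))
    (hz : UD M (Fin.cons (C lam) X : Fin (m + 1) → Sp K m) z = 0)
    (hμ : Lv (Sp K m) M μ z = z) :
    ∃ r ∈ idealOfVars (Fin m) K, ∃ y,
      (1 - r) • z = UD M (Fin.cons (C lam) X : Fin (m + 1) → Sp K m) y := by
  set b : Fin (m + 1) → Sp K m := Fin.cons (C lam) X with hb
  set B := Bd M b with hB
  set I := idealOfVars (Fin m) K with hI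
  have hmem : B.mkQ z ∈ (⨅ i : ℕ, I ^ i • ⊤ :
      Submodule (Sp K m) ((Lx (Sp K m ⊗[K] M.V) (m + 1)) ⧸ B)) := by
    rw [Submodule.mem_iInf]
    intro k
    obtain ⟨y, f₀, f₁, h1, -, -, h4⟩ := claimP M lam hlam μ hev hod z hz hμ (2 * k + m)
    have h5 : pr f₀ f₁ ∈ (I ^ k • ⊤ : Submodule (Sp K m) (Lx (Sp K m ⊗[K] M.V) (m + 1))) := by
      refine pr_mem _ _ _ (gr_small m M.V k m f₀ fun a ha => ?_)
        (gr_small m M.V k m f₁ fun a ha => ?_)
      · exact (h4 a (by push_cast; omega)).1
      · exact (h4 a (by push_cast; omega)).2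
    have h6 : B.mkQ z = B.mkQ (pr f₀ f₁) := by
      rw [Submodule.mkQ_apply, Submodule.mkQ_apply, Submodule.Quotient.eq]
      exact ⟨y, by rw [h1]; abel⟩
    rw [h6]
    have h7 : B.mkQ (pr f₀ f₁) ∈ Submodule.map B.mkQ
        (I ^ k • ⊤ : Submodule (Sp K m) (Lx (Sp K m ⊗[K] M.V) (m + 1))) := ⟨_, h5, rfl⟩
    rw [Submodule.map_smul''] at h7
    exact Submodule.smul_mono le_rfl le_top h7
  rw [Ideal.mem_iInf_smul_pow_eq_bot_iff] at hmem
  obtain ⟨r, hr⟩ := hmem
  refine ⟨r, r.2, ?_⟩
  have : B.mkQ ((1 - (r : Sp K m)) • z) = 0 := by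
    rw [map_smul, sub_smul, one_smul, hr, sub_self]
  rw [← LinearMap.mem_ker, Submodule.ker_mkQ] at this
  exact this

/-- The annihilator-type ideal. -/
noncomputable def Jd {R : Type} [CommRing R] [Algebra K R] (M : GMod K p m) (b : Fin m → R)
    (z : Lx (R ⊗[K] M.V) m) : Ideal R where
  carrier := {a | ∃ y, a • z = UD M b y}
  add_mem' := by
    rintro a a' ⟨y, hy⟩ ⟨y', hy'⟩
    exact ⟨y + y', by rw [add_smul, hy, hy', map_add]⟩
  zero_mem' := ⟨0, by rw [map_zero]; exact zero_smul R z⟩
  smul_mem' := by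
    rintro r a ⟨y, hy⟩
    exact ⟨r • y, by rw [smul_eq_mul, mul_smul, hy, UD_smul]⟩

theorem tmap_ring_smul {R R' : Type} [CommRing R] [Algebra K R] [CommRing R'] [Algebra K R']
    {V : Type} [AddCommGroup V] [Module K V] (ρ : R →ₐ[K] R') (r : R) (w : R ⊗[K] V) :
    TensorProduct.map ρ.toLinearMap (LinearMap.id : V →ₗ[K] V) (r • w) =
      ρ r • TensorProduct.map ρ.toLinearMap (LinearMap.id : V →ₗ[K] V) w := by
  induction w using TensorProduct.induction_on with
  | zero => simp
  | add a b ha hb => rw [smul_add, map_add, ha, hb, map_add, smul_add]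
  | tmul a c =>
    rw [TensorProduct.smul_tmul', TensorProduct.map_tmul, TensorProduct.map_tmul,
      TensorProduct.smul_tmul', smul_eq_mul, AlgHom.toLinearMap_apply, map_mul, smul_eq_mul]
    rfl

theorem mp_map_ring_smul {R R' : Type} [CommRing R] [Algebra K R] [CommRing R'] [Algebra K R']
    {V : Type} [AddCommGroup V] [Module K V] (ρ : R →ₐ[K] R') (m : ℕ) (r : R)
    (z : Lx (R ⊗[K] V) m) :
    mp (TensorProduct.map ρ.toLinearMap (LinearMap.id : V →ₗ[K] V)) m (r • z) =
      ρ r • mp (TensorProduct.map ρ.toLinearMap (LinearMap.id : V →ₗ[K] V)) m z := by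
  induction m with
  | zero =>
    exact tmap_ring_smul ρ r z
  | succ m ih =>
    obtain ⟨f, g, rfl⟩ := exists_pr z
    rw [pr_smul, mp_pr, mp_pr, pr_smul, ih, ih]

theorem mp_map_ring_comp {R R' : Type} [CommRing R] [Algebra K R] [CommRing R'] [Algebra K R']
    {V : Type} [AddCommGroup V] [Module K V] (ρ : R →ₐ[K] R') (σ : R' →ₐ[K] R) (m : ℕ)
    (h : σ.comp ρ = AlgHom.id K R) (z : Lx (R ⊗[K] V) m) :
    mp (TensorProduct.map σ.toLinearMap (LinearMap.id : V →ₗ[K] V)) m
      (mp (TensorProduct.map ρ.toLinearMap (LinearMap.id : V →ₗ[K] V)) m z) = z := by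
  rw [mp_mp, ← TensorProduct.map_comp, ← AlgHom.comp_toLinearMap, h]
  have : TensorProduct.map (AlgHom.id K R).toLinearMap
      ((LinearMap.id : V →ₗ[K] V).comp (LinearMap.id : V →ₗ[K] V)) =
      (LinearMap.id : R ⊗[K] V →ₗ[K] R ⊗[K] V) := by
    refine TensorProduct.ext' fun a b => ?_
    rfl
  rw [this, mp_id]

theorem Az [hp : Fact p.Prime] [CharP K p] [IsAlgClosed K] (M : GMod K p (m + 1)) (lam : K)
    (hlam : lam ≠ 0) (μ : ℤ)
    (hev : ∀ c, ZZ (M.chg c Finset.univ).Hev μ)
    (hod : ∀ c, ZZ (M.chg c Finset.univ).Hod (μ - ((p : ℤ) - 2)))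
    (z : Lx (Sp K m ⊗[K] M.V) (m + 1))
    (hz : UD M (Fin.cons (C lam) X : Fin (m + 1) → Sp K m) z = 0)
    (hμ : Lv (Sp K m) M μ z = z) :
    ∃ y, z = UD M (Fin.cons (C lam) X : Fin (m + 1) → Sp K m) y := by
  set J := Jd M (Fin.cons (C lam) X : Fin (m + 1) → Sp K m) z with hJ
  by_contra hcon
  have hJne : J ≠ ⊤ := by
    intro h
    have h1 : (1 : Sp K m) ∈ J := by rw [h]; exact Submodule.mem_top
    obtain ⟨y, hy⟩ := h1
    rw [one_smul] at hy
    exact hcon ⟨y, hy⟩
  obtain ⟨I, hI, hJI⟩ := Ideal.exists_le_maximal J hJne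
  obtain ⟨β, hβ⟩ := MvPolynomial.isMaximal_iff_eq_vanishingIdeal_singleton.1 hI
  have hev0 : ∀ a ∈ J, (MvPolynomial.aeval β : Sp K m →ₐ[K] K) a = 0 := by
    intro a ha
    have := hJI ha
    rw [hβ, mem_vanishingIdeal_singleton_iff] at this
    exact this
  have hroot : ∀ i, ∃ c : K, c ^ p = β i / lam := fun i =>
    IsAlgClosed.exists_pow_nat_eq _ hp.out.pos
  choose c hc using hroot
  have hc' : ∀ i, lam * c i ^ p = β i := fun i => by rw [hc, mul_div_cancel₀ _ hlam]
  obtain ⟨Ψ, Φ, t1, t2, t3, t4, t5⟩ := bc_all M lam c X Finset.univ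
  set M' := M.chg c Finset.univ with hM'
  set b' : Fin (m + 1) → Sp K m := Fin.cons (C lam) (bs lam c p X Finset.univ) with hb'
  let τ : Sp K m →ₐ[K] Sp K m := aeval fun i => X i + C (β i)
  let σ : Sp K m →ₐ[K] Sp K m := aeval fun i => X i - C (β i)
  have hστ : σ.comp τ = AlgHom.id K (Sp K m) := by
    refine MvPolynomial.algHom_ext fun i => ?_
    simp [σ, τ]
  have hτb : ∀ i, τ (b' i) = (Fin.cons (C lam) X : Fin (m + 1) → Sp K m) i := by
    intro i
    refine Fin.cases ?_ (fun i => ?_) i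
    · simp [hb', τ]
    · simp [hb', τ, bs, hc']
  have hσb : ∀ i, σ ((Fin.cons (C lam) X : Fin (m + 1) → Sp K m) i) = b' i := by
    intro i
    refine Fin.cases ?_ (fun i => ?_) i
    · simp [hb', σ]
    · simp [hb', σ, bs, hc']
  set T := mp (TensorProduct.map τ.toLinearMap (LinearMap.id : M'.V →ₗ[K] M'.V)) (m + 1) with hT
  set T' := mp (TensorProduct.map σ.toLinearMap (LinearMap.id : M'.V →ₗ[K] M'.V)) (m + 1) with hT'
  have hTD : ∀ w, T (UD M' b' w) = UD M' (Fin.cons (C lam) X : Fin (m + 1) → Sp K m) (T w) :=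
    mp_UD_ring M' τ b' _ hτb
  have hTD' : ∀ w, T' (UD M' (Fin.cons (C lam) X : Fin (m + 1) → Sp K m) w) = UD M' b' (T' w) :=
    mp_UD_ring M' σ _ b' hσb
  have hTL : ∀ w, T (Lv (Sp K m) M' μ w) = Lv (Sp K m) M' μ (T w) := mp_Lv_ring M' τ μ
  have hΨD : ∀ w, Ψ (UD M (Fin.cons (C lam) X : Fin (m + 1) → Sp K m) w) = UD M' b' (Ψ w) := t5
  have hΨL : ∀ w, Lv (Sp K m) M' μ (Ψ w) = Ψ (Lv (Sp K m) M μ w) := t4 μ
  obtain ⟨r, hr, y, hy⟩ := krull M' lam hlam μ (hev c) (hod c) (T (Ψ z))
    (by rw [← hTD, ← hΨD, hz, map_zero, map_zero]) (by rw [← hTL, hΨL, hμ])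
  have h1 : σ (1 - r) • Ψ z = UD M' b' (T' y) := by
    have h2 := congrArg T' hy
    rw [hTD', hT', mp_map_ring_smul, ← hT', hT, hT', mp_map_ring_comp τ σ (m + 1) hστ] at h2
    exact h2
  have h3 : σ (1 - r) ∈ J := by
    refine ⟨Φ (T' y), ?_⟩
    have h4 : Φ (UD M' b' (T' y)) = UD M (Fin.cons (C lam) X : Fin (m + 1) → Sp K m)
        (Φ (T' y)) := by
      have h5 := hΨD (Φ (T' y))
      rw [t2] at h5
      rw [← h5, t1]
    rw [← h4, ← h1, t3, t1]
  have h6 := hev0 _ h3
  have h7 : (MvPolynomial.aeval β : Sp K m →ₐ[K] K) (σ (1 - r)) =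
      (MvPolynomial.aeval (0 : Fin m → K) : Sp K m →ₐ[K] K) (1 - r) := by
    have : (MvPolynomial.aeval β : Sp K m →ₐ[K] K).comp σ =
        (MvPolynomial.aeval (0 : Fin m → K) : Sp K m →ₐ[K] K) := by
      refine MvPolynomial.algHom_ext fun i => ?_
      simp [σ]
    exact AlgHom.congr_fun this (1 - r)
  have h9 : (MvPolynomial.aeval (0 : Fin m → K) : Sp K m →ₐ[K] K) r = 0 := by
    have : idealOfVars (Fin m) K ≤
        RingHom.ker (MvPolynomial.aeval (0 : Fin m → K) : Sp K m →ₐ[K] K).toRingHom := by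
      rw [idealOfVars, Ideal.span_le]
      rintro _ ⟨i, rfl⟩
      simp
    exact this hr
  rw [h7, map_sub, map_one, h9, sub_zero] at h6
  exact one_ne_zero h6

end krull

end Pool.Agent.J6H62.AB
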