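import Pool.Agent.J6H62.AB.Gn

set_option autoImplicit false

/-!
Nonvanishing of the top power.
-/

namespace Pool.Agent.J6H62.AB

open TensorProduct MvPolynomial Module

section top
variable {K : Type} [Field K]

/-- The product of all the `x i ^ (p - 1)`. -/
def tp {V : Type} [AddCommGroup V] [Module K V] (p : ℕ) :
    ∀ (m : ℕ), (Fin m → Module.End K V) → Module.End K V
  | 0, _ => 1
  | (m + 1), x => x 0 ^ (p - 1) * tp p m (fun i => x i.succ)

theorem tp_comm {V : Type} [AddCommGroup V] [Module K V] (p m : ℕ)
    (x : Fin m → Module.End K V) (f : Module.End K V) (h : ∀ i, Commute f (x i)) :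
    Commute f (tp p m x) := by
  induction m with
  | zero => exact Commute.one_right _
  | succ m ih => exact Commute.mul_right ((h 0).pow_right _) (ih _ fun i => h i.succ)

theorem tp_kill {V : Type} [AddCommGroup V] [Module K V] (p m : ℕ) (hp : 1 ≤ p)
    (x : Fin m → Module.End K V) (hxx : ∀ i j, Commute (x i) (x j)) (hxp : ∀ i, x i ^ p = 0)
    (i : Fin m) : x i * tp p m x = 0 := by
  induction m with
  | zero => exact i.elim0
  | succ m ih =>
    refine Fin.cases ?_ (fun j => ?_) i
    · rw [tp, ← mul_assoc, mul_pow_sub_one (by omega), hxp, zero_mul]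
    · rw [tp, ← mul_assoc, ((hxx j.succ 0).pow_right _).eq, mul_assoc,
        ih (fun i => x i.succ) (fun i j => hxx _ _) (fun i => hxp _) j, mul_zero]

theorem tp_π {p m : ℕ} (M : GMod K p m) (a : ℤ) :
    tp p m M.x * M.π a = M.π (a + 2 * (p - 1 : ℕ) * m) * tp p m M.x := by
  induction m generalizing a with
  | zero => simp [tp]
  | succ m ih =>
    have h1 := ih M.tl a
    have h2 := M.x_pow_π 0 (p - 1) (a + 2 * (p - 1 : ℕ) * m)
    rw [tp, mul_assoc]
    change M.x 0 ^ (p - 1) * (tp p m M.tl.x * M.tl.π a) = _
    rw [h1]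
    change M.x 0 ^ (p - 1) * (M.π _ * tp p m M.tl.x) = _
    rw [← mul_assoc, h2, mul_assoc]
    congr 2
    push_cast
    ring

theorem mp_e0_k1 {V : Type} [AddCommGroup V] [Module K V] (n m : ℕ) (v : V) :
    mp (e0 K n V) m (k1 (K := K) (Sp K n) m v) = cst (K := K) m v := by
  rw [k1, mp_cst, e0_tmul, map_one, one_smul]

theorem top_ne [IsAlgClosed K] {p : ℕ} [hp : Fact p.Prime] [CharP K p] {ι : Type} (m : ℕ) :
    ∀ (M : GMod K p m) (J : Finset ι) (e : ι → Fin m → K)
      (t σ : ι → Module.End K M.V), EX M J e 0 t σ → Gen m e J →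
      (∀ X : Submodule K (Fin m → K),
        2 * ((p : ℤ) - 1) * m ≤ 2 * ((p : ℤ) - 1) * finrank K X + nout e J X) →
      ∀ v : M.V, v ≠ 0 → M.π 0 v = v → tp p m M.x v ≠ 0 := by
  have hq : (0 : ℤ) ≤ 2 * ((p : ℤ) - 1) := by
    have := hp.out.one_le
    omega
  have hp2 : (2 : ℤ) ≤ p := by exact_mod_cast hp.out.two_le
  induction m with
  | zero =>
    intro M J e t σ _ _ _ v hv _
    exact hv
  | succ m ih =>
    intro M J e t σ hE hG hX v hv hv0
    -- the tail
    have tailc : ∀ X' : Submodule K (Fin m → K),
        2 * ((p : ℤ) - 1) * m ≤ 2 * ((p : ℤ) - 1) * finrank K X' +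
          nout (fun j i => e j i.succ) J X' := by
      intro X'
      by_cases hX' : X' = ⊤
      · rw [hX', nout_top, finrank_top, finrank_fin_fun]
        push_cast
        linarith
      · obtain ⟨X, h1, h2, h3⟩ := redV e J hG X' hX'
        have h4 := hX X
        have h5 : 2 * ((p : ℤ) - 1) * finrank K X ≤ 2 * ((p : ℤ) - 1) * finrank K X' :=
          mul_le_mul_of_nonneg_left (by exact_mod_cast h2) hq
        have h6 : (nout e J X : ℤ) ≤ nout (fun j i => e j i.succ) J X' := by exact_mod_cast h3
        push_cast at h4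
        linarith
    have hz := ih M.tl J (fun j i => e j i.succ) t σ hE.tl hG.2 tailc v hv hv0
    set z := tp p m M.tl.x v with hzdef
    set N : ℤ := 2 * ((p : ℤ) - 1) * m with hN
    have hzl : M.π N z = z := by
      have h1 := LinearMap.congr_fun (tp_π M.tl 0) v
      rw [Module.End.mul_apply, Module.End.mul_apply] at h1
      have h2 : M.tl.π 0 v = v := hv0
      rw [h2] at h1
      have h3 : (0 : ℤ) + 2 * (p - 1 : ℕ) * m = N := by
        rw [hN]
        push_cast [hp.out.one_le]
        ring
      rw [h3] at h1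
      exact h1.symm
    have hzx : ∀ i : Fin m, M.x i.succ z = 0 := by
      intro i
      exact LinearMap.congr_fun (tp_kill p m hp.out.one_le M.tl.x M.tl.xx M.tl.xp i) v
    intro hcon
    have hcon' : (M.x 0 ^ (p - 1)) z = 0 := hcon
    -- the vanishing theorems
    have hHH : HH M (N + ((p : ℤ) - 2)) := by
      refine (main_ind (m + 1) _ M).1 (gg_of (m + 1) M J e 0 _ t σ hE hG ?_).1
      intro X _
      have h1 := hX X
      push_cast at h1
      linarith
    have hII : II M.tl (N - 2) := by
      refine ((main_ind m _ M.tl).2 ((gg_of m M.tl J (fun j i => e j i.succ) 0 _ t σ hE.tl hG.2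
        ?_).2 ?_)).2
      · intro X' _
        have h1 := tailc X'
        linarith
      · linarith
    obtain ⟨y, v', hy⟩ := hHH (pr 0 (k1 (K := K) (Sp K (m + 1)) m z)) (by
      rw [UD_X, map_zero, map_zero, UD_k1 M.tl _ z hzx, sub_zero, zero_add, pr_zero, pr_inj]
      refine ⟨?_, rfl⟩
      rw [k1, mp_cst, TensorProduct.map_tmul, hcon', TensorProduct.tmul_zero, map_zero]) (by
      rw [Lv_pr, map_zero, Lv_k1]
      have : N + ((p : ℤ) - 2) - ((p : ℤ) - 2) = N := by ring
      rw [this]
      have h1 : M.tl.π N z = z := hzl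
      rw [h1])
    have h1 := congrArg (mp (e0 K (m + 1) M.V) (m + 1)) hy
    rw [map_add, e0_UD, mp_e0_k1, mp_pr, map_zero, mp_e0_k1] at h1
    obtain ⟨a, b, hab⟩ := exists_pr (mp (e0 K (m + 1) M.V) (m + 1) y)
    rw [hab, Dx_pr, cst_succ, pr_add, pr_inj, mp_map_zero, add_zero, add_zero] at h1
    obtain ⟨c1, c2⟩ := h1
    have d1 : v' = 0 := by
      have h2 := congrArg (bot (K := K) m) c1
      rw [map_zero, map_add, bot_Dx, bot_cst, zero_add] at h2
      exact h2.symm
    rw [d1, map_zero, add_zero] at c1
    have d2 : ∀ i : Fin m, M.x i.succ (bot (K := K) m a) = 0 :=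
      Dx_ker_bot m (fun i => M.x i.succ) a c1.symm
    have d3 : z = M.x 0 (bot (K := K) m a) := by
      have h2 := congrArg (bot (K := K) m) c2
      rw [bot_cst, map_sub, bot_Dx, sub_zero, mp_bot] at h2
      exact h2
    set u := bot (K := K) m a with hu
    have f1 : M.π (N - 2) u = 0 := by
      refine hII (M.π (N - 2) u) (LinearMap.congr_fun (M.ππ _) u) fun i => ?_
      have h2 := LinearMap.congr_fun (M.xπ i.succ (N - 2)) u
      rw [Module.End.mul_apply, Module.End.mul_apply, d2 i, map_zero] at h2
      exact h2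
    apply hz
    rw [← hzl, d3]
    have h2 := LinearMap.congr_fun (M.xπ 0 (N - 2)) u
    rw [Module.End.mul_apply, Module.End.mul_apply, f1, map_zero, sub_add_cancel] at h2
    exact h2.symm

end top

section model
variable {K : Type} [Field K] {ι : Type} [DecidableEq ι]

/-- Multiplication by a square-zero variable. -/
def ta (j : ι) : Module.End K (Finset ι → K) where
  toFun f s := if j ∈ s then f (s.erase j) else 0
  map_add' f g := by
    funext s
    simp only [Pi.add_apply]
    split_ifs <;> simp
  map_smul' c f := by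
    funext s
    simp only [Pi.smul_apply, RingHom.id_apply]
    split_ifs <;> simp

/-- The contraction. -/
def sa (j : ι) : Module.End K (Finset ι → K) where
  toFun f s := if j ∈ s then 0 else f (insert j s)
  map_add' f g := by
    funext s
    simp only [Pi.add_apply]
    split_ifs <;> simp
  map_smul' c f := by
    funext s
    simp only [Pi.smul_apply, RingHom.id_apply]
    split_ifs <;> simp

/-- The level projections. -/
def pa (a : ℤ) : Module.End K (Finset ι → K) where
  toFun f s := if 2 * (s.card : ℤ) = a then f s else 0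
  map_add' f g := by
    funext s
    simp only [Pi.add_apply]
    split_ifs <;> simp
  map_smul' c f := by
    funext s
    simp only [Pi.smul_apply, RingHom.id_apply]
    split_ifs <;> simp

theorem ta_apply (j : ι) (f : Finset ι → K) (s : Finset ι) :
    ta (K := K) j f s = if j ∈ s then f (s.erase j) else 0 := rfl
theorem sa_apply (j : ι) (f : Finset ι → K) (s : Finset ι) :
    sa (K := K) j f s = if j ∈ s then 0 else f (insert j s) := rfl
theorem pa_apply (a : ℤ) (f : Finset ι → K) (s : Finset ι) :
    pa (K := K) a f s = if 2 * (s.card : ℤ) = a then f s else 0 := rfl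

theorem model_ts (j : ι) : TS (K := K) (V := Finset ι → K) pa (ta j) (sa j) where
  tt := by
    refine LinearMap.ext fun f => funext fun s => ?_
    rw [Module.End.mul_apply, ta_apply, ta_apply]
    simp
  ss := by
    refine LinearMap.ext fun f => funext fun s => ?_
    rw [Module.End.mul_apply, sa_apply, sa_apply]
    simp
  st := by
    refine LinearMap.ext fun f => funext fun s => ?_
    rw [LinearMap.add_apply, Module.End.mul_apply, Module.End.mul_apply, Pi.add_apply, sa_apply,
      ta_apply, ta_apply, sa_apply]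
    by_cases h : j ∈ s
    · simp [h, Finset.insert_erase h]
    · simp [h, Finset.erase_insert h]
  tπ := fun a => by
    refine LinearMap.ext fun f => funext fun s => ?_
    rw [Module.End.mul_apply, Module.End.mul_apply, pa_apply, ta_apply, ta_apply, pa_apply]
    by_cases h : j ∈ s
    · have h1 : (s.erase j).card + 1 = s.card := Finset.card_erase_add_one h
      have h2 : (2 * ((s.erase j).card : ℤ) = a) ↔ (2 * (s.card : ℤ) = a + 2) := by omega
      simp only [h, if_true, h2]
    · simp [h]
  sπ := fun a => by
    refine LinearMap.ext fun f => funext fun s => ?_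
    rw [Module.End.mul_apply, Module.End.mul_apply, pa_apply, sa_apply, sa_apply, pa_apply]
    by_cases h : j ∈ s
    · simp [h]
    · have h1 : (insert j s).card = s.card + 1 := Finset.card_insert_of_notMem h
      have h2 : (2 * ((insert j s).card : ℤ) = a) ↔ (2 * (s.card : ℤ) = a - 2) := by omega
      simp only [h, if_false, h2]

theorem ta_comm (j k : ι) : Commute (ta (K := K) j) (ta k) := by
  by_cases hjk : j = k
  · rw [hjk]
  refine LinearMap.ext fun f => funext fun s => ?_
  rw [Module.End.mul_apply, Module.End.mul_apply, ta_apply, ta_apply, ta_apply, ta_apply]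
  have hkj : ¬ k = j := fun h => hjk h.symm
  by_cases h : j ∈ s <;> by_cases h' : k ∈ s <;>
    simp [h, h', hjk, hkj, Finset.erase_right_comm]

theorem ta_sa (j k : ι) (hjk : j ≠ k) : Commute (ta (K := K) j) (sa k) := by
  refine LinearMap.ext fun f => funext fun s => ?_
  rw [Module.End.mul_apply, Module.End.mul_apply, ta_apply, sa_apply, sa_apply, ta_apply]
  have hkj : k ≠ j := fun h => hjk h.symm
  by_cases h : j ∈ s <;> by_cases h' : k ∈ s <;>
    simp [h, h', hjk, hkj, Finset.erase_insert_of_ne]

theorem sa_comm (j k : ι) (hjk : j ≠ k) : Commute (sa (K := K) j) (sa k) := by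
  refine LinearMap.ext fun f => funext fun s => ?_
  rw [Module.End.mul_apply, Module.End.mul_apply, sa_apply, sa_apply, sa_apply, sa_apply]
  have hkj : k ≠ j := fun h => hjk h.symm
  by_cases h : j ∈ s <;> by_cases h' : k ∈ s <;>
    simp [h, h', hjk, hkj, Finset.insert_comm]

theorem nil_lin' (p : ℕ) [hp : Fact p.Prime] [CharP K p] {V : Type} [AddCommGroup V] [Module K V]
    (x : ι → Module.End K V) (hxx : ∀ i j, Commute (x i) (x j)) (hxp : ∀ i, x i ^ p = 0)
    (c : ι → K) (s : Finset ι) : (∑ i ∈ s, c i • x i) ^ p = 0 := by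
  induction s using Finset.induction_on with
  | empty => rw [Finset.sum_empty, zero_pow hp.out.ne_zero]
  | insert i s hi ih =>
    rw [Finset.sum_insert hi]
    refine nil_add p ?_ (nil_smul p _ (hxp i)) ih
    exact (Commute.sum_right _ _ _ fun j _ => (hxx i j).smul_right _).smul_left _

/-- The algebra with square-zero variables as a graded module. -/
@[reducible] def Am [Fintype ι] (p : ℕ) [hp : Fact p.Prime] [CharP K p] (m : ℕ)
    (e : ι → Fin m → K) : GMod K p m where
  V := Finset ι → K
  x := fun i => ∑ j, e j i • ta j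
  π := pa
  xx := fun i i' => Commute.sum_left _ _ _ fun j _ => Commute.sum_right _ _ _ fun k _ =>
    ((ta_comm j k).smul_left _).smul_right _
  xp := fun i => nil_lin' p _ ta_comm (fun j => by
    obtain ⟨k, hk⟩ : ∃ k, p = k + 2 := ⟨p - 2, by have := hp.out.two_le; omega⟩
    rw [hk, pow_add, pow_two, (model_ts j).tt, mul_zero]) _ _
  ππ := fun a => by
    refine LinearMap.ext fun f => funext fun s => ?_
    rw [Module.End.mul_apply, pa_apply, pa_apply]
    split_ifs <;> rfl
  xπ := fun i a => by
    rw [Finset.sum_mul, Finset.mul_sum]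
    refine Finset.sum_congr rfl fun j _ => ?_
    rw [smul_mul_assoc, mul_smul_comm, (model_ts j).tπ]

theorem model_ex [Fintype ι] (p : ℕ) [hp : Fact p.Prime] [CharP K p] (m : ℕ)
    (e : ι → Fin m → K) : EX (Am p m e) Finset.univ e 0 ta sa where
  ts := fun j _ => model_ts j
  tt := fun j _ k _ => ta_comm j k
  tσ := fun j _ k _ h => ta_sa j k h
  σσ := fun j _ k _ h => sa_comm j k h
  xt := fun i j _ => Commute.sum_left _ _ _ fun k _ => (ta_comm k j).smul_left _
  xσ := fun i j _ => by
    change (∑ k, e k i • ta k) * sa j - sa j * (∑ k, e k i • ta k) = _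
    rw [Finset.sum_mul, Finset.mul_sum, ← Finset.sum_sub_distrib, Finset.sum_eq_single j]
    · rw [smul_mul_assoc, mul_smul_comm, smul_sub]
    · intro k _ hk
      rw [smul_mul_assoc, mul_smul_comm, (ta_sa k j hk).eq, sub_self]
    · intro h
      exact absurd (Finset.mem_univ j) h
  lev := fun l hl v hv => by
    rw [← hv]
    funext s
    change (if 2 * (s.card : ℤ) = l then v s else 0) = 0
    rw [if_neg (by omega)]

end model

end Pool.Agent.J6H62.AB
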