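import Pool.Agent.J6H62.AB.GM

set_option autoImplicit false

/-!
The complex with coefficients in a commutative algebra `R`.
-/

namespace Pool.Agent.J6H62.AB

open TensorProduct

section
variable {K : Type} [Field K] {p m : ℕ}

/-- The operator `x i` on `R ⊗ V`. -/
noncomputable def tX (R : Type) [CommRing R] [Algebra K R] (M : GMod K p m) (i : Fin m) :
    Module.End K (R ⊗[K] M.V) :=
  TensorProduct.map (1 : Module.End K R) (M.x i)

/-- The operator `b i • x i ^ (p - 1)` on `R ⊗ V`. -/
noncomputable def tB {R : Type} [CommRing R] [Algebra K R] (M : GMod K p m) (b : Fin m → R)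
    (i : Fin m) : Module.End K (R ⊗[K] M.V) :=
  TensorProduct.map (LinearMap.mulLeft K (b i)) (M.x i ^ (p - 1))

/-- The level projections of `R ⊗ V`. -/
noncomputable def tP (R : Type) [CommRing R] [Algebra K R] (M : GMod K p m) (a : ℤ) :
    Module.End K (R ⊗[K] M.V) :=
  TensorProduct.map (1 : Module.End K R) (M.π a)

/-- The complex operator. -/
noncomputable def UD {R : Type} [CommRing R] [Algebra K R] (M : GMod K p m) (b : Fin m → R) :
    Module.End K (Lx (R ⊗[K] M.V) m) :=
  Dx m (tB M b) (tX R M)

/-- The level projections of the complex. -/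
noncomputable def Lv (R : Type) [CommRing R] [Algebra K R] (M : GMod K p m) (μ : ℤ) :
    Module.End K (Lx (R ⊗[K] M.V) m) :=
  PL (tP R M) ((p : ℤ) - 2) m μ

variable {R : Type} [CommRing R] [Algebra K R]

theorem map_comm {V : Type} [AddCommGroup V] [Module K V] {f f' : Module.End K R}
    {g g' : Module.End K V} (h : Commute f f') (h' : Commute g g') :
    Commute (TensorProduct.map f g) (TensorProduct.map f' g') := by
  change _ * _ = _ * _
  rw [← TensorProduct.map_mul, ← TensorProduct.map_mul, h.eq, h'.eq]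

theorem mulLeft_comm (a b : R) :
    Commute (LinearMap.mulLeft K a) (LinearMap.mulLeft K b) := by
  refine LinearMap.ext fun z => ?_
  simp only [Module.End.mul_apply, LinearMap.mulLeft_apply]
  ring

theorem tX_comm (M : GMod K p m) (i j : Fin m) : Commute (tX R M i) (tX R M j) :=
  map_comm (Commute.refl _) (M.xx i j)

theorem tX_tB (M : GMod K p m) (b : Fin m → R) (i j : Fin m) :
    Commute (tX R M i) (tB M b j) :=
  map_comm (Commute.one_left _) ((M.xx i j).pow_right _)

theorem tB_tB (M : GMod K p m) (b b' : Fin m → R) (i j : Fin m) :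
    Commute (tB M b i) (tB M b' j) :=
  map_comm (mulLeft_comm _ _) ((M.xx i j).pow_pow _ _)

theorem tX_mul_tB [hp : Fact p.Prime] (M : GMod K p m) (b : Fin m → R) (i : Fin m) :
    tX R M i * tB M b i = 0 := by
  rw [tX, tB, ← TensorProduct.map_mul, mul_pow_sub_one hp.out.ne_zero, M.xp]
  exact TensorProduct.map_zero_right _

theorem UD_UD [Fact p.Prime] (M : GMod K p m) (b : Fin m → R) (z : Lx (R ⊗[K] M.V) m) :
    UD M b (UD M b z) = 0 :=
  Dx_Dx m _ _ (tX_comm M) (tX_tB M b) (tB_tB M b b) (tX_mul_tB M b) z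

theorem tX_smul (M : GMod K p m) (i : Fin m) (r : R) (w : R ⊗[K] M.V) :
    tX R M i (r • w) = r • tX R M i w := by
  induction w using TensorProduct.induction_on with
  | zero => simp
  | add a b ha hb => rw [smul_add, map_add, ha, hb, map_add, smul_add]
  | tmul a b => rfl

theorem tP_smul (M : GMod K p m) (a : ℤ) (r : R) (w : R ⊗[K] M.V) :
    tP R M a (r • w) = r • tP R M a w := by
  induction w using TensorProduct.induction_on with
  | zero => simp
  | add a b ha hb => rw [smul_add, map_add, ha, hb, map_add, smul_add]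
  | tmul a b => rfl

theorem tB_smul (M : GMod K p m) (b : Fin m → R) (i : Fin m) (r : R) (w : R ⊗[K] M.V) :
    tB M b i (r • w) = r • tB M b i w := by
  induction w using TensorProduct.induction_on with
  | zero => simp
  | add a b ha hb => rw [smul_add, map_add, ha, hb, map_add, smul_add]
  | tmul a c =>
    rw [tB, TensorProduct.smul_tmul', TensorProduct.map_tmul, TensorProduct.map_tmul,
      TensorProduct.smul_tmul', LinearMap.mulLeft_apply, LinearMap.mulLeft_apply, smul_eq_mul,
      smul_eq_mul]
    congr 1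
    ring

theorem UD_smul (M : GMod K p m) (b : Fin m → R) (r : R) (z : Lx (R ⊗[K] M.V) m) :
    UD M b (r • z) = r • UD M b z :=
  Dx_smul r m _ _ (fun i w => tX_smul M i r w) (fun i w => tB_smul M b i r w) z

theorem PL_smul {W : Type} [AddCommGroup W] [Module K W] {R : Type} [CommRing R] [Module R W]
    (P : ℤ → Module.End K W) (δ : ℤ) (r : R) (h : ∀ a w, P a (r • w) = r • P a w)
    (m : ℕ) (μ : ℤ) (z : Lx W m) : PL P δ m μ (r • z) = r • PL P δ m μ z := by
  induction m generalizing μ with
  | zero => exact h μ z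
  | succ m ih =>
    obtain ⟨a, b, rfl⟩ := exists_pr z
    simp only [PL_pr, pr_smul, ih]

theorem Lv_smul (M : GMod K p m) (μ : ℤ) (r : R) (z : Lx (R ⊗[K] M.V) m) :
    Lv R M μ (r • z) = r • Lv R M μ z :=
  PL_smul _ _ r (fun a w => tP_smul M a r w) m μ z

theorem Lv_idem (M : GMod K p m) (μ : ℤ) (z : Lx (R ⊗[K] M.V) m) :
    Lv R M μ (Lv R M μ z) = Lv R M μ z := by
  refine PL_idem _ _ (fun a => ?_) m μ z
  rw [tP, ← TensorProduct.map_mul, M.ππ, one_mul]

theorem UD_Lv [hp : Fact p.Prime] (M : GMod K p m) (b : Fin m → R) (μ : ℤ)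
    (z : Lx (R ⊗[K] M.V) m) :
    UD M b (Lv R M μ z) = Lv R M (μ + p) (UD M b z) := by
  refine Dx_PL _ _ _ m _ _ (fun i a w => ?_) (fun i a w => ?_) μ z
  · have : tX R M i * tP R M a = tP R M (a + 2) * tX R M i := by
      rw [tX, tP, tP, ← TensorProduct.map_mul, ← TensorProduct.map_mul, M.xπ]
    have e : a + (p : ℤ) - ((p : ℤ) - 2) = a + 2 := by ring
    rw [e]
    exact LinearMap.congr_fun this w
  · have hp1 : 1 ≤ p := hp.out.one_le
    have e : a + (p : ℤ) + ((p : ℤ) - 2) = a + 2 * (p - 1 : ℕ) := by
      push_cast [hp1]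
      ring
    have : tB M b i * tP R M a = tP R M (a + 2 * (p - 1 : ℕ)) * tB M b i := by
      rw [tB, tP, tP, ← TensorProduct.map_mul, ← TensorProduct.map_mul, M.x_pow_π, one_mul,
        mul_one]
    rw [e]
    exact LinearMap.congr_fun this w

/-- Functoriality in the algebra. -/
theorem mp_UD_ring {R' : Type} [CommRing R'] [Algebra K R'] (M : GMod K p m)
    (ρ : R →ₐ[K] R') (b : Fin m → R) (b' : Fin m → R') (h : ∀ i, ρ (b i) = b' i)
    (z : Lx (R ⊗[K] M.V) m) :
    mp (TensorProduct.map ρ.toLinearMap (LinearMap.id : M.V →ₗ[K] M.V)) m (UD M b z) =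
      UD M b' (mp (TensorProduct.map ρ.toLinearMap (LinearMap.id : M.V →ₗ[K] M.V)) m z) := by
  refine mp_Dx _ m _ _ _ _ (fun i w => ?_) (fun i w => ?_) z
  · induction w using TensorProduct.induction_on with
    | zero => simp
    | add a b ha hb => rw [map_add, map_add, ha, hb, map_add, map_add]
    | tmul a c => rfl
  · induction w using TensorProduct.induction_on with
    | zero => simp
    | add a b ha hb => rw [map_add, map_add, ha, hb, map_add, map_add]
    | tmul a c =>
      simp only [tB, TensorProduct.map_tmul, LinearMap.mulLeft_apply, LinearMap.id_apply,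
        AlgHom.toLinearMap_apply, map_mul, h]

theorem mp_Lv_ring {R' : Type} [CommRing R'] [Algebra K R'] (M : GMod K p m)
    (ρ : R →ₐ[K] R') (μ : ℤ) (z : Lx (R ⊗[K] M.V) m) :
    mp (TensorProduct.map ρ.toLinearMap (LinearMap.id : M.V →ₗ[K] M.V)) m (Lv R M μ z) =
      Lv R' M μ (mp (TensorProduct.map ρ.toLinearMap (LinearMap.id : M.V →ₗ[K] M.V)) m z) := by
  have := mp_PL (TensorProduct.map ρ.toLinearMap (LinearMap.id : M.V →ₗ[K] M.V)) (tP R M)
    (tP R' M) ((p : ℤ) - 2) 0 (fun a w => ?_) m μ z
  · rw [add_zero] at this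
    exact this
  · rw [add_zero]
    induction w using TensorProduct.induction_on with
    | zero => simp
    | add a b ha hb => rw [map_add, map_add, ha, hb, map_add, map_add]
    | tmul a c => rfl

/-- Functoriality in the module. -/
theorem mp_UD_mod (M N : GMod K p m) (φ : M.V →ₗ[K] N.V)
    (h : ∀ i v, φ (M.x i v) = N.x i (φ v)) (b : Fin m → R)
    (z : Lx (R ⊗[K] M.V) m) :
    mp (TensorProduct.map (1 : Module.End K R) φ) m (UD M b z) =
      UD N b (mp (TensorProduct.map (1 : Module.End K R) φ) m z) := by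
  have hn : ∀ (i : Fin m) (n : ℕ) (v : M.V), φ ((M.x i ^ n) v) = (N.x i ^ n) (φ v) := by
    intro i n
    induction n with
    | zero => intro v; rfl
    | succ n ih =>
      intro v
      rw [pow_succ, pow_succ, Module.End.mul_apply, Module.End.mul_apply, ih, h]
  refine mp_Dx _ m _ _ _ _ (fun i w => ?_) (fun i w => ?_) z
  · induction w using TensorProduct.induction_on with
    | zero => simp
    | add a b ha hb => rw [map_add, map_add, ha, hb, map_add, map_add]
    | tmul a c => simp only [tX, TensorProduct.map_tmul, h]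
  · induction w using TensorProduct.induction_on with
    | zero => simp
    | add a b ha hb => rw [map_add, map_add, ha, hb, map_add, map_add]
    | tmul a c => simp only [tB, TensorProduct.map_tmul, hn, Module.End.one_apply]

theorem mp_Lv_mod (M N : GMod K p m) (φ : M.V →ₗ[K] N.V)
    (h : ∀ a v, φ (M.π a v) = N.π a (φ v)) (μ : ℤ)
    (z : Lx (R ⊗[K] M.V) m) :
    mp (TensorProduct.map (1 : Module.End K R) φ) m (Lv R M μ z) =
      Lv R N μ (mp (TensorProduct.map (1 : Module.End K R) φ) m z) := by
  have := mp_PL (TensorProduct.map (1 : Module.End K R) φ) (tP R M)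
    (tP R N) ((p : ℤ) - 2) 0 (fun a w => ?_) m μ z
  · rw [add_zero] at this
    exact this
  · rw [add_zero]
    induction w using TensorProduct.induction_on with
    | zero => simp
    | add a b ha hb => rw [map_add, map_add, ha, hb, map_add, map_add]
    | tmul a c => simp only [tP, TensorProduct.map_tmul, h]

end

section push
variable {K : Type} [Field K] {p m : ℕ}

/-- `ker f` as a graded module. -/
@[reducible] def GMod.kr (M : GMod K p m) (f g : Module.End K M.V) (h : FG M f g) :
    GMod K p m where
  V := ↥(LinearMap.ker f)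
  x := fun i => (M.x i).restrict (h.xA i)
  π := fun a => (M.π a).restrict (h.πA a)
  xx := fun i j => by
    refine LinearMap.ext fun v => Subtype.ext ?_
    exact LinearMap.congr_fun (M.xx i j).eq v
  xp := fun i => by
    refine LinearMap.ext fun v => Subtype.ext ?_
    rw [restrict_pow, M.xp]
    rfl
  ππ := fun a => by
    refine LinearMap.ext fun v => Subtype.ext ?_
    exact LinearMap.congr_fun (M.ππ a) v
  xπ := fun i a => by
    refine LinearMap.ext fun v => Subtype.ext ?_
    exact LinearMap.congr_fun (M.xπ i a) v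

variable {R : Type} [CommRing R] [Algebra K R]

/-- The pushing lemma. -/
theorem push (M : GMod K p m) (f g : Module.End K M.V) (h : FG M f g) (b : Fin m → R) (μ : ℤ)
    (hZ : ∀ z : Lx (R ⊗[K] (M.subq f g h).V) m, UD (M.subq f g h) b z = 0 →
      Lv R (M.subq f g h) μ z = z → ∃ y, z = UD (M.subq f g h) b y)
    (u w : Lx (R ⊗[K] M.V) m)
    (hu : mp (TensorProduct.map (1 : Module.End K R) f) m u = 0)
    (hw : UD M b u = mp (TensorProduct.map (1 : Module.End K R) g) m w)
    (hμ : Lv R M μ u = u) :
    ∃ u₁ u₂ : Lx (R ⊗[K] M.V) m,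
      mp (TensorProduct.map (1 : Module.End K R) f) m u₁ = 0 ∧
      u = UD M b u₁ + mp (TensorProduct.map (1 : Module.End K R) g) m u₂ := by
  set i : ↥(LinearMap.ker f) →ₗ[K] M.V := (LinearMap.ker f).subtype with hi
  set I := (LinearMap.range g).comap (LinearMap.ker f).subtype with hI
  set q : ↥(LinearMap.ker f) →ₗ[K] (M.subq f g h).V := I.mkQ with hq
  set j : M.V →ₗ[K] ↥(LinearMap.ker f) := g.codRestrict (LinearMap.ker f) (fun v => by
    rw [LinearMap.mem_ker]
    exact LinearMap.congr_fun h.fg v) with hj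
  have hqsurj : Function.Surjective q := Submodule.mkQ_surjective _
  have hij : i.comp j = g := rfl
  have hinj : Function.Injective i := Subtype.val_injective
  have ex1 : Function.Exact i f := fun y => by
    constructor
    · intro hy
      exact ⟨⟨y, hy⟩, rfl⟩
    · rintro ⟨v, rfl⟩
      exact v.2
  have ex2 : Function.Exact j q := fun y => by
    rw [hq, ← LinearMap.mem_ker, Submodule.ker_mkQ, hI]
    constructor
    · rintro ⟨v, hv⟩
      exact ⟨v, Subtype.ext hv⟩
    · rintro ⟨v, hv⟩
      exact ⟨v, congrArg Subtype.val hv⟩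
  have Tex1 := Module.Flat.lTensor_exact R ex1
  have Tex2 := lTensor_exact R ex2 hqsurj
  have Tinj : Function.Injective (TensorProduct.map (1 : Module.End K R) i) :=
    Module.Flat.lTensor_preserves_injective_linearMap (M := R) i hinj
  have Tsurj : Function.Surjective (TensorProduct.map (1 : Module.End K R) q) :=
    LinearMap.lTensor_surjective R hqsurj
  have TI := mp_inj Tinj m
  have TS := mp_surj Tsurj m
  obtain ⟨u', hu'⟩ := mp_exact (φ := TensorProduct.map (1 : Module.End K R) i)
    (ψ := TensorProduct.map (1 : Module.End K R) f) (fun w hw => (Tex1 w).1 hw) m u hu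
  have hD : ∀ z, mp (TensorProduct.map (1 : Module.End K R) i) m (UD (M.kr f g h) b z) =
      UD M b (mp (TensorProduct.map (1 : Module.End K R) i) m z) :=
    mp_UD_mod (M.kr f g h) M i (fun _ _ => rfl) b
  have hDq : ∀ z, mp (TensorProduct.map (1 : Module.End K R) q) m (UD (M.kr f g h) b z) =
      UD (M.subq f g h) b (mp (TensorProduct.map (1 : Module.End K R) q) m z) :=
    mp_UD_mod (M.kr f g h) (M.subq f g h) q (fun _ _ => rfl) b
  have hL : ∀ z, mp (TensorProduct.map (1 : Module.End K R) i) m (Lv R (M.kr f g h) μ z) =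
      Lv R M μ (mp (TensorProduct.map (1 : Module.End K R) i) m z) :=
    mp_Lv_mod (M.kr f g h) M i (fun _ _ => rfl) μ
  have hLq : ∀ z, mp (TensorProduct.map (1 : Module.End K R) q) m (Lv R (M.kr f g h) μ z) =
      Lv R (M.subq f g h) μ (mp (TensorProduct.map (1 : Module.End K R) q) m z) :=
    mp_Lv_mod (M.kr f g h) (M.subq f g h) q (fun _ _ => rfl) μ
  have hgi : ∀ z, mp (TensorProduct.map (1 : Module.End K R) g) m z =
      mp (TensorProduct.map (1 : Module.End K R) i) m
        (mp (TensorProduct.map (1 : Module.End K R) j) m z) := fun z => by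
    rw [mp_mp, ← TensorProduct.map_comp, hij]
    rfl
  have hqj : ∀ z, mp (TensorProduct.map (1 : Module.End K R) q) m
      (mp (TensorProduct.map (1 : Module.End K R) j) m z) = 0 := fun z => by
    rw [mp_mp, ← TensorProduct.map_comp, ex2.linearMap_comp_eq_zero, TensorProduct.map_zero_right,
      mp_map_zero]
  have h1 : UD (M.kr f g h) b u' = mp (TensorProduct.map (1 : Module.End K R) j) m w := by
    apply TI
    rw [hD, hu', hw, hgi]
  have h2 : Lv R (M.kr f g h) μ u' = u' := by
    apply TI
    rw [hL, hu', hμ]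
  obtain ⟨y, hy⟩ := hZ (mp (TensorProduct.map (1 : Module.End K R) q) m u')
    (by rw [← hDq, h1, hqj]) (by rw [← hLq, h2])
  obtain ⟨y', rfl⟩ := TS y
  obtain ⟨u₂, hu₂⟩ := mp_exact (φ := TensorProduct.map (1 : Module.End K R) j)
    (ψ := TensorProduct.map (1 : Module.End K R) q) (fun w hw => (Tex2 w).1 hw) m
    (u' - UD (M.kr f g h) b y') (by rw [map_sub, hDq, ← hy, sub_self])
  refine ⟨mp (TensorProduct.map (1 : Module.End K R) i) m y', u₂, ?_, ?_⟩
  · rw [mp_mp, ← TensorProduct.map_comp, ex1.linearMap_comp_eq_zero,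
      TensorProduct.map_zero_right, mp_map_zero]
  · rw [hgi, hu₂, map_sub, hD, hu']
    abel

end push

end Pool.Agent.J6H62.AB
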