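import Pool.Agent.J6H62.AB.Ind

set_option autoImplicit false

/-!
The vanishing theorem by induction on the number of operators.
-/

namespace Pool.Agent.J6H62.AB

open TensorProduct MvPolynomial

section koszul
variable {K : Type} [Field K] {p m : ℕ}

/-- Evaluation at zero. -/
noncomputable def e0 (K : Type) [Field K] (m : ℕ) (V : Type) [AddCommGroup V] [Module K V] :
    Sp K m ⊗[K] V →ₗ[K] V :=
  (TensorProduct.lid K V).toLinearMap.comp
    (TensorProduct.map (MvPolynomial.aeval (0 : Fin m → K) : Sp K m →ₐ[K] K).toLinearMap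
      (LinearMap.id : V →ₗ[K] V))

theorem e0_tmul {V : Type} [AddCommGroup V] [Module K V] (s : Sp K m) (v : V) :
    e0 K m V (s ⊗ₜ v) = (MvPolynomial.aeval (0 : Fin m → K) : Sp K m →ₐ[K] K) s • v := rfl

/-- The constants. -/
noncomputable def k1 (R : Type) [CommRing R] [Algebra K R] {V : Type} [AddCommGroup V]
    [Module K V] (m : ℕ) (v : V) : Lx (R ⊗[K] V) m := cst (K := K) m ((1 : R) ⊗ₜ[K] v)

theorem k1_succ {R : Type} [CommRing R] [Algebra K R] {V : Type} [AddCommGroup V]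
    [Module K V] (m : ℕ) (v : V) :
    k1 (K := K) R (m + 1) v = pr (k1 (K := K) R m v) 0 := rfl

theorem k1_zero {R : Type} [CommRing R] [Algebra K R] {V : Type} [AddCommGroup V]
    [Module K V] (m : ℕ) : k1 (K := K) R m (0 : V) = 0 := by
  rw [k1, TensorProduct.tmul_zero, map_zero]

theorem mp_k1 {R : Type} [CommRing R] [Algebra K R] {V : Type} [AddCommGroup V]
    [Module K V] (f : Module.End K V) (m : ℕ) (v : V) :
    mp (TensorProduct.map (1 : Module.End K R) f) m (k1 (K := K) R m v) =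
      k1 (K := K) R m (f v) := by
  rw [k1, mp_cst]
  rfl

theorem Lv_k1 {R : Type} [CommRing R] [Algebra K R] (N : GMod K p m) (μ : ℤ) (v : N.V) :
    Lv R N μ (k1 (K := K) R m v) = k1 (K := K) R m (N.π μ v) := by
  rw [Lv, k1, PL_cst]
  rfl

theorem UD_k1 {R : Type} [CommRing R] [Algebra K R] (N : GMod K p m) (b : Fin m → R) (v : N.V)
    (h : ∀ i, N.x i v = 0) : UD N b (k1 (K := K) R m v) = 0 := by
  refine Dx_cst m _ _ _ fun i => ?_
  rw [tX, TensorProduct.map_tmul, h, TensorProduct.tmul_zero]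

theorem k1_ring {R R' : Type} [CommRing R] [Algebra K R] [CommRing R'] [Algebra K R']
    {V : Type} [AddCommGroup V] [Module K V] (ρ : R →ₐ[K] R') (m : ℕ) (v : V) :
    mp (TensorProduct.map ρ.toLinearMap (LinearMap.id : V →ₗ[K] V)) m (k1 (K := K) R m v) =
      k1 (K := K) R' m v := by
  rw [k1, mp_cst, TensorProduct.map_tmul, AlgHom.toLinearMap_apply, map_one]
  rfl

theorem e0_UD (N : GMod K p m) (z : Lx (Sp K m ⊗[K] N.V) m) :
    mp (e0 K m N.V) m (UD N X z) = Dx m (fun _ => 0) N.x (mp (e0 K m N.V) m z) := by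
  refine mp_Dx _ m _ _ _ _ (fun i w => ?_) (fun i w => ?_) z
  · induction w using TensorProduct.induction_on with
    | zero => simp
    | add a b ha hb => rw [map_add, map_add, ha, hb, map_add, map_add]
    | tmul s v =>
      rw [tX, TensorProduct.map_tmul, e0_tmul, e0_tmul, map_smul]
      rfl
  · rw [LinearMap.zero_apply]
    induction w using TensorProduct.induction_on with
    | zero => simp
    | add a b ha hb => rw [map_add, map_add, ha, hb, add_zero]
    | tmul s v =>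
      rw [tB, TensorProduct.map_tmul, e0_tmul, LinearMap.mulLeft_apply, map_mul, aeval_X,
        Pi.zero_apply, zero_mul, zero_smul]

theorem e0_k1 {V : Type} [AddCommGroup V] [Module K V] (v : V) :
    bot (K := K) m (mp (e0 K m V) m (k1 (K := K) (Sp K m) m v)) = v := by
  rw [k1, mp_cst, bot_cst, e0_tmul, map_one, one_smul]

theorem e0_bot_UD (N : GMod K p m) (z : Lx (Sp K m ⊗[K] N.V) m) :
    bot (K := K) m (mp (e0 K m N.V) m (UD N X z)) = 0 := by
  rw [e0_UD, bot_Dx]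

theorem k1_cocycle (N : GMod K p m) (v : N.V)
    (h : UD N X (k1 (K := K) (Sp K m) m v) = 0) (i : Fin m) : N.x i v = 0 := by
  have h1 := congrArg (mp (e0 K m N.V) m) h
  rw [e0_UD, map_zero] at h1
  have h2 := Dx_ker_bot m N.x _ h1 i
  rwa [e0_k1] at h2

theorem k1_range (N : GMod K p m) (v : N.V) (y : Lx (Sp K m ⊗[K] N.V) m)
    (h : k1 (K := K) (Sp K m) m v = UD N X y) : v = 0 := by
  have h1 := e0_bot_UD N y
  rw [← h, e0_k1] at h1
  exact h1

theorem e0_X (i : Fin m) {V : Type} [AddCommGroup V] [Module K V] (n : ℕ)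
    (z : Lx (Sp K m ⊗[K] V) n) :
    mp (e0 K m V) n ((X i : Sp K m) • z) = 0 := by
  rw [← mp_eq_smul _ (X i : Sp K m) (mulL_eq_smul (V := V) (X i : Sp K m)) n z, mp_mp]
  have : (e0 K m V).comp (TensorProduct.map (LinearMap.mulLeft K (X i : Sp K m))
      (1 : Module.End K V)) = 0 := by
    refine TensorProduct.ext' fun s v => ?_
    rw [LinearMap.comp_apply, TensorProduct.map_tmul, LinearMap.mulLeft_apply, e0_tmul, map_mul,
      aeval_X, Pi.zero_apply, zero_mul, zero_smul]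
    rfl
  rw [this, mp_map_zero]

end koszul

section statements
variable {K : Type} [Field K] {p m : ℕ}

/-- Cocycles of level `μ` are boundaries up to constants. -/
def HH (N : GMod K p m) (μ : ℤ) : Prop :=
  ∀ z : Lx (Sp K m ⊗[K] N.V) m, UD N X z = 0 → Lv (Sp K m) N μ z = z →
    ∃ y v, z = UD N X y + k1 (K := K) (Sp K m) m v

/-- No invariants of level `μ`. -/
def II (N : GMod K p m) (μ : ℤ) : Prop :=
  ∀ v : N.V, N.π μ v = v → (∀ i, N.x i v = 0) → v = 0

theorem HH.refine [Fact p.Prime] {N : GMod K p m} {μ : ℤ} (h : HH N μ)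
    (z : Lx (Sp K m ⊗[K] N.V) m)
    (hz : UD N X z = 0) (hμ : Lv (Sp K m) N μ z = z) :
    ∃ y v, z = UD N X y + k1 (K := K) (Sp K m) m v ∧ Lv (Sp K m) N (μ - p) y = y ∧
      N.π μ v = v ∧ ∀ i, N.x i v = 0 := by
  obtain ⟨y, v, hy⟩ := h z hz hμ
  have h1 : z = UD N X (Lv (Sp K m) N (μ - p) y) + k1 (K := K) (Sp K m) m (N.π μ v) := by
    rw [UD_Lv, sub_add_cancel, ← Lv_k1, ← map_add, ← hy, hμ]
  refine ⟨_, _, h1, Lv_idem N _ _, ?_, ?_⟩
  · exact LinearMap.congr_fun (N.ππ μ) v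
  · intro i
    refine k1_cocycle N _ ?_ i
    have h2 := congrArg (UD N X) h1
    rw [hz, map_add, UD_UD, zero_add] at h2
    exact h2.symm

theorem ZZ_of [Fact p.Prime] {N : GMod K p m} {μ : ℤ} (h : HH N μ) (h' : II N μ) : ZZ N μ := by
  intro z hz hμ
  obtain ⟨y, v, h1, -, h2, h3⟩ := h.refine z hz hμ
  refine ⟨y, ?_⟩
  rw [h' v h2 h3, k1_zero, add_zero] at h1
  exact h1

theorem UD_X {R : Type} [CommRing R] [Algebra K R] (M : GMod K p (m + 1))
    (b : Fin (m + 1) → R) (f₀ f₁ : Lx (R ⊗[K] M.V) m) :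
    UD M b (pr f₀ f₁) =
      pr (UD M.tl (fun i => b i.succ) f₀ +
          mp (TensorProduct.map (LinearMap.mulLeft K (b 0)) (M.x 0 ^ (p - 1))) m f₁)
        (mp (TensorProduct.map (1 : Module.End K R) (M.x 0)) m f₀ -
          UD M.tl (fun i => b i.succ) f₁) := rfl

/-- One division by `X 0`. -/
theorem stepB [hp : Fact p.Prime] (M : GMod K p (m + 1)) (μ : ℤ)
    (hH : HH M.tl (μ - p)) (hH' : HH M.tl (μ - 2 * p + 2))
    (z y : Lx (Sp K (m + 1) ⊗[K] M.V) (m + 1))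
    (hμ : Lv (Sp K (m + 1)) M μ z = z)
    (hy : (X 0 : Sp K (m + 1)) • z = UD M X y) :
    ∃ y' v, z = UD M X y' + k1 (K := K) (Sp K (m + 1)) (m + 1) ((M.x 0 ^ (p - 1)) v) ∧
      M.π (μ - 2 * p + 2) v = v ∧ ∀ i : Fin m, M.x i.succ v = 0 := by
  -- make `y` homogeneous
  have hy' : (X 0 : Sp K (m + 1)) • z = UD M X (Lv (Sp K (m + 1)) M (μ - p) y) := by
    rw [UD_Lv, sub_add_cancel, ← hy, Lv_smul, hμ]
  set Y := Lv (Sp K (m + 1)) M (μ - p) y with hY
  have hYL : Lv (Sp K (m + 1)) M (μ - p) Y = Y := Lv_idem M _ _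
  set T := mp (TensorProduct.map (rho m (0 : K)).toLinearMap (LinearMap.id : M.V →ₗ[K] M.V))
    (m + 1) with hT
  have hTpr : ∀ a b, T (pr a b) = pr
      (mp (TensorProduct.map (rho m (0 : K)).toLinearMap (LinearMap.id : M.V →ₗ[K] M.V)) m a)
      (mp (TensorProduct.map (rho m (0 : K)).toLinearMap (LinearMap.id : M.V →ₗ[K] M.V)) m b) :=
    fun a b => rfl
  have hTD : ∀ w, T (UD M X w) = UD M (Fin.cons (C 0) X : Fin (m + 1) → Sp K m) (T w) :=
    mp_UD_ring M (rho m (0 : K)) X _ (rho_X 0)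
  have hTL : ∀ w, T (Lv (Sp K (m + 1)) M (μ - p) w) = Lv (Sp K m) M (μ - p) (T w) :=
    mp_Lv_ring M (rho m (0 : K)) (μ - p)
  obtain ⟨y0, y1, hy01⟩ := exists_pr (T Y)
  have hzero : ∀ f : Lx (Sp K m ⊗[K] M.V) m,
      mp (TensorProduct.map (LinearMap.mulLeft K (C 0 : Sp K m)) (M.x 0 ^ (p - 1))) m f = 0 := by
    intro f
    have : LinearMap.mulLeft K (C 0 : Sp K m) = 0 := by
      refine LinearMap.ext fun s => ?_
      rw [LinearMap.mulLeft_apply, C_0, zero_mul]
      rfl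
    rw [this, TensorProduct.map_zero_left, mp_map_zero]
  have hDb : ∀ a b : Lx (Sp K m ⊗[K] M.V) m,
      UD M (Fin.cons (C 0) X : Fin (m + 1) → Sp K m) (pr a b) =
      pr (UD M.tl X a)
        (mp (TensorProduct.map (1 : Module.End K (Sp K m)) (M.x 0)) m a - UD M.tl X b) := by
    intro a b
    rw [UD_cons, hzero, add_zero]
  have hc : UD M (Fin.cons (C 0) X : Fin (m + 1) → Sp K m) (pr y0 y1) = 0 := by
    rw [← hy01, ← hTD, ← hy', hT, mp_map_ring_smul, rho_X, Fin.cons_zero, C_0]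
    exact zero_smul (Sp K m) (T z)
  rw [hDb, pr_zero, pr_inj] at hc
  obtain ⟨c1, c2⟩ := hc
  have hl : Lv (Sp K m) M (μ - p) (pr y0 y1) = pr y0 y1 := by
    rw [← hy01, ← hTL, hYL]
  rw [Lv_pr, pr_inj] at hl
  obtain ⟨l1, l2⟩ := hl
  obtain ⟨u, m0, a1, a2, a3, a4⟩ := hH.refine y0 c1 l1
  set χ : Module.End K (Lx (Sp K m ⊗[K] M.V) m) :=
    mp (TensorProduct.map (1 : Module.End K (Sp K m)) (M.x 0)) m with hχ
  have hχD : ∀ w, χ (UD M.tl X w) = UD M.tl X (χ w) :=
    mp_UD_mod M.tl M.tl (M.x 0) (fun i v => LinearMap.congr_fun (M.xx 0 i.succ).eq v) X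
  have hχL : ∀ (ν : ℤ) w, χ (Lv (Sp K m) M.tl ν w) = Lv (Sp K m) M.tl (ν + 2) (χ w) := by
    intro ν w
    refine mp_PL _ _ _ _ 2 (fun a w => ?_) m ν w
    have : TensorProduct.map (1 : Module.End K (Sp K m)) (M.x 0) * tP (Sp K m) M.tl a =
        tP (Sp K m) M.tl (a + 2) * TensorProduct.map (1 : Module.End K (Sp K m)) (M.x 0) := by
      rw [tP, tP, ← TensorProduct.map_mul, ← TensorProduct.map_mul, M.xπ]
    exact LinearMap.congr_fun this w
  have b1 : UD M.tl X (y1 - χ u) = k1 (K := K) (Sp K m) m (M.x 0 m0) := by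
    rw [map_sub, ← hχD]
    have h1 : χ y0 = χ (UD M.tl X u) + k1 (K := K) (Sp K m) m (M.x 0 m0) := by
      conv_lhs => rw [a1]
      rw [map_add]
      congr 1
      exact mp_k1 _ _ _
    have h2 : UD M.tl X y1 = χ y0 := (sub_eq_zero.1 c2).symm
    rw [h2, h1]
    abel
  have b2 : M.x 0 m0 = 0 := k1_range M.tl _ _ b1.symm
  rw [b2, k1_zero] at b1
  have b3 : Lv (Sp K m) M.tl (μ - 2 * p + 2) (y1 - χ u) = y1 - χ u := by
    rw [map_sub]
    congr 1
    · have e : μ - 2 * (p : ℤ) + 2 = μ - p - ((p : ℤ) - 2) := by ring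
      rw [e, l2]
    · have e : μ - 2 * (p : ℤ) + 2 = μ - p - p + 2 := by ring
      rw [e, ← hχL, a2]
  obtain ⟨u', m1, d1, d2, d3, d4⟩ := hH'.refine (y1 - χ u) b1 b3
  -- the lift
  set I := mp (TensorProduct.map (iota K m).toLinearMap (LinearMap.id : M.V →ₗ[K] M.V)) m with hI
  set w : Lx (Sp K (m + 1) ⊗[K] M.V) (m + 1) := pr (I u) (-I u') with hw
  set c : Lx (Sp K (m + 1) ⊗[K] M.V) (m + 1) :=
    pr (k1 (K := K) (Sp K (m + 1)) m m0) (k1 (K := K) (Sp K (m + 1)) m m1) with hcdef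
  have hTI : ∀ f, mp (TensorProduct.map (rho m (0 : K)).toLinearMap
      (LinearMap.id : M.V →ₗ[K] M.V)) m (I f) = f := fun f =>
    mp_map_ring_comp (iota K m) (rho m (0 : K)) m (rho_iota 0) f
  have hTw : T w = pr u (-u') := by
    rw [hw, hTpr, map_neg, hTI, hTI]
  have hTc : T c = pr (k1 (K := K) (Sp K m) m m0) (k1 (K := K) (Sp K m) m m1) := by
    rw [hcdef, hTpr, k1_ring, k1_ring]
  obtain ⟨y2, hy2⟩ := ldiv (0 : K) (m + 1) (Y - UD M X w - c) (by
    rw [← hT, map_sub, map_sub, hTD, hTw, hTc, hy01, hDb, pr_sub, pr_sub, pr_zero, pr_inj]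
    constructor
    · rw [a1]; abel
    · rw [map_neg]
      have : y1 = χ u + (UD M.tl X u' + k1 (K := K) (Sp K m) m m1) := by rw [← d1]; abel
      rw [this]; abel)
  rw [C_0, sub_zero] at hy2
  have hDc : UD M X c = (X 0 : Sp K (m + 1)) •
      k1 (K := K) (Sp K (m + 1)) (m + 1) ((M.x 0 ^ (p - 1)) m1) := by
    rw [hcdef, UD_X, UD_k1 M.tl _ m0 a4, UD_k1 M.tl _ m1 d4, mp_k1, b2, k1_zero, k1_succ, pr_smul,
      pr_inj]
    constructor
    · rw [zero_add, k1, k1, mp_cst, TensorProduct.map_tmul, LinearMap.mulLeft_apply]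
      rw [← mp_eq_smul _ (X 0 : Sp K (m + 1)) (mulL_eq_smul (V := M.V) (X 0 : Sp K (m + 1))) m,
        mp_cst, TensorProduct.map_tmul, LinearMap.mulLeft_apply]
      rfl
    · rw [smul_zero, sub_zero]
  have hfin : (X 0 : Sp K (m + 1)) •
      (z - UD M X y2 - k1 (K := K) (Sp K (m + 1)) (m + 1) ((M.x 0 ^ (p - 1)) m1)) = 0 := by
    have h1 : UD M X Y = UD M X ((X 0 : Sp K (m + 1)) • y2) + UD M X c := by
      rw [← hy2, map_sub, map_sub, UD_UD]; abel
    rw [smul_sub, smul_sub, hy', h1, hDc, UD_smul]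
    abel
  have hX0 : (X 0 : Sp K (m + 1)) ≠ 0 := X_ne_zero 0
  have h2 := lx_tors (K := K) (m + 1) _ hX0 _ hfin
  refine ⟨y2, m1, ?_, d3, d4⟩
  have h3 := sub_eq_zero.1 h2
  rw [← h3]
  abel

theorem desc [hp : Fact p.Prime] (M : GMod K p (m + 1)) (μ : ℤ)
    (hH : HH M.tl (μ - p)) (hH' : HH M.tl (μ - 2 * p + 2)) (k : ℕ)
    (z y : Lx (Sp K (m + 1) ⊗[K] M.V) (m + 1))
    (hμ : Lv (Sp K (m + 1)) M μ z = z)
    (hy : (X 0 : Sp K (m + 1)) ^ k • z = UD M X y) :
    ∃ y' v, z = UD M X y' + k1 (K := K) (Sp K (m + 1)) (m + 1) ((M.x 0 ^ (p - 1)) v) ∧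
      M.π (μ - 2 * p + 2) v = v ∧ ∀ i : Fin m, M.x i.succ v = 0 := by
  induction k generalizing y with
  | zero =>
    rw [pow_zero] at hy
    refine ⟨y, 0, ?_, map_zero _, fun i => map_zero _⟩
    rw [map_zero, k1_zero, add_zero, ← hy]
    exact (one_smul _ _).symm
  | succ k ih =>
    have h1 : (X 0 : Sp K (m + 1)) • ((X 0 : Sp K (m + 1)) ^ k • z) = UD M X y := by
      rw [← hy, smul_smul, ← pow_succ']
    obtain ⟨y', v, h2, h3, h4⟩ := stepB M μ hH hH' _ y (by rw [Lv_smul, hμ]) h1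
    rcases Nat.eq_zero_or_pos k with hk | hk
    · subst hk
      rw [pow_zero] at h2
      refine ⟨y', v, ?_, h3, h4⟩
      rw [← h2]
      exact (one_smul _ _).symm
    · obtain ⟨n, rfl⟩ : ∃ n, k = n + 1 := ⟨k - 1, by omega⟩
      have h5 : mp (e0 K (m + 1) M.V) (m + 1) ((X 0 : Sp K (m + 1)) ^ (n + 1) • z) = 0 := by
        rw [pow_succ', mul_smul]
        exact e0_X 0 (m + 1) _
      have h6 : (M.x 0 ^ (p - 1)) v = 0 := by
        have h7 := congrArg (fun w => bot (K := K) (m + 1) (mp (e0 K (m + 1) M.V) (m + 1) w)) h2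
        simp only [h5, map_add, map_zero, e0_k1] at h7
        rw [e0_bot_UD, zero_add] at h7
        exact h7.symm
      rw [h6, k1_zero, add_zero] at h2
      exact ih y' h2

/-- The inductive hypothesis on graded modules. -/
def GG [Fact p.Prime] [CharP K p] : ∀ (m : ℕ), Bool → ℤ → GMod K p m → Prop
  | 0, false, _, _ => True
  | 0, true, μ, M => M.π μ = 0
  | (m + 1), false, μ, M =>
    (∀ c, GG m true μ (M.chg c Finset.univ).Hev ∧
      GG m true (μ - ((p : ℤ) - 2)) (M.chg c Finset.univ).Hod) ∧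
    GG m false (μ - p) M.tl ∧ GG m false (μ - 2 * p + 2) M.tl
  | (m + 1), true, μ, M =>
    ((∀ c, GG m true μ (M.chg c Finset.univ).Hev ∧
      GG m true (μ - ((p : ℤ) - 2)) (M.chg c Finset.univ).Hod) ∧
    GG m false (μ - p) M.tl ∧ GG m false (μ - 2 * p + 2) M.tl) ∧
    GG m true (μ - 2 * p + 2) M.tl

theorem main_ind [hp : Fact p.Prime] [CharP K p] [IsAlgClosed K] (m : ℕ) :
    ∀ (μ : ℤ) (M : GMod K p m),
      (GG m false μ M → HH M μ) ∧ (GG m true μ M → HH M μ ∧ II M μ) := by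
  induction m with
  | zero =>
    intro μ M
    have h1 : HH M μ := by
      intro z _ _
      refine ⟨0, ?_⟩
      rw [map_zero]
      have key : ∀ w : Sp K 0 ⊗[K] M.V, ∃ v : M.V, w = (1 : Sp K 0) ⊗ₜ[K] v := by
        intro w
        induction w using TensorProduct.induction_on with
        | zero => exact ⟨0, by rw [TensorProduct.tmul_zero]⟩
        | add a b ha hb =>
          obtain ⟨v, rfl⟩ := ha
          obtain ⟨v', rfl⟩ := hb
          exact ⟨v + v', by rw [TensorProduct.tmul_add]⟩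
        | tmul s v =>
          refine ⟨(s.coeff 0) • v, ?_⟩
          rw [TensorProduct.tmul_smul, TensorProduct.smul_tmul']
          congr 1
          rw [smul_eq_C_mul, mul_one]
          exact eq_C_of_isEmpty s
      obtain ⟨v, hv⟩ := key z
      exact ⟨v, by rw [zero_add]; exact hv⟩
    refine ⟨fun _ => h1, fun h => ⟨h1, fun v hv _ => ?_⟩⟩
    have : M.π μ = 0 := h
    rw [this] at hv
    exact hv.symm
  | succ m ih =>
    intro μ M
    have base : (∀ c, GG m true μ (M.chg c Finset.univ).Hev ∧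
        GG m true (μ - ((p : ℤ) - 2)) (M.chg c Finset.univ).Hod) ∧
        GG m false (μ - p) M.tl ∧ GG m false (μ - 2 * p + 2) M.tl →
        ∀ z : Lx (Sp K (m + 1) ⊗[K] M.V) (m + 1), UD M X z = 0 →
          Lv (Sp K (m + 1)) M μ z = z →
        ∃ y' v, z = UD M X y' + k1 (K := K) (Sp K (m + 1)) (m + 1) ((M.x 0 ^ (p - 1)) v) ∧
          M.π (μ - 2 * p + 2) v = v ∧ ∀ i : Fin m, M.x i.succ v = 0 := by
      rintro ⟨h1, h2, h3⟩ z hz hμ
      obtain ⟨k, y, hy⟩ := X0pow M μ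
        (fun c => by
          obtain ⟨a, b⟩ := (ih μ (M.chg c Finset.univ).Hev).2 (h1 c).1
          exact ZZ_of a b)
        (fun c => by
          obtain ⟨a, b⟩ := (ih _ (M.chg c Finset.univ).Hod).2 (h1 c).2
          exact ZZ_of a b) z hz hμ
      exact desc M μ ((ih _ _).1 h2) ((ih _ _).1 h3) k z y hμ hy
    refine ⟨fun h z hz hμ => ?_, fun h => ⟨fun z hz hμ => ?_, fun v hv hx => ?_⟩⟩
    · obtain ⟨y, v, h1, -, -⟩ := base h z hz hμ
      exact ⟨y, _, h1⟩
    · obtain ⟨y, v, h1, -, -⟩ := base h.1 z hz hμ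
      exact ⟨y, _, h1⟩
    · obtain ⟨y, w, h1, h2, h3⟩ := base h.1 (k1 (K := K) (Sp K (m + 1)) (m + 1) v)
        (UD_k1 M X v hx) (by rw [Lv_k1, hv])
      have h4 : w = 0 := ((ih _ M.tl).2 h.2).2 w h2 h3
      rw [h4, map_zero, k1_zero, add_zero] at h1
      exact k1_range M v y h1

end statements

end Pool.Agent.J6H62.AB
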